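import Mathlib
import Pool.Agent.Lib.HBD.Hom

set_option autoImplicit false

/-!
# Homogeneous bent functions of EVERY degree `k ≥ 2` : definitions  (text: HB_all_proof.md)

* `Hom P d F` : `F` is homogeneous of degree `d` in finitely many variables, all satisfying `P`;
* `pflip`, `dflip` : flips by outputs and by data, for an ownership function `own`;
* `Pre k` : a flip system of degree `k` (everything possibly infinite, with finite index sets);
* `TF` : the two-fold identities, for all degrees `D ≥ 1`;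
* `St`, `rem`, `nd` : the `D`-trees;  `WSys k` : the interface of the weak system;
* `wt`, `gw`, `tau`, `RefSys` : addresses of the strong tree and the cut rule (interface);
* `BV`, `Forms` : the labels and the forms of the strong tree (interface).
-/

namespace Pool.Agent.HBA

open Finset Pool.Agent.P47443c

/-- `F` is homogeneous of degree `d`, in finitely many variables which all satisfy `P`. -/
def Hom {V : Type} [DecidableEq V] (P : V → Prop) (d : ℕ) (F : (V → ZMod 2) → ZMod 2) : Prop :=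
  ∃ A : Finset V, (∀ a ∈ A, P a) ∧ IsHomOn A d F

/-- Flip of all the labels owned by the output `p`. -/
def pflip {V E P : Type} [DecidableEq E] [DecidableEq P] (own : V → Option (E ⊕ P)) (p : P)
    (z : V → ZMod 2) : V → ZMod 2 :=
  fun v => z v + if own v = some (Sum.inr p) then 1 else 0

/-- `d e` is added to all the labels owned by the datum `e`. -/
def dflip {V E P : Type} (own : V → Option (E ⊕ P)) (d : E → ZMod 2)
    (z : V → ZMod 2) : V → ZMod 2 :=
  fun v => z v + match own v with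
    | some (Sum.inl e) => d e
    | _ => 0

/-- A flip system of degree `k` (the types may be infinite, `UE` and `UP` are the data and the
outputs which are used). -/
structure Pre (k : ℕ) where
  V : Type
  E : Type
  P : Type
  [dV : DecidableEq V]
  [dE : DecidableEq E]
  [dP : DecidableEq P]
  own : V → Option (E ⊕ P)
  UE : Finset E
  UP : Finset P
  v0 : V
  own0 : own v0 = none
  Phi : P → (V → ZMod 2) → ZMod 2
  Pi : P → (V → ZMod 2) → ZMod 2
  hom : ∀ p ∈ UP, Hom (fun _ => True) k (Phi p)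
  flip : ∀ p ∈ UP, ∀ q ∈ UP, ∀ z, Phi p (pflip own q z) = Phi p z + if p = q then Pi p z else 0
  flipPi : ∀ p ∈ UP, ∀ q ∈ UP, ∀ z, Pi p (pflip own q z) = Pi p z
  dec1 : ∀ z z', (∀ p ∈ UP, Pi p z = Pi p z') → z v0 = z' v0
  dec2 : ∀ z (d : E → ZMod 2), (∀ e, e ∉ UE → d e = 0) →
    (∀ p ∈ UP, Pi p (dflip own d z) = Pi p z) → d = 0
  card_eq : UP.card = UE.card + 1

attribute [instance] Pre.dV Pre.dE Pre.dP

/-- The two-fold identities: for every degree `D ≥ 1` a homogeneous `G D` whose total flip is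
`1 + ∑ R + ∑ Q * Q'`, with invariant homogeneous `R`, `Q`, `Q'` of small degrees. -/
structure TF where
  V : Type
  [dV : DecidableEq V]
  G : ℕ → (V → ZMod 2) → ZMod 2
  nI : ℕ → ℕ
  R : ℕ → ℕ → (V → ZMod 2) → ZMod 2
  r : ℕ → ℕ → ℕ
  nJ : ℕ → ℕ
  Q : ℕ → ℕ → (V → ZMod 2) → ZMod 2
  Q' : ℕ → ℕ → (V → ZMod 2) → ZMod 2
  q : ℕ → ℕ → ℕ
  q' : ℕ → ℕ → ℕ
  homG : ∀ D, 1 ≤ D → Hom (fun _ => True) D (G D)
  homR : ∀ D i, 1 ≤ D → i < nI D → Hom (fun _ => True) (r D i) (R D i)
  homQ : ∀ D j, 1 ≤ D → j < nJ D → Hom (fun _ => True) (q D j) (Q D j)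
  homQ' : ∀ D j, 1 ≤ D → j < nJ D → Hom (fun _ => True) (q' D j) (Q' D j)
  invR : ∀ D i, 1 ≤ D → i < nI D → ∀ x, R D i (fun v => x v + 1) = R D i x
  invQ : ∀ D j, 1 ≤ D → j < nJ D → ∀ x, Q D j (fun v => x v + 1) = Q D j x
  invQ' : ∀ D j, 1 ≤ D → j < nJ D → ∀ x, Q' D j (fun v => x v + 1) = Q' D j x
  r_pos : ∀ D i, 1 ≤ D → i < nI D → 1 ≤ r D i
  r_lt : ∀ D i, 1 ≤ D → i < nI D → r D i < D
  q_pos : ∀ D j, 1 ≤ D → j < nJ D → 1 ≤ q D j
  q'_pos : ∀ D j, 1 ≤ D → j < nJ D → 1 ≤ q' D j
  q_lt : ∀ D j, 1 ≤ D → j < nJ D → q D j + q' D j < D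
  key : ∀ D, 1 ≤ D → ∀ x, G D (fun v => x v + 1) = G D x + (1 + ∑ i ∈ range (nI D), R D i x +
    ∑ j ∈ range (nJ D), Q D j x * Q' D j x)

attribute [instance] TF.dV

/-- Steps: single, plus, c (guard), t. The `D`-trees use only `s` and `p`. -/
inductive St where
  | s (i : ℕ)
  | p (j : ℕ)
  | c (j : ℕ)
  | t (j : ℕ)
  deriving DecidableEq

/-- The remaining degree at a node of the tree with root degree `D0` (head of the list = last
step). -/
def rem (T : TF) (D0 : ℕ) : List St → ℕ
  | [] => D0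
  | St.s i :: x => rem T D0 x - T.r (rem T D0 x) i
  | St.p j :: x => rem T D0 x - (T.q (rem T D0 x) j + T.q' (rem T D0 x) j)
  | _ :: x => rem T D0 x

/-- The nodes of the `D0`-tree. -/
def nd (T : TF) (D0 : ℕ) : List St → Prop
  | [] => True
  | St.s i :: x => nd T D0 x ∧ i < T.nI (rem T D0 x)
  | St.p j :: x => nd T D0 x ∧ j < T.nJ (rem T D0 x)
  | _ :: _ => False

/-- The interface of the weak system of degree `k`. -/
structure WSys (k : ℕ) where
  V : Type
  I : Type
  [dV : DecidableEq V]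
  [dI : DecidableEq I]
  own : V → Option (I ⊕ I)
  U : Finset I
  Phi : I → (V → ZMod 2) → ZMod 2
  Pi : I → (V → ZMod 2) → ZMod 2
  f : I → (V → ZMod 2) → ZMod 2
  wt : I → ℕ
  homPhi : ∀ a ∈ U, Hom (fun _ => True) k (Phi a)
  homf : ∀ a ∈ U, Hom (fun _ => True) (wt a) (f a)
  flipPhi : ∀ a ∈ U, ∀ b ∈ U, ∀ z, Phi a (pflip own b z) = Phi a z + if a = b then Pi a z else 0
  flipPi : ∀ a ∈ U, ∀ b ∈ U, ∀ z, Pi a (pflip own b z) = Pi a z
  flipf : ∀ a ∈ U, ∀ b ∈ U, ∀ z, f a (pflip own b z) = f a z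
  dec : ∀ z (d : I → ZMod 2), (∀ a, a ∉ U → d a = 0) →
    (∀ a ∈ U, f a (dflip own d z) = f a z ∨ Pi a (dflip own d z) = Pi a z) → d = 0
  surj : ∀ w, 1 ≤ w → w < k → ∃ a ∈ U, wt a = w

attribute [instance] WSys.dV WSys.dI

/-! ## Addresses of the strong tree -/

/-- The weight of the form at an address (head of the list = last step). -/
def wt (T : TF) (k : ℕ) : List St → ℕ
  | [] => 1
  | St.s i :: N => wt T k N + T.r (k - wt T k N) i
  | St.p j :: N => wt T k N + (T.q (k - wt T k N) j + T.q' (k - wt T k N) j)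
  | St.c j :: N => wt T k N + T.q (k - wt T k N) j
  | St.t j :: N => T.q' (k - wt T k N) j

/-- The guard weight of the pair `(N, j)`. -/
def gw (T : TF) (k : ℕ) (N : List St) (j : ℕ) : ℕ := wt T k N + T.q (k - wt T k N) j

/-- The last T-node above (or equal to) `N` : strip the steps until a `t`-step is reached. -/
def tau : List St → List St
  | [] => []
  | St.t j :: N => St.t j :: N
  | _ :: N => tau N

/-- The unit of `N` : strip the steps `s`, `p`. -/
def unit : List St → List St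
  | [] => []
  | St.s _ :: N => unit N
  | St.p _ :: N => unit N
  | St.c j :: N => St.c j :: N
  | St.t j :: N => St.t j :: N

/-- T-node of the reference `a = (j, A)`. -/
def tn (a : ℕ × List St) : List St := St.t a.1 :: a.2

/-- c-node (guard) of the reference `a = (j, A)`. -/
def cn (a : ℕ × List St) : List St := St.c a.1 :: a.2

/-- The finite set of valid addresses, the cut rule and the references of the cut pairs. -/
structure RefSys (T : TF) (k : ℕ) where
  Vd : Finset (List St)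
  cut : List St → ℕ → Prop
  a0 : List St → ℕ → ℕ × List St
  a1 : List St → ℕ → ℕ × List St
  nil : [] ∈ Vd
  mem_s : ∀ N i, St.s i :: N ∈ Vd ↔ N ∈ Vd ∧ i < T.nI (k - wt T k N)
  mem_p : ∀ N j, St.p j :: N ∈ Vd ↔ N ∈ Vd ∧ j < T.nJ (k - wt T k N)
  mem_c : ∀ N j, St.c j :: N ∈ Vd ↔ N ∈ Vd ∧ j < T.nJ (k - wt T k N) ∧ ¬ cut N j
  mem_t : ∀ N j, St.t j :: N ∈ Vd ↔ N ∈ Vd ∧ j < T.nJ (k - wt T k N) ∧ ¬ cut N j
  /-- positions and weights of the references -/
  R1 : ∀ N j, N ∈ Vd → j < T.nJ (k - wt T k N) → cut N j →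
    tn (a0 N j) <:+ N ∧ tn (a1 N j) <:+ (a0 N j).2 ∧
    gw T k (a0 N j).2 (a0 N j).1 = gw T k N j ∧ gw T k (a1 N j).2 (a1 N j).1 = gw T k N j
  /-- window rule -/
  R2 : ∀ N j, N ∈ Vd → j < T.nJ (k - wt T k N) → cut N j → ∀ b B, St.t b :: B <:+ N →
    tn (a1 N j) <:+ St.t b :: B → gw T k N j ≤ gw T k B b
  /-- different codes -/
  R3 : ∀ N j N' j', N ∈ Vd → j < T.nJ (k - wt T k N) → cut N j →
    N' ∈ Vd → j' < T.nJ (k - wt T k N') → cut N' j' → a1 N j = a1 N' j' → (N, j) ≠ (N', j') →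
    ¬ tn (a0 N j) <:+ N' ∧ ¬ tau N' <:+ tn (a0 N j)
  R4 : ∀ N j N' j', N ∈ Vd → j < T.nJ (k - wt T k N) → cut N j →
    N' ∈ Vd → j' < T.nJ (k - wt T k N') → cut N' j' → a0 N j ≠ a1 N' j'

/-! ## Labels and forms of the strong tree -/

/-- Labels: the root label, the labels of the node `N`, the labels of the copy of the weak system
attached to the unit `u`. -/
inductive BV (A B : Type) where
  | root : BV A B
  | lab (N : List St) (v : A) : BV A B
  | msk (u : List St) (v : B) : BV A B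
  deriving DecidableEq

/-- Location of a label. -/
def loc {A B : Type} : BV A B → List St
  | BV.root => []
  | BV.lab N _ => tau N
  | BV.msk u _ => tau u.tail

section forms

variable {T : TF} {k : ℕ}

/-- The values of the labels of the node `N`. -/
def labz {A B : Type} (N : List St) (z : BV A B → ZMod 2) : A → ZMod 2 := fun v => z (BV.lab N v)

/-- The values of the labels of copy `u`. -/
def mskz {A B : Type} (u : List St) (z : BV A B → ZMod 2) : B → ZMod 2 := fun v => z (BV.msk u v)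

/-- The pairs `(N, j)` of the tree. -/
def RefSys.prs (S : RefSys T k) : Finset (List St × ℕ) :=
  S.Vd.biUnion (fun N => (range (T.nJ (k - wt T k N))).image (fun j => (N, j)))

open Classical in
/-- The cut pairs whose second reference is `(j, N)`. -/
noncomputable def RefSys.Dep (S : RefSys T k) (N : List St) (j : ℕ) : Finset (List St × ℕ) :=
  S.prs.filter (fun e => S.cut e.1 e.2 ∧ S.a1 e.1 e.2 = (j, N))

variable (T k)

/-- `G` at the node `N`. -/
def Gn {B : Type} (N : List St) (z : BV T.V B → ZMod 2) : ZMod 2 := T.G (k - wt T k N) (labz N z)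

/-- `R i` at the node `N`. -/
def Rn {B : Type} (N : List St) (i : ℕ) (z : BV T.V B → ZMod 2) : ZMod 2 :=
  T.R (k - wt T k N) i (labz N z)

/-- `Q j` at the node `N`. -/
def Qn {B : Type} (N : List St) (j : ℕ) (z : BV T.V B → ZMod 2) : ZMod 2 :=
  T.Q (k - wt T k N) j (labz N z)

/-- `Q' j` at the node `N`. -/
def Qn' {B : Type} (N : List St) (j : ℕ) (z : BV T.V B → ZMod 2) : ZMod 2 :=
  T.Q' (k - wt T k N) j (labz N z)

variable {T k}

open Classical in
/-- The guard of the pair `(N, j)`, for a family `f` of forms. -/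
noncomputable def Cg {B : Type} (S : RefSys T k) (f : List St → (BV T.V B → ZMod 2) → ZMod 2)
    (N : List St) (j : ℕ) (z : BV T.V B → ZMod 2) : ZMod 2 :=
  if S.cut N j then f (cn (S.a0 N j)) z + f (cn (S.a1 N j)) z else f (St.c j :: N) z

/-- The mask at the unit `u` : the form of the chosen unit `ga u` of the copy `u`. -/
def Mk (W : WSys k) (ga : List St → W.I) (u : List St) (z : BV T.V W.V → ZMod 2) : ZMod 2 :=
  W.f (ga u) (mskz u z)

open Classical in
/-- The mask of the T-form of the pair `(N, j)`. -/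
noncomputable def Rho (S : RefSys T k) (W : WSys k) (ga : List St → W.I)
    (N : List St) (j : ℕ) (z : BV T.V W.V → ZMod 2) : ZMod 2 :=
  if S.cut N j then 0 else Mk W ga (St.t j :: N) z

/-- The forms of the strong tree. -/
structure Forms (S : RefSys T k) (W : WSys k) (ga : List St → W.I) where
  f : List St → (BV T.V W.V → ZMod 2) → ZMod 2
  f_nil : ∀ z, f [] z = z BV.root
  f_t : ∀ N j, St.t j :: N ∈ S.Vd → ∀ z, f (St.t j :: N) z = Qn' T k N j z + Mk W ga (St.t j :: N) z
  f_c : ∀ N j, St.c j :: N ∈ S.Vd → ∀ z, f (St.c j :: N) z = f N z * Qn T k N j z +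
    Mk W ga (St.c j :: N) z + ∑ e ∈ S.Dep N j, f e.1 z * Qn T k e.1 e.2 z
  f_s : ∀ N i, St.s i :: N ∈ S.Vd → ∀ z, f (St.s i :: N) z = f N z * Rn T k N i z
  f_p : ∀ N j, St.p j :: N ∈ S.Vd → ∀ z, f (St.p j :: N) z =
    (Cg S f N j z + f N z * Qn T k N j z) * Qn' T k N j z + Cg S f N j z * Rho S W ga N j z

end forms

end Pool.Agent.HBA
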