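import Mathlib
import Pool.Agent.Lib.HBA.Defs

set_option autoImplicit false

/-!
# Module HBA.HomLem : closure properties of `Hom`

Everything follows from the lemmas of `IsHomOn` (P47443c/Basic.lean: zero, congr, add, sum, mono,
monomial, one, mul). For `add`/`sum` take the union of
the supports (`IsHomOn.mono`). For `mul` note that `A` and `B` are disjoint by `hd`.
`Hom.dep`: `F z = ∑ s ∈ S, ∏ i ∈ s, z i` with `s ⊆ A`. In `Hom.comp`: `e` is an embedding, support
`A.map e`.
-/

namespace Pool.Agent.HBA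

open Finset Pool.Agent.P47443c

section

variable {V : Type} [DecidableEq V] {P Q : V → Prop} {d : ℕ} {F G : (V → ZMod 2) → ZMod 2}

theorem Hom.zero (P : V → Prop) (d : ℕ) : Hom P d (fun _ => 0) :=
  ⟨∅, by simp, IsHomOn.zero ∅ d⟩

theorem Hom.one (P : V → Prop) : Hom P 0 (fun _ => 1) :=
  ⟨∅, by simp, IsHomOn.one ∅⟩

theorem Hom.var {v : V} (hv : P v) : Hom P 1 (fun z => z v) := by
  refine ⟨{v}, fun a ha => ?_, ?_⟩
  · rw [Finset.mem_singleton.1 ha]
    exact hv
  · have h := IsHomOn.monomial (A := ({v} : Finset V)) (s := {v}) (Finset.Subset.refl _)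
    rw [Finset.card_singleton] at h
    exact h.congr (fun x => by rw [Finset.prod_singleton])

theorem Hom.congr (h : Hom P d F) (e : ∀ x, G x = F x) : Hom P d G := by
  obtain ⟨A, hA, hF⟩ := h
  exact ⟨A, hA, hF.congr e⟩

theorem Hom.mono (h : Hom P d F) (hP : ∀ a, P a → Q a) : Hom Q d F := by
  obtain ⟨A, hA, hF⟩ := h
  exact ⟨A, fun a ha => hP a (hA a ha), hF⟩

theorem Hom.add (h : Hom P d F) (h' : Hom P d G) : Hom P d (fun x => F x + G x) := by
  obtain ⟨A, hA, hF⟩ := h
  obtain ⟨B, hB, hG⟩ := h'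
  refine ⟨A ∪ B, fun a ha => ?_, (hF.mono Finset.subset_union_left).add
    (hG.mono Finset.subset_union_right)⟩
  rcases Finset.mem_union.1 ha with h1 | h1
  · exact hA a h1
  · exact hB a h1

theorem Hom.sum {α : Type*} (T : Finset α) {F : α → (V → ZMod 2) → ZMod 2}
    (h : ∀ t ∈ T, Hom P d (F t)) : Hom P d (fun x => ∑ t ∈ T, F t x) := by
  classical
  induction T using Finset.induction_on with
  | empty => exact (Hom.zero P d).congr (fun x => Finset.sum_empty)
  | insert a T ha ih =>
    have h1 := h a (Finset.mem_insert_self _ _)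
    have h2 := ih (fun t ht => h t (Finset.mem_insert_of_mem ht))
    exact (h1.add h2).congr (fun x => by rw [Finset.sum_insert ha])

theorem Hom.mul {l : ℕ} (h : Hom P d F) (h' : Hom Q l G) (hd : ∀ a, P a → Q a → False) :
    Hom (fun a => P a ∨ Q a) (d + l) (fun x => F x * G x) := by
  obtain ⟨A, hA, hF⟩ := h
  obtain ⟨B, hB, hG⟩ := h'
  refine ⟨A ∪ B, fun a ha => ?_, hF.mul hG ?_⟩
  · rcases Finset.mem_union.1 ha with h1 | h1
    · exact Or.inl (hA a h1)
    · exact Or.inr (hB a h1)
  · rw [Finset.disjoint_left]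
    exact fun a ha hb => hd a (hA a ha) (hB a hb)

/-- `F` depends only on the labels satisfying `P`. -/
theorem Hom.dep (h : Hom P d F) {z z' : V → ZMod 2} (hz : ∀ v, P v → z v = z' v) : F z = F z' := by
  obtain ⟨A, hA, S, h1, h2⟩ := h
  rw [h2 z, h2 z']
  refine Finset.sum_congr rfl (fun s hs => Finset.prod_congr rfl (fun i hi => ?_))
  exact hz i (hA i ((h1 s hs).2 hi))

theorem Hom.comp {W : Type} [DecidableEq W] {P' : W → Prop} {F' : (W → ZMod 2) → ZMod 2}
    (h : Hom P' d F') (e : W → V) (he : Function.Injective e) (hP : ∀ w, P' w → P (e w)) :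
    Hom P d (fun z => F' (fun w => z (e w))) := by
  obtain ⟨A, hA, S, h1, h2⟩ := h
  let e' : W ↪ V := ⟨e, he⟩
  refine ⟨A.map e', fun a ha => ?_, ?_⟩
  · obtain ⟨w, hw, rfl⟩ := Finset.mem_map.1 ha
    exact hP w (hA w hw)
  · have h3 : IsHomOn (A.map e') d (fun z : V → ZMod 2 => ∑ s ∈ S, ∏ w ∈ s, z (e w)) := by
      refine IsHomOn.sum S (fun s hs => ?_)
      have h4 := IsHomOn.monomial (Finset.map_subset_map.2 (h1 s hs).2 : s.map e' ⊆ A.map e')
      rw [Finset.card_map, (h1 s hs).1] at h4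
      exact h4.congr (fun z => (Finset.prod_map s e' z).symm)
    exact h3.congr (fun z => h2 _)

end

theorem z2_add_self (z : ZMod 2) : z + z = 0 := by revert z; decide

theorem z2_mul_self (z : ZMod 2) : z * z = z := by revert z; decide

theorem z2_eq_one {z : ZMod 2} (h : z ≠ 0) : z = 1 := by revert z; decide

end Pool.Agent.HBA
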