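import Mathlib
import Pool.Agent.Lib.HBA.HomLem

set_option autoImplicit false

/-!
# Module HBA.AddW : direct sum of a flip system and a weak system

`V = X.V ⊕ W.V`, `E = X.E ⊕ W.I`, `P = X.P ⊕ W.I`, `own` componentwise, `UE = X.UE.disjSum W.U`,
`UP = X.UP.disjSum W.U`, `v0 = inl X.v0`, `Phi (inl p) z = X.Phi p (z ∘ inl)`,
`Phi (inr a) z = W.Phi a (z ∘ inr)`, the same for `Pi`. `dec2` : `X.dec2` for the first component,
`W.dec` (with the alternative `Pi` unchanged) for the second.
-/

namespace Pool.Agent.HBA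

open Finset Pool.Agent.P47443c

namespace AddWAux

variable {V V' E E' P P' : Type}

/-- Ownership on the direct sum. -/
def sown (o : V → Option (E ⊕ P)) (o' : V' → Option (E' ⊕ P')) :
    V ⊕ V' → Option ((E ⊕ E') ⊕ (P ⊕ P'))
  | Sum.inl v => (o v).map (Sum.map Sum.inl Sum.inl)
  | Sum.inr v => (o' v).map (Sum.map Sum.inr Sum.inr)

theorem map_ll (x : Option (E ⊕ P)) (q : P) :
    (x.map (Sum.map Sum.inl Sum.inl : E ⊕ P → (E ⊕ E') ⊕ (P ⊕ P')) =
      some (Sum.inr (Sum.inl q))) ↔ x = some (Sum.inr q) := by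
  rcases x with _ | (e | p) <;> simp

theorem map_rr (x : Option (E' ⊕ P')) (q : P') :
    (x.map (Sum.map Sum.inr Sum.inr : E' ⊕ P' → (E ⊕ E') ⊕ (P ⊕ P')) =
      some (Sum.inr (Sum.inr q))) ↔ x = some (Sum.inr q) := by
  rcases x with _ | (e | p) <;> simp

theorem map_lr (x : Option (E ⊕ P)) (q : P') :
    ¬ (x.map (Sum.map Sum.inl Sum.inl : E ⊕ P → (E ⊕ E') ⊕ (P ⊕ P')) =
      some (Sum.inr (Sum.inr q))) := by
  rcases x with _ | (e | p) <;> simp

theorem map_rl (x : Option (E' ⊕ P')) (q : P) :
    ¬ (x.map (Sum.map Sum.inr Sum.inr : E' ⊕ P' → (E ⊕ E') ⊕ (P ⊕ P')) =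
      some (Sum.inr (Sum.inl q))) := by
  rcases x with _ | (e | p) <;> simp

theorem dflip_l (o : V → Option (E ⊕ P)) (o' : V' → Option (E' ⊕ P')) (d : E ⊕ E' → ZMod 2)
    (z : V ⊕ V' → ZMod 2) : (fun v => dflip (sown o o') d z (Sum.inl v)) =
      dflip o (fun e => d (Sum.inl e)) (fun v => z (Sum.inl v)) := by
  funext v
  simp only [dflip, sown]
  rcases h : o v with _ | (e | p)
  · simp
  · simp
  · simp

theorem dflip_r (o : V → Option (E ⊕ P)) (o' : V' → Option (E' ⊕ P')) (d : E ⊕ E' → ZMod 2)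
    (z : V ⊕ V' → ZMod 2) : (fun v => dflip (sown o o') d z (Sum.inr v)) =
      dflip o' (fun e => d (Sum.inr e)) (fun v => z (Sum.inr v)) := by
  funext v
  simp only [dflip, sown]
  rcases h : o' v with _ | (e | p)
  · simp
  · simp
  · simp

variable [DecidableEq E] [DecidableEq E'] [DecidableEq P] [DecidableEq P']

theorem pflip_ll (o : V → Option (E ⊕ P)) (o' : V' → Option (E' ⊕ P')) (q : P)
    (z : V ⊕ V' → ZMod 2) : (fun v => pflip (sown o o') (Sum.inl q) z (Sum.inl v)) =
      pflip o q (fun v => z (Sum.inl v)) := by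
  funext v
  exact congrArg (fun t => z (Sum.inl v) + t) (if_congr (map_ll (o v) q) rfl rfl)

theorem pflip_lr (o : V → Option (E ⊕ P)) (o' : V' → Option (E' ⊕ P')) (q : P)
    (z : V ⊕ V' → ZMod 2) : (fun v => pflip (sown o o') (Sum.inl q) z (Sum.inr v)) =
      (fun v => z (Sum.inr v)) := by
  funext v
  exact (congrArg (fun t => z (Sum.inr v) + t) (if_neg (map_rl (o' v) q))).trans (add_zero _)

theorem pflip_rl (o : V → Option (E ⊕ P)) (o' : V' → Option (E' ⊕ P')) (q : P')
    (z : V ⊕ V' → ZMod 2) : (fun v => pflip (sown o o') (Sum.inr q) z (Sum.inl v)) =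
      (fun v => z (Sum.inl v)) := by
  funext v
  exact (congrArg (fun t => z (Sum.inl v) + t) (if_neg (map_lr (o v) q))).trans (add_zero _)

theorem pflip_rr (o : V → Option (E ⊕ P)) (o' : V' → Option (E' ⊕ P')) (q : P')
    (z : V ⊕ V' → ZMod 2) : (fun v => pflip (sown o o') (Sum.inr q) z (Sum.inr v)) =
      pflip o' q (fun v => z (Sum.inr v)) := by
  funext v
  exact congrArg (fun t => z (Sum.inr v) + t) (if_congr (map_rr (o' v) q) rfl rfl)

end AddWAux

open AddWAux in
theorem add_w {k : ℕ} (X : Pre k) (W : WSys k) :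
    ∃ Y : Pre k, Y.UP.card = X.UP.card + W.U.card ∧ Y.UE.card = X.UE.card + W.U.card := by
  refine ⟨{ V := X.V ⊕ W.V
            E := X.E ⊕ W.I
            P := X.P ⊕ W.I
            own := sown X.own W.own
            UE := X.UE.disjSum W.U
            UP := X.UP.disjSum W.U
            v0 := Sum.inl X.v0
            own0 := ?_
            Phi := fun p z => Sum.elim (fun p => X.Phi p (fun v => z (Sum.inl v)))
              (fun a => W.Phi a (fun v => z (Sum.inr v))) p
            Pi := fun p z => Sum.elim (fun p => X.Pi p (fun v => z (Sum.inl v)))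
              (fun a => W.Pi a (fun v => z (Sum.inr v))) p
            hom := ?_
            flip := ?_
            flipPi := ?_
            dec1 := ?_
            dec2 := ?_
            card_eq := ?_ }, ?_, ?_⟩
  · simp [sown, X.own0]
  · rintro (p | a) hp
    · rw [Finset.inl_mem_disjSum] at hp
      exact Hom.comp (X.hom p hp) Sum.inl Sum.inl_injective (fun _ _ => trivial)
    · rw [Finset.inr_mem_disjSum] at hp
      exact Hom.comp (W.homPhi a hp) Sum.inr Sum.inr_injective (fun _ _ => trivial)
  · rintro (p | a) hp (q | b) hq z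
    · rw [Finset.inl_mem_disjSum] at hp hq
      simp only [Sum.elim_inl, pflip_ll, X.flip p hp q hq, Sum.inl.injEq]
    · rw [Finset.inl_mem_disjSum] at hp
      simp only [Sum.elim_inl, pflip_rl, reduceCtorEq, if_false, add_zero]
    · rw [Finset.inr_mem_disjSum] at hp
      simp only [Sum.elim_inr, pflip_lr, reduceCtorEq, if_false, add_zero]
    · rw [Finset.inr_mem_disjSum] at hp hq
      simp only [Sum.elim_inr, pflip_rr, W.flipPhi a hp b hq, Sum.inr.injEq]
  · rintro (p | a) hp (q | b) hq z
    · rw [Finset.inl_mem_disjSum] at hp hq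
      simp only [Sum.elim_inl, pflip_ll, X.flipPi p hp q hq]
    · simp only [Sum.elim_inl, pflip_rl]
    · simp only [Sum.elim_inr, pflip_lr]
    · rw [Finset.inr_mem_disjSum] at hp hq
      simp only [Sum.elim_inr, pflip_rr, W.flipPi a hp b hq]
  · intro z z' h
    refine X.dec1 (fun v => z (Sum.inl v)) (fun v => z' (Sum.inl v)) (fun p hp => ?_)
    exact h (Sum.inl p) (Finset.inl_mem_disjSum.2 hp)
  · intro z d hd h
    have e1 : (fun e => d (Sum.inl e)) = 0 := by
      refine X.dec2 (fun v => z (Sum.inl v)) (fun e => d (Sum.inl e)) (fun e he => ?_)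
        (fun p hp => ?_)
      · exact hd (Sum.inl e) (fun h' => he (Finset.inl_mem_disjSum.1 h'))
      · have := h (Sum.inl p) (Finset.inl_mem_disjSum.2 hp)
        simpa only [Sum.elim_inl, dflip_l] using this
    have e2 : (fun e => d (Sum.inr e)) = 0 := by
      refine W.dec (fun v => z (Sum.inr v)) (fun e => d (Sum.inr e)) (fun e he => ?_)
        (fun a ha => Or.inr ?_)
      · exact hd (Sum.inr e) (fun h' => he (Finset.inr_mem_disjSum.1 h'))
      · have := h (Sum.inr a) (Finset.inr_mem_disjSum.2 ha)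
        simpa only [Sum.elim_inr, dflip_r] using this
    funext e
    rcases e with e | e
    · exact congrFun e1 e
    · exact congrFun e2 e
  · rw [Finset.card_disjSum, Finset.card_disjSum, X.card_eq]
    omega
  · exact Finset.card_disjSum _ _
  · exact Finset.card_disjSum _ _

end Pool.Agent.HBA
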