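import Mathlib
import Pool.Agent.Lib.HBA.HomLem

set_option autoImplicit false

/-!
# Module HBA.Addr : addresses, `tau`, `unit`, valid addresses

List combinatorics (`<:+` = suffix; two suffixes of the same list are comparable:
`List.suffix_or_suffix_of_suffix`) and induction on the address.
-/

namespace Pool.Agent.HBA

open Finset Pool.Agent.P47443c

theorem tau_suffix (N : List St) : tau N <:+ N := by
  induction N with
  | nil => exact List.suffix_refl _
  | cons a N ih =>
    cases a with
    | s i => exact ih.trans (List.suffix_cons _ _)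
    | p j => exact ih.trans (List.suffix_cons _ _)
    | c j => exact ih.trans (List.suffix_cons _ _)
    | t j => exact List.suffix_refl _

theorem suffix_tau {b : ℕ} {B N : List St} (h : St.t b :: B <:+ N) : St.t b :: B <:+ tau N := by
  induction N with
  | nil => exact absurd (List.suffix_nil.1 h) (List.cons_ne_nil _ _)
  | cons a N ih =>
    cases a with
    | s i =>
      rcases List.suffix_cons_iff.1 h with h1 | h1
      · exact St.noConfusion (List.cons.inj h1).1
      · exact ih h1
    | p j =>
      rcases List.suffix_cons_iff.1 h with h1 | h1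
      · exact St.noConfusion (List.cons.inj h1).1
      · exact ih h1
    | c j =>
      rcases List.suffix_cons_iff.1 h with h1 | h1
      · exact St.noConfusion (List.cons.inj h1).1
      · exact ih h1
    | t j => exact h

theorem tau_cases (N : List St) : tau N = [] ∨ ∃ b B, tau N = St.t b :: B := by
  induction N with
  | nil => exact Or.inl rfl
  | cons a N ih =>
    cases a with
    | s i => exact ih
    | p j => exact ih
    | c j => exact ih
    | t j => exact Or.inr ⟨j, N, rfl⟩

theorem tau_idem (N : List St) : tau (tau N) = tau N := by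
  rcases tau_cases N with h | ⟨b, B, h⟩
  · rw [h]
    rfl
  · rw [h]
    rfl

/-- A T-node which is a suffix of the last T-node of `N`. -/
theorem suffix_of_tau {S N : List St} (h : S <:+ tau N) : S <:+ N := h.trans (tau_suffix N)

theorem unit_suffix (N : List St) : unit N <:+ N := by
  induction N with
  | nil => exact List.suffix_refl _
  | cons a N ih =>
    cases a with
    | s i => exact ih.trans (List.suffix_cons _ _)
    | p j => exact ih.trans (List.suffix_cons _ _)
    | c j => exact List.suffix_refl _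
    | t j => exact List.suffix_refl _

theorem unit_cases (N : List St) : unit N = [] ∨ (∃ j B, unit N = St.c j :: B) ∨
    ∃ j B, unit N = St.t j :: B := by
  induction N with
  | nil => exact Or.inl rfl
  | cons a N ih =>
    cases a with
    | s i => exact ih
    | p j => exact ih
    | c j => exact Or.inr (Or.inl ⟨j, N, rfl⟩)
    | t j => exact Or.inr (Or.inr ⟨j, N, rfl⟩)

theorem unit_idem (N : List St) : unit (unit N) = unit N := by
  rcases unit_cases N with h | ⟨b, B, h⟩ | ⟨b, B, h⟩
  · rw [h]
    rfl
  · rw [h]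
    rfl
  · rw [h]
    rfl

/-- The T-node suffixes of `N` and of `unit N` are the same. -/
theorem suffix_unit {b : ℕ} {B N : List St} : St.t b :: B <:+ N ↔ St.t b :: B <:+ unit N := by
  constructor
  · intro h
    induction N with
    | nil => exact absurd (List.suffix_nil.1 h) (List.cons_ne_nil _ _)
    | cons a N ih =>
      cases a with
      | s i =>
        rcases List.suffix_cons_iff.1 h with h1 | h1
        · exact St.noConfusion (List.cons.inj h1).1
        · exact ih h1
      | p j =>
        rcases List.suffix_cons_iff.1 h with h1 | h1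
        · exact St.noConfusion (List.cons.inj h1).1
        · exact ih h1
      | c j => exact h
      | t j => exact h
  · intro h
    exact h.trans (unit_suffix N)

section

variable {T : TF} {k : ℕ} (S : RefSys T k)

theorem RefSys.tail {x : St} {N : List St} (h : x :: N ∈ S.Vd) : N ∈ S.Vd := by
  cases x with
  | s i => exact ((S.mem_s N i).1 h).1
  | p j => exact ((S.mem_p N j).1 h).1
  | c j => exact ((S.mem_c N j).1 h).1
  | t j => exact ((S.mem_t N j).1 h).1

theorem RefSys.suffix {A N : List St} (h : N ∈ S.Vd) (hA : A <:+ N) : A ∈ S.Vd := by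
  induction N with
  | nil =>
    rw [List.suffix_nil.1 hA]
    exact h
  | cons a N ih =>
    rcases List.suffix_cons_iff.1 hA with h1 | h1
    · rw [h1]
      exact h
    · exact ih (S.tail h) h1

/-- All weights are between `1` and `k - 1`. -/
theorem RefSys.wt_lt (hk : 2 ≤ k) {N : List St} (h : N ∈ S.Vd) : 1 ≤ wt T k N ∧ wt T k N < k := by
  induction N with
  | nil =>
    show 1 ≤ 1 ∧ 1 < k
    omega
  | cons a N ih =>
    obtain ⟨h1, h2⟩ := ih (S.tail h)
    have h0 : 1 ≤ k - wt T k N := by omega
    cases a with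
    | s i =>
      have h3 := ((S.mem_s N i).1 h).2
      have h4 := T.r_pos _ i h0 h3
      have h5 := T.r_lt _ i h0 h3
      show 1 ≤ wt T k N + T.r (k - wt T k N) i ∧ wt T k N + T.r (k - wt T k N) i < k
      omega
    | p j =>
      have h3 := ((S.mem_p N j).1 h).2
      have h4 := T.q_pos _ j h0 h3
      have h5 := T.q_lt _ j h0 h3
      show 1 ≤ wt T k N + (T.q (k - wt T k N) j + T.q' (k - wt T k N) j) ∧
        wt T k N + (T.q (k - wt T k N) j + T.q' (k - wt T k N) j) < k
      omega
    | c j =>
      have h3 := ((S.mem_c N j).1 h).2.1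
      have h4 := T.q_pos _ j h0 h3
      have h5 := T.q_lt _ j h0 h3
      show 1 ≤ wt T k N + T.q (k - wt T k N) j ∧ wt T k N + T.q (k - wt T k N) j < k
      omega
    | t j =>
      have h3 := ((S.mem_t N j).1 h).2.1
      have h4 := T.q'_pos _ j h0 h3
      have h5 := T.q_lt _ j h0 h3
      show 1 ≤ T.q' (k - wt T k N) j ∧ T.q' (k - wt T k N) j < k
      omega

/-- Index of the last step and increase of the weight. -/
theorem RefSys.wt_s (hk : 2 ≤ k) {N : List St} {i : ℕ} (h : St.s i :: N ∈ S.Vd) :
    i < T.nI (k - wt T k N) ∧ wt T k N < wt T k (St.s i :: N) := by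
  have h1 := (S.mem_s N i).1 h
  have h2 := S.wt_lt hk h1.1
  have h3 := T.r_pos (k - wt T k N) i (by omega) h1.2
  refine ⟨h1.2, ?_⟩
  show wt T k N < wt T k N + T.r (k - wt T k N) i
  omega

theorem RefSys.wt_p (hk : 2 ≤ k) {N : List St} {j : ℕ} (h : St.p j :: N ∈ S.Vd) :
    j < T.nJ (k - wt T k N) ∧ wt T k N < gw T k N j ∧ gw T k N j < wt T k (St.p j :: N) := by
  have h1 := (S.mem_p N j).1 h
  have h2 := S.wt_lt hk h1.1
  have h3 := T.q_pos (k - wt T k N) j (by omega) h1.2
  have h4 := T.q'_pos (k - wt T k N) j (by omega) h1.2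
  refine ⟨h1.2, ?_, ?_⟩
  · show wt T k N < wt T k N + T.q (k - wt T k N) j
    omega
  · show wt T k N + T.q (k - wt T k N) j <
      wt T k N + (T.q (k - wt T k N) j + T.q' (k - wt T k N) j)
    omega

theorem RefSys.wt_c (hk : 2 ≤ k) {N : List St} {j : ℕ} (h : St.c j :: N ∈ S.Vd) :
    j < T.nJ (k - wt T k N) ∧ wt T k N < wt T k (St.c j :: N) := by
  have h1 := (S.mem_c N j).1 h
  have h2 := S.wt_lt hk h1.1
  have h3 := T.q_pos (k - wt T k N) j (by omega) h1.2.1
  refine ⟨h1.2.1, ?_⟩
  show wt T k N < wt T k N + T.q (k - wt T k N) j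
  omega

theorem RefSys.idx_t {N : List St} {j : ℕ} (h : St.t j :: N ∈ S.Vd) :
    j < T.nJ (k - wt T k N) := ((S.mem_t N j).1 h).2.1

theorem RefSys.mem_prs (N : List St) (j : ℕ) :
    (N, j) ∈ S.prs ↔ N ∈ S.Vd ∧ j < T.nJ (k - wt T k N) := by
  unfold RefSys.prs
  rw [mem_biUnion]
  constructor
  · rintro ⟨M, hM, h⟩
    obtain ⟨i, hi, h1⟩ := mem_image.1 h
    obtain ⟨rfl, rfl⟩ := Prod.mk.inj h1
    exact ⟨hM, mem_range.1 hi⟩
  · rintro ⟨h1, h2⟩
    exact ⟨N, h1, mem_image.2 ⟨j, mem_range.2 h2, rfl⟩⟩

theorem RefSys.mem_Dep (N : List St) (j : ℕ) (e : List St × ℕ) :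
    e ∈ S.Dep N j ↔ (e.1 ∈ S.Vd ∧ e.2 < T.nJ (k - wt T k e.1)) ∧ S.cut e.1 e.2 ∧
      S.a1 e.1 e.2 = (j, N) := by
  classical
  unfold RefSys.Dep
  rw [← S.mem_prs]
  exact mem_filter

end

end Pool.Agent.HBA
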