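import Mathlib
import Pool.Agent.Lib.HBA.Addr

set_option autoImplicit false

/-!
# HBA.BOwn : ownership of the labels of the strong tree, and the effect of the flips

`own root = none`, `own (lab N v)` = the output of the unit of `N`, `own (msk u v)` = the owner in the
copy `u` of the weak system, except that the output `ga u` of the copy `u` is not used (it is replaced
by the output of the unit `u`).
All lemmas: unfold `pflip`, `dflip`, `bown`, `labz`, `mskz`, funext, case distinction.
-/

namespace Pool.Agent.HBA

open Finset Pool.Agent.P47443c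

variable {T : TF} {k : ℕ}

/-- The output of the unit `u`. -/
def outp {I : Type} (ga : List St → I) (u : List St) : Option (List St × I) :=
  if u = [] then none else some (u, ga u)

/-- Ownership. -/
def bown (T : TF) (W : WSys k) (ga : List St → W.I) :
    BV T.V W.V → Option ((List St × W.I) ⊕ Option (List St × W.I))
  | BV.root => none
  | BV.lab N _ => some (Sum.inr (outp ga (unit N)))
  | BV.msk u v => match W.own v with
    | none => none
    | some (Sum.inl e) => some (Sum.inl (u, e))
    | some (Sum.inr p) => if p = ga u then none else some (Sum.inr (some (u, p)))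

open Classical in
/-- The units different from the root. -/
noncomputable def RefSys.Un (S : RefSys T k) : Finset (List St) :=
  S.Vd.filter (fun u => unit u = u ∧ u ≠ [])

open Classical in
/-- The nodes of the unit `u`. -/
noncomputable def RefSys.nodesOf (S : RefSys T k) (u : List St) : Finset (List St) :=
  S.Vd.filter (fun N => unit N = u)

/-- The data in use. -/
noncomputable def RefSys.bUE (S : RefSys T k) (W : WSys k) : Finset (List St × W.I) :=
  S.Un ×ˢ W.U

/-- The outputs in use. -/
noncomputable def RefSys.bUP (S : RefSys T k) (W : WSys k) : Finset (Option (List St × W.I)) :=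
  Finset.insertNone (S.bUE W)

open Classical in
/-- The T-factor of the pair `(N, j)`. -/
noncomputable def Tg {S : RefSys T k} {W : WSys k} {ga : List St → W.I} (F : Forms S W ga)
    (N : List St) (j : ℕ) (z : BV T.V W.V → ZMod 2) : ZMod 2 :=
  if S.cut N j then Qn' T k N j z else F.f (St.t j :: N) z

/-- The function of the strong output of the unit `u`. -/
noncomputable def sPhi {S : RefSys T k} {W : WSys k} {ga : List St → W.I} (F : Forms S W ga)
    (u : List St) (z : BV T.V W.V → ZMod 2) : ZMod 2 :=
  ∑ N ∈ S.nodesOf u, F.f N z * Gn T k N z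

/-- The value of the strong output of the unit `u`. -/
noncomputable def sPi {S : RefSys T k} {W : WSys k} {ga : List St → W.I} (F : Forms S W ga)
    (u : List St) (z : BV T.V W.V → ZMod 2) : ZMod 2 :=
  F.f u z + ∑ N ∈ S.nodesOf u, ∑ j ∈ range (T.nJ (k - wt T k N)), Cg S F.f N j z * Tg F N j z

section

variable (W : WSys k) (ga : List St → W.I)

theorem root_pflip (q : Option (List St × W.I)) (z : BV T.V W.V → ZMod 2) :
    pflip (bown T W ga) q z BV.root = z BV.root := by
  unfold pflip bown
  rw [if_neg (by simp), add_zero]

theorem labz_pflip (q : Option (List St × W.I)) (z : BV T.V W.V → ZMod 2) (N : List St) :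
    labz N (pflip (bown T W ga) q z) =
      fun v => labz N z v + if q = outp ga (unit N) then 1 else 0 := by
  funext v
  unfold labz pflip
  congr 1
  have h1 : bown T W ga (BV.lab N v) = some (Sum.inr (outp ga (unit N))) := rfl
  rw [h1]
  by_cases h : q = outp ga (unit N)
  · rw [if_pos (by rw [h]), if_pos h]
  · rw [if_neg, if_neg h]
    intro h2
    exact h (Sum.inr.inj (Option.some.inj h2)).symm

theorem bown_msk_none (u : List St) {v : W.V} (h : W.own v = none) :
    bown T W ga (BV.msk u v) = none := by
  change (match W.own v with
    | none => none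
    | some (Sum.inl e) => some (Sum.inl (u, e))
    | some (Sum.inr p) => if p = ga u then none else some (Sum.inr (some (u, p)))) = _
  rw [h]

theorem bown_msk_inl (u : List St) {v : W.V} {e : W.I} (h : W.own v = some (Sum.inl e)) :
    bown T W ga (BV.msk u v) = some (Sum.inl (u, e)) := by
  change (match W.own v with
    | none => none
    | some (Sum.inl e) => some (Sum.inl (u, e))
    | some (Sum.inr p) => if p = ga u then none else some (Sum.inr (some (u, p)))) = _
  rw [h]

theorem bown_msk_inr (u : List St) {v : W.V} {p : W.I} (h : W.own v = some (Sum.inr p)) :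
    bown T W ga (BV.msk u v) = if p = ga u then none else some (Sum.inr (some (u, p))) := by
  change (match W.own v with
    | none => none
    | some (Sum.inl e) => some (Sum.inl (u, e))
    | some (Sum.inr p) => if p = ga u then none else some (Sum.inr (some (u, p)))) = _
  rw [h]

/-- the owner of a label of a copy -/
theorem bown_msk_eq (u : List St) (v : W.V) (a : Option (List St × W.I)) :
    bown T W ga (BV.msk u v) = some (Sum.inr a) ↔
      ∃ p, W.own v = some (Sum.inr p) ∧ p ≠ ga u ∧ a = some (u, p) := by
  rcases h : W.own v with _ | (e | p)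
  · rw [bown_msk_none W ga u h]
    constructor
    · intro h2
      cases h2
    · rintro ⟨p, h2, _⟩
      cases h2
  · rw [bown_msk_inl W ga u h]
    constructor
    · intro h2
      cases h2
    · rintro ⟨p, h2, _⟩
      cases h2
  · rw [bown_msk_inr W ga u h]
    by_cases hp : p = ga u
    · rw [if_pos hp]
      constructor
      · intro h2
        cases h2
      · rintro ⟨p', h2, h3, _⟩
        exact absurd ((Sum.inr.inj (Option.some.inj h2)).symm.trans hp) h3
    · rw [if_neg hp]
      constructor
      · intro h2
        exact ⟨p, rfl, hp, (Sum.inr.inj (Option.some.inj h2)).symm⟩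
      · rintro ⟨p', h2, _, h4⟩
        rw [h4, Sum.inr.inj (Option.some.inj h2)]

/-- Strong outputs (`q = none` or `q = some (u', ga u')`) do not touch the copies. -/
theorem mskz_pflip_outp (u' : List St) (z : BV T.V W.V → ZMod 2) (u : List St) :
    mskz u (pflip (bown T W ga) (outp ga u') z) = mskz u z := by
  funext v
  unfold mskz pflip
  rw [if_neg, add_zero]
  intro h
  obtain ⟨p, _, h2, h3⟩ := (bown_msk_eq W ga u v _).1 h
  unfold outp at h3
  split_ifs at h3
  have h4 := Option.some.inj h3
  apply h2
  rw [← (Prod.mk.inj h4).1]
  exact (Prod.mk.inj h4).2.symm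

theorem mskz_pflip_ne (u' u : List St) (p : W.I) (z : BV T.V W.V → ZMod 2) (h : u ≠ u') :
    mskz u (pflip (bown T W ga) (some (u', p)) z) = mskz u z := by
  funext v
  unfold mskz pflip
  rw [if_neg, add_zero]
  intro h1
  obtain ⟨p', _, _, h3⟩ := (bown_msk_eq W ga u v _).1 h1
  exact h (Prod.mk.inj (Option.some.inj h3)).1.symm

theorem mskz_pflip_eq (u : List St) (p : W.I) (z : BV T.V W.V → ZMod 2) (h : p ≠ ga u) :
    mskz u (pflip (bown T W ga) (some (u, p)) z) = pflip W.own p (mskz u z) := by
  funext v
  unfold mskz pflip
  congr 1
  by_cases h1 : W.own v = some (Sum.inr p)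
  · rw [if_pos h1, if_pos]
    exact (bown_msk_eq W ga u v _).2 ⟨p, h1, h, rfl⟩
  · rw [if_neg h1, if_neg]
    intro h2
    obtain ⟨p', h3, _, h4⟩ := (bown_msk_eq W ga u v _).1 h2
    apply h1
    rw [h3, (Prod.mk.inj (Option.some.inj h4)).2]

theorem root_dflip (d : List St × W.I → ZMod 2) (z : BV T.V W.V → ZMod 2) :
    dflip (bown T W ga) d z BV.root = z BV.root := by
  unfold dflip bown
  exact add_zero _

theorem labz_dflip (d : List St × W.I → ZMod 2) (z : BV T.V W.V → ZMod 2) (N : List St) :
    labz N (dflip (bown T W ga) d z) = labz N z := by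
  funext v
  unfold labz dflip bown
  exact add_zero _

theorem mskz_dflip (d : List St × W.I → ZMod 2) (z : BV T.V W.V → ZMod 2) (u : List St) :
    mskz u (dflip (bown T W ga) d z) = dflip W.own (fun a => d (u, a)) (mskz u z) := by
  funext v
  unfold mskz dflip
  congr 1
  rcases h : W.own v with _ | (e | p)
  · rw [bown_msk_none W ga u h]
  · rw [bown_msk_inl W ga u h]
  · rw [bown_msk_inr W ga u h]
    by_cases hp : p = ga u
    · rw [if_pos hp]
    · rw [if_neg hp]

end

end Pool.Agent.HBA
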