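import Mathlib
import Pool.Agent.Lib.HBA.BInv

set_option autoImplicit false

/-!
# Module HBA.BPi : the strong outputs

* `pair_eq` : `f N * Qn * Qn' + f (p j :: N) = Cg * Tg` (char 2; `f_p`; uncut: `f_t` gives
  `f (t j :: N) = Qn' + Rho`).
* `sum_nodesOf` : every node of the unit `u` is `u` or `s i :: N`, `p j :: N` with `N` a node of the
  unit `u` (`u = []` or head `c`/`t`; `unit (s i :: N) = unit N`, `mem_s`, `mem_p`).
* `sPhi_flip` : if `q = outp ga u` then `Gn (flipped) = Gn + (1 + ∑ Rn + ∑ Qn Qn')` for all nodes of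
  the unit `u` (`labz_pflip`, `T.key`), `f` unchanged, so `sPhi` changes by
  `∑_N f N * (1 + ∑ Rn + ∑ Qn Qn')  = sPi` by `f_s`, `pair_eq`, `sum_nodesOf`. If
  `q ≠ outp ga u` nothing changes (`outp` is injective on units: `outp ga u = outp ga u' → u = u'`).
-/

namespace Pool.Agent.HBA

open Finset Pool.Agent.P47443c

section

variable {T : TF} {k : ℕ} {S : RefSys T k} {W : WSys k} {ga : List St → W.I}

theorem outp_inj (u u' : List St) (h : outp ga u = outp ga u') : u = u' := by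
  unfold outp at h
  split_ifs at h with h1 h2 h2
  · rw [h1, h2]
  · exact (Prod.mk.inj (Option.some.inj h)).1

theorem pair_eq (hk : 2 ≤ k) (F : Forms S W ga) (N : List St) (j : ℕ) (hN : N ∈ S.Vd)
    (hj : j < T.nJ (k - wt T k N)) (z : BV T.V W.V → ZMod 2) :
    F.f N z * (Qn T k N j z * Qn' T k N j z) + F.f (St.p j :: N) z = Cg S F.f N j z * Tg F N j z := by
  classical
  rw [F.f_p N j ((S.mem_p N j).2 ⟨hN, hj⟩) z]
  have h2 := z2_add_self (F.f N z * Qn T k N j z * Qn' T k N j z)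
  by_cases hc : S.cut N j
  · have h3 : Tg F N j z = Qn' T k N j z := by
      unfold Tg
      rw [if_pos hc]
    have h4 : Rho S W ga N j z = 0 := by
      unfold Rho
      rw [if_pos hc]
    rw [h3, h4]
    linear_combination h2
  · have h3 : Tg F N j z = Qn' T k N j z + Mk W ga (St.t j :: N) z := by
      unfold Tg
      rw [if_neg hc]
      exact F.f_t N j ((S.mem_t N j).2 ⟨hN, hj, hc⟩) z
    have h4 : Rho S W ga N j z = Mk W ga (St.t j :: N) z := by
      unfold Rho
      rw [if_neg hc]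
    rw [h3, h4]
    linear_combination h2

theorem mem_nodesOf {u N : List St} : N ∈ S.nodesOf u ↔ N ∈ S.Vd ∧ unit N = u := by
  unfold RefSys.nodesOf
  rw [Finset.mem_filter]

theorem unit_ne_s (i : ℕ) (M N : List St) : unit M ≠ St.s i :: N := by
  rcases unit_cases M with h | ⟨j, B, h⟩ | ⟨j, B, h⟩ <;> rw [h] <;> simp

theorem unit_ne_p (i : ℕ) (M N : List St) : unit M ≠ St.p i :: N := by
  rcases unit_cases M with h | ⟨j, B, h⟩ | ⟨j, B, h⟩ <;> rw [h] <;> simp

theorem sum_nodesOf (u : List St) (hu : u ∈ S.Vd) (huu : unit u = u) (H : List St → ZMod 2) :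
    ∑ N ∈ S.nodesOf u, H N = H u + ∑ N ∈ S.nodesOf u,
      (∑ i ∈ range (T.nI (k - wt T k N)), H (St.s i :: N) +
        ∑ j ∈ range (T.nJ (k - wt T k N)), H (St.p j :: N)) := by
  classical
  set A : Finset (List St) := (S.nodesOf u).biUnion
    (fun N => (range (T.nI (k - wt T k N))).image (fun i => St.s i :: N)) with hA
  set B : Finset (List St) := (S.nodesOf u).biUnion
    (fun N => (range (T.nJ (k - wt T k N))).image (fun j => St.p j :: N)) with hB
  have mA : ∀ M, M ∈ A ↔ ∃ N i, M = St.s i :: N ∧ N ∈ S.Vd ∧ unit N = u ∧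
      i < T.nI (k - wt T k N) := by
    intro M
    rw [hA, mem_biUnion]
    constructor
    · rintro ⟨N, hN, h⟩
      obtain ⟨i, hi, rfl⟩ := mem_image.1 h
      obtain ⟨h1, h2⟩ := mem_nodesOf.1 hN
      exact ⟨N, i, rfl, h1, h2, mem_range.1 hi⟩
    · rintro ⟨N, i, rfl, h1, h2, h3⟩
      exact ⟨N, mem_nodesOf.2 ⟨h1, h2⟩, mem_image.2 ⟨i, mem_range.2 h3, rfl⟩⟩
  have mB : ∀ M, M ∈ B ↔ ∃ N j, M = St.p j :: N ∧ N ∈ S.Vd ∧ unit N = u ∧
      j < T.nJ (k - wt T k N) := by
    intro M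
    rw [hB, mem_biUnion]
    constructor
    · rintro ⟨N, hN, h⟩
      obtain ⟨i, hi, rfl⟩ := mem_image.1 h
      obtain ⟨h1, h2⟩ := mem_nodesOf.1 hN
      exact ⟨N, i, rfl, h1, h2, mem_range.1 hi⟩
    · rintro ⟨N, i, rfl, h1, h2, h3⟩
      exact ⟨N, mem_nodesOf.2 ⟨h1, h2⟩, mem_image.2 ⟨i, mem_range.2 h3, rfl⟩⟩
  have hun : S.nodesOf u = insert u (A ∪ B) := by
    ext M
    rw [mem_nodesOf, mem_insert, mem_union, mA, mB]
    constructor
    · rintro ⟨h1, h2⟩
      rcases M with _ | ⟨x, N⟩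
      · exact Or.inl h2
      · cases x with
        | s i =>
          obtain ⟨h3, h4⟩ := (S.mem_s N i).1 h1
          exact Or.inr (Or.inl ⟨N, i, rfl, h3, h2, h4⟩)
        | p j =>
          obtain ⟨h3, h4⟩ := (S.mem_p N j).1 h1
          exact Or.inr (Or.inr ⟨N, j, rfl, h3, h2, h4⟩)
        | c j => exact Or.inl h2
        | t j => exact Or.inl h2
    · rintro (h | ⟨N, i, rfl, h1, h2, h3⟩ | ⟨N, j, rfl, h1, h2, h3⟩)
      · rw [h]
        exact ⟨hu, huu⟩
      · exact ⟨(S.mem_s N i).2 ⟨h1, h3⟩, h2⟩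
      · exact ⟨(S.mem_p N j).2 ⟨h1, h3⟩, h2⟩
  have huAB : u ∉ A ∪ B := by
    rw [mem_union, mA, mB]
    rintro (⟨N, i, h, -⟩ | ⟨N, j, h, -⟩)
    · exact unit_ne_s i u N (huu.trans h)
    · exact unit_ne_p j u N (huu.trans h)
  have hAB : Disjoint A B := by
    rw [disjoint_left]
    intro M h1 h2
    obtain ⟨N, i, rfl, -⟩ := (mA M).1 h1
    obtain ⟨N', j, h, -⟩ := (mB _).1 h2
    simp at h
  have sA : ∑ M ∈ A, H M = ∑ N ∈ S.nodesOf u, ∑ i ∈ range (T.nI (k - wt T k N)),
      H (St.s i :: N) := by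
    rw [hA, sum_biUnion]
    · refine sum_congr rfl (fun N _ => sum_image ?_)
      intro i _ i' _ h
      simpa using h
    · intro N _ N' _ hne
      rw [Function.onFun, disjoint_left]
      intro M h1 h2
      obtain ⟨i, -, rfl⟩ := mem_image.1 h1
      obtain ⟨i', -, h⟩ := mem_image.1 h2
      simp only [List.cons.injEq] at h
      exact hne h.2.symm
  have sB : ∑ M ∈ B, H M = ∑ N ∈ S.nodesOf u, ∑ j ∈ range (T.nJ (k - wt T k N)),
      H (St.p j :: N) := by
    rw [hB, sum_biUnion]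
    · refine sum_congr rfl (fun N _ => sum_image ?_)
      intro i _ i' _ h
      simpa using h
    · intro N _ N' _ hne
      rw [Function.onFun, disjoint_left]
      intro M h1 h2
      obtain ⟨i, -, rfl⟩ := mem_image.1 h1
      obtain ⟨i', -, h⟩ := mem_image.1 h2
      simp only [List.cons.injEq] at h
      exact hne h.2.symm
  rw [sum_add_distrib, ← sA, ← sB, ← sum_union hAB, ← sum_insert huAB, ← hun]

/-- The effect of the flip of the own output. -/
theorem sPhi_aux (hk : 2 ≤ k) (F : Forms S W ga) (u : List St)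
    (hu : u ∈ S.Vd) (huu : unit u = u) (z : BV T.V W.V → ZMod 2) :
    ∑ N ∈ S.nodesOf u, F.f N z * (1 + ∑ i ∈ range (T.nI (k - wt T k N)), Rn T k N i z +
      ∑ j ∈ range (T.nJ (k - wt T k N)), Qn T k N j z * Qn' T k N j z) = sPi F u z := by
  have h1 : ∀ N ∈ S.nodesOf u,
      F.f N z * (1 + ∑ i ∈ range (T.nI (k - wt T k N)), Rn T k N i z +
        ∑ j ∈ range (T.nJ (k - wt T k N)), Qn T k N j z * Qn' T k N j z) =
      F.f N z + (∑ i ∈ range (T.nI (k - wt T k N)), F.f (St.s i :: N) z +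
        ∑ j ∈ range (T.nJ (k - wt T k N)), F.f (St.p j :: N) z) +
        ∑ j ∈ range (T.nJ (k - wt T k N)), Cg S F.f N j z * Tg F N j z := by
    intro N hN
    obtain ⟨hN1, hN2⟩ := mem_nodesOf.1 hN
    have e1 : ∑ i ∈ range (T.nI (k - wt T k N)), F.f (St.s i :: N) z =
        F.f N z * ∑ i ∈ range (T.nI (k - wt T k N)), Rn T k N i z := by
      rw [mul_sum]
      exact sum_congr rfl (fun i hi => F.f_s N i ((S.mem_s N i).2 ⟨hN1, mem_range.1 hi⟩) z)
    have e2 : ∑ j ∈ range (T.nJ (k - wt T k N)), Cg S F.f N j z * Tg F N j z =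
        F.f N z * (∑ j ∈ range (T.nJ (k - wt T k N)), Qn T k N j z * Qn' T k N j z) +
          ∑ j ∈ range (T.nJ (k - wt T k N)), F.f (St.p j :: N) z := by
      rw [mul_sum, ← sum_add_distrib]
      exact sum_congr rfl (fun j hj => (pair_eq hk F N j hN1 (mem_range.1 hj) z).symm)
    have e3 := z2_add_self (∑ j ∈ range (T.nJ (k - wt T k N)), F.f (St.p j :: N) z)
    rw [e1, e2]
    linear_combination -e3
  rw [sum_congr rfl h1, sum_add_distrib, sum_add_distrib,
    sum_nodesOf u hu huu (fun N => F.f N z)]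
  have e4 := z2_add_self (∑ N ∈ S.nodesOf u,
    (∑ i ∈ range (T.nI (k - wt T k N)), F.f (St.s i :: N) z +
      ∑ j ∈ range (T.nJ (k - wt T k N)), F.f (St.p j :: N) z))
  unfold sPi
  linear_combination e4

theorem sPhi_flip (hk : 2 ≤ k) (hga : GaOK S W ga) (F : Forms S W ga) (u : List St)
    (hu : u ∈ S.Vd) (huu : unit u = u) (q : Option (List St × W.I)) (hq : q ∈ S.bUP W)
    (z : BV T.V W.V → ZMod 2) :
    sPhi F u (pflip (bown T W ga) q z) = sPhi F u z + if q = outp ga u then sPi F u z else 0 := by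
  have h1 : ∀ N ∈ S.nodesOf u, F.f N (pflip (bown T W ga) q z) = F.f N z := fun N hN =>
    f_pflip hk hga F q hq N (mem_nodesOf.1 hN).1 z
  unfold sPhi
  rw [sum_congr rfl (fun N hN => by rw [h1 N hN])]
  by_cases hc : q = outp ga u
  · rw [if_pos hc, ← sPhi_aux hk F u hu huu z, ← sum_add_distrib]
    refine sum_congr rfl (fun N hN => ?_)
    obtain ⟨hN1, hN2⟩ := mem_nodesOf.1 hN
    have h3 : 1 ≤ k - wt T k N := HomFAux.one_le hk hN1
    have h2 : Gn T k N (pflip (bown T W ga) q z) = Gn T k N z +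
        (1 + ∑ i ∈ range (T.nI (k - wt T k N)), Rn T k N i z +
      ∑ j ∈ range (T.nJ (k - wt T k N)), Qn T k N j z * Qn' T k N j z) := by
      unfold Gn
      rw [labz_pflip, hN2]
      simp only [if_pos hc]
      rw [T.key _ h3]
      rfl
    rw [h2, mul_add]
  · rw [if_neg hc, add_zero]
    refine sum_congr rfl (fun N hN => ?_)
    obtain ⟨hN1, hN2⟩ := mem_nodesOf.1 hN
    have h2 : Gn T k N (pflip (bown T W ga) q z) = Gn T k N z := by
      unfold Gn
      rw [labz_pflip, hN2]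
      simp only [if_neg hc, add_zero]
    rw [h2]

theorem sPi_flip (hk : 2 ≤ k) (hga : GaOK S W ga) (F : Forms S W ga) (u : List St)
    (hu : u ∈ S.Vd) (huu : unit u = u) (q : Option (List St × W.I)) (hq : q ∈ S.bUP W)
    (z : BV T.V W.V → ZMod 2) : sPi F u (pflip (bown T W ga) q z) = sPi F u z := by
  classical
  have hf : ∀ N ∈ S.Vd, F.f N (pflip (bown T W ga) q z) = F.f N z := fun N hN =>
    f_pflip hk hga F q hq N hN z
  unfold sPi
  rw [hf u hu]
  congr 1
  refine sum_congr rfl (fun N hN => sum_congr rfl (fun j hj => ?_))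
  obtain ⟨hN1, hN2⟩ := mem_nodesOf.1 hN
  have hj' := mem_range.1 hj
  by_cases hc : S.cut N j
  · obtain ⟨r1, r2, -⟩ := S.R1 N j hN1 hj' hc
    have m0 := (HomFAux.tn_mem hN1 r1).2.2
    have m1 : cn (S.a1 N j) ∈ S.Vd := (HomFAux.tn_mem (HomFAux.tn_mem hN1 r1).1 r2).2.2
    have h1 : Cg S F.f N j (pflip (bown T W ga) q z) = Cg S F.f N j z := by
      unfold Cg
      rw [if_pos hc, if_pos hc, hf _ m0, hf _ m1]
    have h2 : Tg F N j (pflip (bown T W ga) q z) = Tg F N j z := by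
      unfold Tg
      rw [if_pos hc, if_pos hc, Qn'_pflip hk q N j hN1 hj' z]
    rw [h1, h2]
  · have h1 : Cg S F.f N j (pflip (bown T W ga) q z) = Cg S F.f N j z := by
      unfold Cg
      rw [if_neg hc, if_neg hc, hf _ ((S.mem_c N j).2 ⟨hN1, hj', hc⟩)]
    have h2 : Tg F N j (pflip (bown T W ga) q z) = Tg F N j z := by
      unfold Tg
      rw [if_neg hc, if_neg hc, hf _ ((S.mem_t N j).2 ⟨hN1, hj', hc⟩)]
    rw [h1, h2]

end

end Pool.Agent.HBA
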