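import Mathlib
import Pool.Agent.Lib.HBA.BOwn

set_option autoImplicit false

/-!
# Module HBA.Dec1 : strong decoding

Claim for every unit `u ∈ Vd` (`unit u = u`): if all guards `f (c b :: B)` of the T-node suffixes
`t b :: B` of `u` are `1` at `z` and at `z'`, then `f u` agrees. Induction from the leaves (the finite
set `Vd` has a maximal length `L`; strong induction on `L - u.length`): `sPi u` agrees; for a pair
`(N, j)` at a node `N` of the unit `u` (`unit N = u`, T-node suffixes of `N` = those of `u` by
`suffix_unit`):
* cut: `Cg = f (cn a0) + f (cn a1) = 1 + 1 = 0` (`R1` : `tn a0`, `tn a1` are suffixes of `N`) ;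
* uncut: `c j :: N`, `t j :: N ∈ Vd` (`mem_c`, `mem_t`), `f (c j :: N)` agrees (its T-node suffixes
  are those of `N`); if the value is `0` the product is `0`; if it is `1` the claim for `t j :: N` applies
  (T-node suffixes: itself, with guard `f (c j :: N) = 1`, and those of `N`).
So the sum agrees and `f u` agrees. For `u = []` : `f [] = z root`.
-/

namespace Pool.Agent.HBA

open Finset Pool.Agent.P47443c

section

variable {T : TF} {k : ℕ} {S : RefSys T k} {W : WSys k} {ga : List St → W.I}

theorem strong_dec (F : Forms S W ga) (z z' : BV T.V W.V → ZMod 2)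
    (h : ∀ u ∈ S.Vd, unit u = u → sPi F u z = sPi F u z') (u : List St) (hu : u ∈ S.Vd)
    (huu : unit u = u)
    (hg : ∀ b B, St.t b :: B <:+ u → F.f (St.c b :: B) z = 1 ∧ F.f (St.c b :: B) z' = 1) :
    F.f u z = F.f u z' := by
  have hL : ∀ v ∈ S.Vd, v.length ≤ S.Vd.sup List.length := fun v hv =>
    Finset.le_sup (f := List.length) hv
  generalize S.Vd.sup List.length = L at hL
  induction hn : L - u.length using Nat.strong_induction_on generalizing u with
  | _ n ih =>
    have hpair : ∀ N ∈ S.nodesOf u, ∀ j ∈ range (T.nJ (k - wt T k N)),
        Cg S F.f N j z * Tg F N j z = Cg S F.f N j z' * Tg F N j z' := by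
      intro N hN j hj
      unfold RefSys.nodesOf at hN
      rw [Finset.mem_filter] at hN
      obtain ⟨hNV, hNu⟩ := hN
      rw [Finset.mem_range] at hj
      have hgN : ∀ b B, St.t b :: B <:+ N →
          F.f (St.c b :: B) z = 1 ∧ F.f (St.c b :: B) z' = 1 := by
        intro b B hB
        refine hg b B ?_
        rw [← hNu]
        exact suffix_unit.1 hB
      have huN : u.length ≤ N.length := by
        rw [← hNu]
        exact (unit_suffix N).length_le
      by_cases hc : S.cut N j
      · obtain ⟨h1, h2, -, -⟩ := S.R1 N j hNV hj hc
        have h3 : tn (S.a1 N j) <:+ N :=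
          (h2.trans (List.suffix_cons (St.t (S.a0 N j).1) (S.a0 N j).2)).trans h1
        obtain ⟨h4, h4'⟩ := hgN _ _ h1
        obtain ⟨h5, h5'⟩ := hgN _ _ h3
        have h6 : ∀ y, F.f (cn (S.a0 N j)) y = 1 → F.f (cn (S.a1 N j)) y = 1 →
            Cg S F.f N j y = 0 := by
          intro y e1 e2
          unfold Cg
          rw [if_pos hc, e1, e2]
          decide
        rw [h6 z h4 h5, h6 z' h4' h5', zero_mul, zero_mul]
      · have hcV : St.c j :: N ∈ S.Vd := (S.mem_c N j).2 ⟨hNV, hj, hc⟩
        have htV : St.t j :: N ∈ S.Vd := (S.mem_t N j).2 ⟨hNV, hj, hc⟩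
        have hlen1 := hL _ hcV
        have hlen2 := hL _ htV
        rw [List.length_cons] at hlen1 hlen2
        have h1 : F.f (St.c j :: N) z = F.f (St.c j :: N) z' := by
          refine ih (L - (St.c j :: N).length) ?_ (St.c j :: N) hcV rfl ?_ rfl
          · rw [List.length_cons]
            omega
          · intro b B hB
            rcases List.suffix_cons_iff.1 hB with h | h
            · exact absurd (List.cons.inj h).1 (by simp)
            · exact hgN b B h
        have e1 : ∀ y, Cg S F.f N j y = F.f (St.c j :: N) y := by
          intro y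
          unfold Cg
          rw [if_neg hc]
        have e2 : ∀ y, Tg F N j y = F.f (St.t j :: N) y := by
          intro y
          unfold Tg
          rw [if_neg hc]
        rw [e1, e1, e2, e2, ← h1]
        by_cases h0 : F.f (St.c j :: N) z = 0
        · rw [h0, zero_mul, zero_mul]
        · have h2 := z2_eq_one h0
          have h3 : F.f (St.t j :: N) z = F.f (St.t j :: N) z' := by
            refine ih (L - (St.t j :: N).length) ?_ (St.t j :: N) htV rfl ?_ rfl
            · rw [List.length_cons]
              omega
            · intro b B hB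
              rcases List.suffix_cons_iff.1 hB with h | h
              · obtain ⟨h4, h5⟩ := List.cons.inj h
                have h6 := St.t.inj h4
                subst h6
                subst h5
                exact ⟨h2, h1 ▸ h2⟩
              · exact hgN b B h
          rw [h3]
    have hs := h u hu huu
    unfold sPi at hs
    rw [Finset.sum_congr rfl (fun N hN => Finset.sum_congr rfl (fun j hj => hpair N hN j hj))] at hs
    exact add_right_cancel hs

theorem root_dec (F : Forms S W ga) (z z' : BV T.V W.V → ZMod 2)
    (h : ∀ u ∈ S.Vd, unit u = u → sPi F u z = sPi F u z') : z BV.root = z' BV.root := by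
  have h1 := strong_dec F z z' h [] S.nil rfl (by
    intro b B hB
    exact absurd (List.eq_nil_of_suffix_nil hB) (by simp))
  rw [F.f_nil, F.f_nil] at h1
  exact h1

end

end Pool.Agent.HBA
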