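import Mathlib

set_option autoImplicit false

/-!
# Module HBA.Fix : recursion on a measure, as an existence statement
`WellFounded.fix` for `InvImage (· < ·) mu`, with `tr`.
-/

namespace Pool.Agent.HBA

/-- If `Phi F x` depends only on the values of `F` at points of smaller measure, then `Phi` has a
fixed point. -/
theorem exists_fix {X A : Type} (mu : X → ℕ) (Phi : (X → A) → X → A)
    (h : ∀ F F' x, (∀ y, mu y < mu x → F y = F' y) → Phi F x = Phi F' x) [Nonempty A] :
    ∃ F : X → A, ∀ x, F x = Phi F x := by
  classical
  let a : A := Classical.arbitrary A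
  let wf : WellFounded (fun x y : X => mu x < mu y) := (measure mu).wf
  let F : X → A := wf.fix (fun x rec => Phi (fun y => if hy : mu y < mu x then rec y hy else a) x)
  refine ⟨F, fun x => ?_⟩
  have h1 : F x = Phi (fun y => if hy : mu y < mu x then F y else a) x := wf.fix_eq _ x
  rw [h1]
  refine h _ _ _ (fun y hy => ?_)
  simp [hy]

end Pool.Agent.HBA
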