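import Mathlib
import Pool.Agent.Lib.HBA.Addr
import Pool.Agent.Lib.HBA.Fix

set_option autoImplicit false

/-!
# Module HBA.FormEx : the forms of the strong tree exist

`exists_fix` with `X = List St`, measure `wt T k`. In `Phi` replace every value `F y` on the right of
the equation for `x` by `if wt T k y < wt T k x then F y else 0`; for valid addresses the conditions
are true: `wt_s`, `wt_p`, `wt_c` (Addr.lean; `wt T k (St.c j :: N) = gw T k N j` by definition); the
references of a cut pair `(N, j)` have `wt T k (cn (a0 N j)) = gw (a0 N j).2 (a0 N j).1 = gw N j <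
wt (p j :: N)` (`R1`); for `e ∈ Dep N j` : `wt e.1 < gw e.1 e.2 = gw N j` (`R1` for `e`, `T.q_pos`).
Cases of the head of the list in `Phi`; the values at invalid addresses are irrelevant.
-/

namespace Pool.Agent.HBA

open Finset Pool.Agent.P47443c

namespace FormExAux

variable {T : TF} {k : ℕ}

/-- The recursion. -/
noncomputable def Psi (S : RefSys T k) (W : WSys k) (ga : List St → W.I)
    (F : List St → (BV T.V W.V → ZMod 2) → ZMod 2) :
    List St → (BV T.V W.V → ZMod 2) → ZMod 2
  | [] => fun z => z BV.root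
  | St.t j :: N => fun z => Qn' T k N j z + Mk W ga (St.t j :: N) z
  | St.c j :: N => fun z => F N z * Qn T k N j z + Mk W ga (St.c j :: N) z +
      ∑ e ∈ S.Dep N j, F e.1 z * Qn T k e.1 e.2 z
  | St.s i :: N => fun z => F N z * Rn T k N i z
  | St.p j :: N => fun z => (Cg S F N j z + F N z * Qn T k N j z) * Qn' T k N j z +
      Cg S F N j z * Rho S W ga N j z

/-- The guarded values. -/
noncomputable def gd {B : Type} (F : List St → (BV T.V B → ZMod 2) → ZMod 2) (k : ℕ)
    (x : List St) : List St → (BV T.V B → ZMod 2) → ZMod 2 :=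
  fun y => if wt T k y < wt T k x then F y else fun _ => 0

theorem gd_of_lt {B : Type} {F : List St → (BV T.V B → ZMod 2) → ZMod 2} {x y : List St}
    (h : wt T k y < wt T k x) : gd F k x y = F y := if_pos h

theorem exists_F (S : RefSys T k) (W : WSys k) (ga : List St → W.I) :
    ∃ F : List St → (BV T.V W.V → ZMod 2) → ZMod 2, ∀ x, F x = Psi S W ga (gd F k x) x := by
  refine exists_fix (wt T k) (fun F x => Psi S W ga (gd F k x) x) ?_
  intro F F' x h
  have : gd F k x = gd F' k x := by
    funext y
    unfold gd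
    split_ifs with hy
    · exact h y hy
    · rfl
  simp only [this]

theorem wt_cn (a : ℕ × List St) : wt T k (cn a) = gw T k a.2 a.1 := rfl

end FormExAux

open FormExAux in
theorem exists_forms {T : TF} {k : ℕ} (hk : 2 ≤ k) (S : RefSys T k) (W : WSys k)
    (ga : List St → W.I) : Nonempty (Forms S W ga) := by
  obtain ⟨F, hF⟩ := exists_F S W ga
  refine ⟨{ f := F, f_nil := ?_, f_t := ?_, f_c := ?_, f_s := ?_, f_p := ?_ }⟩
  · intro z
    exact congrFun (hF []) z
  · intro N j _ z
    exact congrFun (hF (St.t j :: N)) z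
  · intro N j h z
    have h0 := congrFun (hF (St.c j :: N)) z
    rw [h0]
    simp only [Psi]
    have h1 := S.wt_c hk h
    congr 1
    · rw [gd_of_lt h1.2]
    · refine sum_congr rfl (fun e he => ?_)
      obtain ⟨⟨h2, h3⟩, h4, h5⟩ := (S.mem_Dep N j e).1 he
      obtain ⟨_, _, _, h6⟩ := S.R1 e.1 e.2 h2 h3 h4
      rw [h5] at h6
      have h7 := S.wt_lt hk h2
      have h8 := T.q_pos (k - wt T k e.1) e.2 (by omega) h3
      have h9 : gw T k e.1 e.2 = wt T k e.1 + T.q (k - wt T k e.1) e.2 := rfl
      have h10 : gw T k N j = wt T k (St.c j :: N) := rfl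
      rw [gd_of_lt (by rw [← h10]; change gw T k N j = _ at h6; omega)]
  · intro N i h z
    have h0 := congrFun (hF (St.s i :: N)) z
    rw [h0]
    simp only [Psi]
    rw [gd_of_lt (S.wt_s hk h).2]
  · intro N j h z
    have h0 := congrFun (hF (St.p j :: N)) z
    rw [h0]
    simp only [Psi]
    obtain ⟨h1, h2, h3⟩ := S.wt_p hk h
    have hN := ((S.mem_p N j).1 h).1
    have hC : Cg S (gd F k (St.p j :: N)) N j z = Cg S F N j z := by
      unfold Cg
      by_cases hc : S.cut N j
      · obtain ⟨_, _, h4, h5⟩ := S.R1 N j hN h1 hc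
        rw [if_pos hc, if_pos hc, gd_of_lt (by rw [wt_cn, h4]; exact h3),
          gd_of_lt (by rw [wt_cn, h5]; exact h3)]
      · rw [if_neg hc, if_neg hc, gd_of_lt (show wt T k (St.c j :: N) < _ from h3)]
    rw [hC, gd_of_lt (h2.trans h3)]

end Pool.Agent.HBA
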