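import Mathlib
import Pool.Agent.Lib.HBA.BPi
import Pool.Agent.Lib.HBA.FormEx
import Pool.Agent.Lib.HBA.Dec1
import Pool.Agent.Lib.HBA.Dec2

set_option autoImplicit false

/-!
# HBA.BPre : the flip system of the strong tree
-/

namespace Pool.Agent.HBA

open Finset Pool.Agent.P47443c

section

variable {T : TF} {k : ℕ} {S : RefSys T k} {W : WSys k} {ga : List St → W.I}

open Classical in
/-- The functions of the outputs. -/
noncomputable def bPhi (F : Forms S W ga) :
    Option (List St × W.I) → (BV T.V W.V → ZMod 2) → ZMod 2
  | none => sPhi F []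
  | some (u, a) => if a = ga u then sPhi F u else fun z => W.Phi a (mskz u z)

open Classical in
/-- The values of the outputs. -/
noncomputable def bPi (F : Forms S W ga) :
    Option (List St × W.I) → (BV T.V W.V → ZMod 2) → ZMod 2
  | none => sPi F []
  | some (u, a) => if a = ga u then sPi F u else fun z => W.Pi a (mskz u z)

theorem mem_Un (u : List St) : u ∈ S.Un ↔ u ∈ S.Vd ∧ unit u = u ∧ u ≠ [] := by
  classical
  unfold RefSys.Un
  rw [Finset.mem_filter]

theorem none_mem_bUP : (none : Option (List St × W.I)) ∈ S.bUP W := by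
  unfold RefSys.bUP
  exact Finset.none_mem_insertNone

theorem some_mem_bUP (u : List St) (a : W.I) :
    (some (u, a) : Option (List St × W.I)) ∈ S.bUP W ↔ u ∈ S.Un ∧ a ∈ W.U := by
  unfold RefSys.bUP RefSys.bUE
  rw [Finset.some_mem_insertNone, Finset.mem_product]

theorem outp_mem (hga : GaOK S W ga) (u : List St) (hu : u ∈ S.Vd) (huu : unit u = u) :
    outp ga u ∈ S.bUP W := by
  unfold outp
  split_ifs with h
  · exact none_mem_bUP
  · exact (some_mem_bUP u (ga u)).2 ⟨(mem_Un u).2 ⟨hu, huu, h⟩, (hga u hu huu h).1⟩

theorem bPi_outp (F : Forms S W ga) (u : List St) : bPi F (outp ga u) = sPi F u := by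
  unfold outp
  split_ifs with h
  · subst h; rfl
  · simp [bPi]

theorem bPhi_flip (hk : 2 ≤ k) (hga : GaOK S W ga) (F : Forms S W ga)
    (p : Option (List St × W.I)) (hp : p ∈ S.bUP W) (q : Option (List St × W.I))
    (hq : q ∈ S.bUP W) (z : BV T.V W.V → ZMod 2) :
    bPhi F p (pflip (bown T W ga) q z) = bPhi F p z + if p = q then bPi F p z else 0 := by
  classical
  have hn : (none : Option (List St × W.I)) = outp ga [] := by simp [outp]
  rcases p with _ | ⟨u, a⟩
  · have h1 := sPhi_flip hk hga F [] S.nil rfl q hq z
    rw [← hn] at h1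
    simp only [bPhi, bPi, h1, eq_comm (a := q)]
  · obtain ⟨hu, ha⟩ := (some_mem_bUP u a).1 hp
    obtain ⟨hu1, hu2, hu3⟩ := (mem_Un u).1 hu
    by_cases hag : a = ga u
    · have h1 := sPhi_flip hk hga F u hu1 hu2 q hq z
      have h2 : outp ga u = some (u, a) := by simp [outp, hu3, hag]
      rw [h2] at h1
      simp only [bPhi, bPi, if_pos hag, h1, eq_comm (a := q)]
    · simp only [bPhi, bPi, if_neg hag]
      rcases q with _ | ⟨u', a'⟩
      · rw [hn, mskz_pflip_outp, if_neg (by simp [outp]), add_zero]
      · obtain ⟨hu', ha'⟩ := (some_mem_bUP u' a').1 hq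
        obtain ⟨hu1', hu2', hu3'⟩ := (mem_Un u').1 hu'
        by_cases hag' : a' = ga u'
        · have h2 : (some (u', a') : Option (List St × W.I)) = outp ga u' := by
            simp [outp, hu3', hag']
          have h3 : ¬ (some (u, a) : Option (List St × W.I)) = some (u', a') := by
            intro h
            simp only [Option.some.injEq, Prod.mk.injEq] at h
            obtain ⟨rfl, rfl⟩ := h
            exact hag hag'
          rw [if_neg h3, h2, mskz_pflip_outp, add_zero]
        · by_cases huu : u = u'
          · subst huu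
            rw [mskz_pflip_eq W ga u a' z hag', W.flipPhi a ha a' ha']
            by_cases haa : a = a'
            · subst haa; rw [if_pos rfl, if_pos rfl]
            · rw [if_neg haa, if_neg (by simpa using haa)]
          · rw [mskz_pflip_ne W ga u' u a' z huu, if_neg (by simp [huu]), add_zero]

theorem bPi_flip (hk : 2 ≤ k) (hga : GaOK S W ga) (F : Forms S W ga)
    (p : Option (List St × W.I)) (hp : p ∈ S.bUP W) (q : Option (List St × W.I))
    (hq : q ∈ S.bUP W) (z : BV T.V W.V → ZMod 2) :
    bPi F p (pflip (bown T W ga) q z) = bPi F p z := by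
  classical
  have hn : (none : Option (List St × W.I)) = outp ga [] := by simp [outp]
  rcases p with _ | ⟨u, a⟩
  · exact sPi_flip hk hga F [] S.nil rfl q hq z
  · obtain ⟨hu, ha⟩ := (some_mem_bUP u a).1 hp
    obtain ⟨hu1, hu2, hu3⟩ := (mem_Un u).1 hu
    by_cases hag : a = ga u
    · simp only [bPi, if_pos hag]
      exact sPi_flip hk hga F u hu1 hu2 q hq z
    · simp only [bPi, if_neg hag]
      rcases q with _ | ⟨u', a'⟩
      · rw [hn, mskz_pflip_outp]
      · obtain ⟨hu', ha'⟩ := (some_mem_bUP u' a').1 hq
        obtain ⟨hu1', hu2', hu3'⟩ := (mem_Un u').1 hu'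
        by_cases hag' : a' = ga u'
        · have h2 : (some (u', a') : Option (List St × W.I)) = outp ga u' := by
            simp [outp, hu3', hag']
          rw [h2, mskz_pflip_outp]
        · by_cases huu : u = u'
          · subst huu
            rw [mskz_pflip_eq W ga u a' z hag', W.flipPi a ha a' ha']
          · rw [mskz_pflip_ne W ga u' u a' z huu]

theorem bPhi_hom (hk : 2 ≤ k) (hga : GaOK S W ga) (F : Forms S W ga)
    (p : Option (List St × W.I)) (hp : p ∈ S.bUP W) : Hom (fun _ => True) k (bPhi F p) := by
  classical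
  have key : ∀ u, Hom (fun _ => True) k (sPhi F u) := by
    intro u
    refine Hom.sum _ (fun N hN => ?_)
    have hN' : N ∈ S.Vd := by
      unfold RefSys.nodesOf at hN
      exact (Finset.mem_filter.1 hN).1
    exact hom_fG hk hga F N hN'
  rcases p with _ | ⟨u, a⟩
  · exact key []
  · obtain ⟨hu, ha⟩ := (some_mem_bUP u a).1 hp
    by_cases hag : a = ga u
    · simp only [bPhi, if_pos hag]
      exact key u
    · simp only [bPhi, if_neg hag]
      exact (W.homPhi a ha).comp (fun v => BV.msk u v) (fun v v' h => by
        simpa using h) (fun _ _ => trivial)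

end

theorem exists_pre {k : ℕ} (hk : 2 ≤ k) (T : TF) (S : RefSys T k) (W : WSys k) :
    ∃ X : Pre k, ∃ n : ℕ, X.UP.card = n * W.U.card + 1 ∧ X.UE.card = n * W.U.card := by
  classical
  obtain ⟨a1, ha1, -⟩ := W.surj 1 le_rfl (by omega)
  let ga : List St → W.I := fun u =>
    if h : 1 ≤ wt T k u ∧ wt T k u < k then (W.surj (wt T k u) h.1 h.2).choose else a1
  have hga : GaOK S W ga := by
    intro u hu _ _
    have h := S.wt_lt hk hu
    have h2 := (W.surj (wt T k u) h.1 h.2).choose_spec
    have h3 : ga u = (W.surj (wt T k u) h.1 h.2).choose := dif_pos h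
    rw [h3]
    exact h2
  obtain ⟨F⟩ := exists_forms hk S W ga
  refine ⟨{
    V := BV T.V W.V
    E := List St × W.I
    P := Option (List St × W.I)
    own := bown T W ga
    UE := S.bUE W
    UP := S.bUP W
    v0 := BV.root
    own0 := rfl
    Phi := bPhi F
    Pi := bPi F
    hom := fun p hp => bPhi_hom hk hga F p hp
    flip := fun p hp q hq z => bPhi_flip hk hga F p hp q hq z
    flipPi := fun p hp q hq z => bPi_flip hk hga F p hp q hq z
    dec1 := ?_
    dec2 := ?_
    card_eq := ?_ }, S.Un.card, ?_, ?_⟩
  · intro z z' h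
    refine root_dec F z z' (fun u hu huu => ?_)
    have := h (outp ga u) (outp_mem hga u hu huu)
    rwa [bPi_outp] at this
  · intro z d hd h
    have h1 : ∀ u ∈ S.Vd, unit u = u → sPi F u (dflip (bown T W ga) d z) = sPi F u z := by
      intro u hu huu
      have := h (outp ga u) (outp_mem hga u hu huu)
      rwa [bPi_outp] at this
    funext ⟨u, a⟩
    by_cases hu : u ∈ S.Un
    · have h2 : (fun b => d (u, b)) = 0 := by
        refine W.dec (mskz u z) (fun b => d (u, b)) (fun b hb => hd _ ?_) (fun b hb => ?_)
        · unfold RefSys.bUE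
          rw [Finset.mem_product]
          exact fun h => hb h.2
        · by_cases hbg : b = ga u
          · left
            have h3 := weak_Mk F (dflip (bown T W ga) d z) z (root_dflip W ga d z)
              (fun N => labz_dflip W ga d z N) h1 u hu
            unfold Mk at h3
            rw [mskz_dflip, ← hbg] at h3
            exact h3
          · right
            have h3 := h (some (u, b)) ((some_mem_bUP u b).2 ⟨hu, hb⟩)
            simp only [bPi, if_neg hbg, mskz_dflip] at h3
            exact h3
      exact congrFun h2 a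
    · refine hd _ ?_
      unfold RefSys.bUE
      rw [Finset.mem_product]
      exact fun h => hu h.1
  · unfold RefSys.bUP
    rw [Finset.card_insertNone]
  · unfold RefSys.bUP RefSys.bUE
    rw [Finset.card_insertNone, Finset.card_product]
  · unfold RefSys.bUE
    rw [Finset.card_product]

end Pool.Agent.HBA
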