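import Mathlib
import Pool.Agent.Lib.HBA.HomLem

set_option autoImplicit false

/-!
# Module HBA.BiSum : sums of products `α * β` with `α` supported on `A`, `β` supported on `B`

`BiSum A B d F` : `F = ∑_{i < n} α_i * β_i`, `α_i` homogeneous of degree `a i` supported on `A`,
`β_i` homogeneous of degree `b i` supported on `B`, both invariant under the total flip,
`1 ≤ a i + b i ≤ d`, and a factor of degree `0` is the constant `1`.
* `add` : concatenate the two families (index `Fin n ⊕ Fin n'`, or work with an arbitrary finite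
  index type: the definition quantifies over a `Fintype`).
* `mul` : products over pairs, `α_i * α'_i'` and `β_i * β'_i'`.
-/

namespace Pool.Agent.HBA

open Finset Pool.Agent.P47443c

/-- Sum of products `α * β` with `α` supported on `A` and `β` supported on `B`. -/
def BiSum {V : Type} [DecidableEq V] (A B : V → Prop) (d : ℕ) (F : (V → ZMod 2) → ZMod 2) :
    Prop :=
  ∃ (ι : Type) (_ : Fintype ι) (al be : ι → (V → ZMod 2) → ZMod 2) (a b : ι → ℕ),
    (∀ i, Hom A (a i) (al i)) ∧ (∀ i, Hom B (b i) (be i)) ∧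
    (∀ i x, al i (fun v => x v + 1) = al i x) ∧ (∀ i x, be i (fun v => x v + 1) = be i x) ∧
    (∀ i, 1 ≤ a i + b i) ∧ (∀ i, a i + b i ≤ d) ∧
    (∀ i, a i = 0 → ∀ x, al i x = 1) ∧ (∀ i, b i = 0 → ∀ x, be i x = 1) ∧
    ∀ x, F x = ∑ i, al i x * be i x

section

variable {V : Type} [DecidableEq V] {A B A' B' : V → Prop} {d d' : ℕ}
  {F G : (V → ZMod 2) → ZMod 2}

theorem BiSum.zero (A B : V → Prop) (d : ℕ) : BiSum A B d (fun _ => 0) :=
  ⟨Empty, inferInstance, fun i => i.elim, fun i => i.elim, fun i => i.elim, fun i => i.elim,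
    fun i => i.elim, fun i => i.elim, fun i => i.elim, fun i => i.elim, fun i => i.elim,
    fun i => i.elim, fun i => i.elim, fun i => i.elim, fun x => by simp⟩

theorem BiSum.congr (h : BiSum A B d F) (e : ∀ x, G x = F x) : BiSum A B d G := by
  obtain ⟨ι, i1, al, be, a, b, h1, h2, h3, h4, h5, h6, h7, h8, h9⟩ := h
  exact ⟨ι, i1, al, be, a, b, h1, h2, h3, h4, h5, h6, h7, h8, fun x => by rw [e x, h9 x]⟩

theorem BiSum.mono (h : BiSum A B d F) (hA : ∀ v, A v → A' v) (hB : ∀ v, B v → B' v)
    (hd : d ≤ d') : BiSum A' B' d' F := by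
  obtain ⟨ι, i1, al, be, a, b, h1, h2, h3, h4, h5, h6, h7, h8, h9⟩ := h
  exact ⟨ι, i1, al, be, a, b, fun i => (h1 i).mono hA, fun i => (h2 i).mono hB, h3, h4, h5,
    fun i => (h6 i).trans hd, h7, h8, h9⟩

theorem BiSum.add (h : BiSum A B d F) (h' : BiSum A B d G) :
    BiSum A B d (fun x => F x + G x) := by
  obtain ⟨ι, i1, al, be, a, b, h1, h2, h3, h4, h5, h6, h7, h8, h9⟩ := h
  obtain ⟨ι', i1', al', be', a', b', h1', h2', h3', h4', h5', h6', h7', h8', h9'⟩ := h'
  refine ⟨ι ⊕ ι', inferInstance, Sum.elim al al', Sum.elim be be', Sum.elim a a', Sum.elim b b',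
    ?_, ?_, ?_, ?_, ?_, ?_, ?_, ?_, ?_⟩
  · rintro (i | i)
    · exact h1 i
    · exact h1' i
  · rintro (i | i)
    · exact h2 i
    · exact h2' i
  · rintro (i | i) x
    · exact h3 i x
    · exact h3' i x
  · rintro (i | i) x
    · exact h4 i x
    · exact h4' i x
  · rintro (i | i)
    · exact h5 i
    · exact h5' i
  · rintro (i | i)
    · exact h6 i
    · exact h6' i
  · rintro (i | i) h x
    · exact h7 i h x
    · exact h7' i h x
  · rintro (i | i) h x
    · exact h8 i h x
    · exact h8' i h x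
  · intro x
    rw [Fintype.sum_sum_type]
    show F x + G x = _
    rw [h9 x, h9' x]
    rfl

theorem BiSum.sum {α : Type} (T : Finset α) {F : α → (V → ZMod 2) → ZMod 2}
    (h : ∀ t ∈ T, BiSum A B d (F t)) : BiSum A B d (fun x => ∑ t ∈ T, F t x) := by
  classical
  induction T using Finset.induction_on with
  | empty => exact (BiSum.zero A B d).congr (fun x => by simp)
  | insert a S ha ih =>
    have h1 : BiSum A B d (F a) := h a (Finset.mem_insert_self a S)
    have h2 := ih (fun t ht => h t (Finset.mem_insert_of_mem ht))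
    exact (h1.add h2).congr (fun x => by rw [Finset.sum_insert ha])

theorem BiSum.mul (h : BiSum A B d F) (h' : BiSum A' B' d' G) (hA : ∀ v, A v → A' v → False)
    (hB : ∀ v, B v → B' v → False) :
    BiSum (fun v => A v ∨ A' v) (fun v => B v ∨ B' v) (d + d') (fun x => F x * G x) := by
  obtain ⟨ι, i1, al, be, a, b, h1, h2, h3, h4, h5, h6, h7, h8, h9⟩ := h
  obtain ⟨ι', i1', al', be', a', b', h1', h2', h3', h4', h5', h6', h7', h8', h9'⟩ := h'
  refine ⟨ι × ι', inferInstance, fun i x => al i.1 x * al' i.2 x,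
    fun i x => be i.1 x * be' i.2 x, fun i => a i.1 + a' i.2, fun i => b i.1 + b' i.2,
    fun i => (h1 i.1).mul (h1' i.2) hA, fun i => (h2 i.1).mul (h2' i.2) hB, ?_, ?_, ?_, ?_, ?_,
    ?_, ?_⟩
  · intro i x
    simp only [h3, h3']
  · intro i x
    simp only [h4, h4']
  · intro i
    have := h5 i.1
    have := h5' i.2
    show 1 ≤ (a i.1 + a' i.2) + (b i.1 + b' i.2)
    omega
  · intro i
    have := h6 i.1
    have := h6' i.2
    show (a i.1 + a' i.2) + (b i.1 + b' i.2) ≤ d + d'
    omega
  · intro i h x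
    have h : a i.1 + a' i.2 = 0 := h
    have e1 : a i.1 = 0 := by omega
    have e2 : a' i.2 = 0 := by omega
    simp only [h7 i.1 e1 x, h7' i.2 e2 x, mul_one]
  · intro i h x
    have h : b i.1 + b' i.2 = 0 := h
    have e1 : b i.1 = 0 := by omega
    have e2 : b' i.2 = 0 := by omega
    simp only [h8 i.1 e1 x, h8' i.2 e2 x, mul_one]
  · intro x
    simp only [h9 x, h9' x]
    rw [Fintype.sum_prod_type, Finset.sum_mul_sum]
    refine Finset.sum_congr rfl (fun i _ => Finset.sum_congr rfl (fun j _ => ?_))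
    ring

/-- One product of two invariant homogeneous functions of positive degrees. -/
theorem BiSum.one_mul {a b : ℕ} (hF : Hom A a F) (hG : Hom B b G) (ha : 1 ≤ a) (hb : 1 ≤ b)
    (hFi : ∀ x, F (fun v => x v + 1) = F x) (hGi : ∀ x, G (fun v => x v + 1) = G x) :
    BiSum A B (a + b) (fun x => F x * G x) := by
  have e1 : 1 ≤ a + b := by omega
  have e2 : a ≠ 0 := by omega
  have e3 : b ≠ 0 := by omega
  refine ⟨Unit, inferInstance, fun _ => F, fun _ => G, fun _ => a, fun _ => b, fun _ => hF,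
    fun _ => hG, fun _ => hFi, fun _ => hGi, fun _ => e1, fun _ => le_rfl,
    fun _ h => absurd h e2, fun _ h => absurd h e3, fun x => by simp⟩

/-- A single invariant homogeneous function, on the `A` side. -/
theorem BiSum.left {a : ℕ} (hF : Hom A a F) (ha : 1 ≤ a)
    (hFi : ∀ x, F (fun v => x v + 1) = F x) : BiSum A B a F := by
  have e1 : 1 ≤ a + 0 := by omega
  have e2 : a ≠ 0 := by omega
  have e3 : a + 0 ≤ a := by omega
  refine ⟨Unit, inferInstance, fun _ => F, fun _ _ => 1, fun _ => a, fun _ => 0, fun _ => hF,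
    fun _ => Hom.one B, fun _ => hFi, fun _ _ => rfl, fun _ => e1, fun _ => e3,
    fun _ h => absurd h e2, fun _ _ _ => rfl, fun x => by simp⟩

/-- A single invariant homogeneous function, on the `B` side. -/
theorem BiSum.right {b : ℕ} (hG : Hom B b G) (hb : 1 ≤ b)
    (hGi : ∀ x, G (fun v => x v + 1) = G x) : BiSum A B b G := by
  have e1 : 1 ≤ 0 + b := by omega
  have e2 : b ≠ 0 := by omega
  have e3 : 0 + b ≤ b := by omega
  refine ⟨Unit, inferInstance, fun _ _ => 1, fun _ => G, fun _ => 0, fun _ => b,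
    fun _ => Hom.one A, fun _ => hG, fun _ _ => rfl, fun _ => hGi, fun _ => e1,
    fun _ => e3, fun _ _ _ => rfl, fun _ h => absurd h e2, fun x => by simp⟩

end

end Pool.Agent.HBA
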