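import Mathlib
import Pool.Agent.Lib.HBA.HomLem

set_option autoImplicit false

/-!
# Module HBA.Digit : digits by nested majorities, and the chain between two digits

Labels: lists of natural numbers. The digit `dg c l` of weight `2 ^ c` with name `l` :
`dg 0 l z = z l`, `dg (c+1) l = maj (dg c (0::l)) (dg c (1::l)) (dg c (2::l))` with
`maj x y w = x*y + x*w + y*w`.
* `dg_hom` : support = lists `m` with `l <:+ m` (suffix). Induction on `c` (general `l`): the three
  supports are disjoint since two suffixes of the same list of the same length are equal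
  (`List.IsSuffix.eq_of_length`, `List.suffix_of_suffix_length_le`).
* `dg_flip` : `maj (x+1) (y+1) (w+1) = maj x y w + 1` (decide).
* `maj_add` : `x + maj x y w = (x + y) * (x + w)` in `ZMod 2` (decide).
-/

namespace Pool.Agent.HBA

open Finset Pool.Agent.P47443c

/-- Majority. -/
def maj (x y w : ZMod 2) : ZMod 2 := x * y + x * w + y * w

theorem maj_add (x y w : ZMod 2) : x + maj x y w = (x + y) * (x + w) := by
  revert x y w; decide

theorem maj_flip (x y w : ZMod 2) : maj (x + 1) (y + 1) (w + 1) = maj x y w + 1 := by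
  revert x y w; decide

/-- The digit of weight `2 ^ c` with name `l`. -/
def dg : ℕ → List ℕ → (List ℕ → ZMod 2) → ZMod 2
  | 0, l, z => z l
  | c + 1, l, z => maj (dg c (0 :: l) z) (dg c (1 :: l) z) (dg c (2 :: l) z)

/-- Two suffixes of the same list with the same length are equal. -/
theorem suffix_eq {l l' m : List ℕ} (h : l <:+ m) (h' : l' <:+ m) (e : l.length = l'.length) :
    l = l' :=
  (List.suffix_of_suffix_length_le h h' e.le).eq_of_length e

theorem cons_suffix_disj {i j : ℕ} (hij : i ≠ j) (l m : List ℕ) (h : (i :: l) <:+ m)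
    (h' : (j :: l) <:+ m) : False := by
  have := suffix_eq h h' (by simp)
  exact hij (List.cons.inj this).1

/-- A homogeneous majority of three homogeneous functions with disjoint supports. -/
theorem hom_maj {P1 P2 P3 : List ℕ → Prop} {c : ℕ} {x y w : (List ℕ → ZMod 2) → ZMod 2}
    (hx : Hom P1 (2 ^ c) x) (hy : Hom P2 (2 ^ c) y) (hw : Hom P3 (2 ^ c) w)
    (h12 : ∀ a, P1 a → P2 a → False) (h13 : ∀ a, P1 a → P3 a → False)
    (h23 : ∀ a, P2 a → P3 a → False) :
    Hom (fun a => P1 a ∨ P2 a ∨ P3 a) (2 ^ (c + 1)) (fun z => maj (x z) (y z) (w z)) := by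
  have e : 2 ^ c + 2 ^ c = 2 ^ (c + 1) := by rw [pow_succ]; ring
  have a1 := (hx.mul hy h12).mono (Q := fun a => P1 a ∨ P2 a ∨ P3 a) (by tauto)
  have a2 := (hx.mul hw h13).mono (Q := fun a => P1 a ∨ P2 a ∨ P3 a) (by tauto)
  have a3 := (hy.mul hw h23).mono (Q := fun a => P1 a ∨ P2 a ∨ P3 a) (by tauto)
  rw [e] at a1 a2 a3
  exact ((a1.add a2).add a3).congr (fun z => rfl)

theorem dg_hom (c : ℕ) (l : List ℕ) : Hom (fun m => l <:+ m) (2 ^ c) (dg c l) := by
  induction c generalizing l with
  | zero =>
    have := Hom.var (V := List ℕ) (P := fun m => l <:+ m) (v := l) (List.suffix_refl l)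
    exact this
  | succ c ih =>
    have h := hom_maj (ih (0 :: l)) (ih (1 :: l)) (ih (2 :: l))
      (fun m => cons_suffix_disj (by decide) l m)
      (fun m => cons_suffix_disj (by decide) l m)
      (fun m => cons_suffix_disj (by decide) l m)
    have h' := h.mono (Q := fun m => l <:+ m) (by
      rintro m (h | h | h) <;> exact (List.suffix_cons _ l).trans h)
    exact h'.congr (fun z => rfl)

theorem dg_flip (c : ℕ) (l : List ℕ) (z : List ℕ → ZMod 2) :
    dg c l (fun m => z m + 1) = dg c l z + 1 := by
  induction c generalizing l with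
  | zero => rfl
  | succ c ih =>
    simp only [dg, ih]
    exact maj_flip _ _ _

end Pool.Agent.HBA
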