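import Mathlib
import Pool.Agent.Lib.HBA.Digit
import Pool.Agent.Lib.HBA.BiSum

set_option autoImplicit false

/-!
# Module HBA.Chain : the difference of two digits as a BiSum

Labels `List ℕ`. `Xl i` : labels of the digit `x_i` (name `[0, i, 0]`); `Nm i` : labels with a name
`[j, i, c]`, `j ≥ 1`. The fresh digit is `x'_i = dg a [1, i, 0]`. Chain with side `t` (`t = 2` left,
`t = 4` right): `X_0 = x'_i`, `X_(m+1) = maj X_m (dg (a+m) [t,i,m]) (dg (a+m) [t+1,i,m])`.
* `X_m` is homogeneous of degree `2 ^ (a+m)`, supported on labels with suffix `[1,i,0]` or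
  `[t,i,m']`, `[t+1,i,m']`, `m' < m` (`hom_maj`, `dg_hom`; two different lists of the same length are
  never suffixes of the same list), and flips by `1` (`maj_flip`, `dg_flip`);
* `X_0 + X_m = ∑_{c<m} (X_c + dg (a+c) [t,i,c]) * (X_c + dg (a+c) [t+1,i,c])` (`maj_add`, char 2);
* for a digit `d` of degree `2 ^ b`, `b = a + m`: `X_0 + d = (X_0 + X_m) + (X_m + d)`; the products are
  `BiSum.one_mul` (degree `2 * 2^(a+c) ≤ 2^b`), the last term is `BiSum.left` or `BiSum.right`.
* `diff_bisum` : `x_i + x_(i+1) = (x'_i + x_i) + (x'_i + x_(i+1))`, left chain for the first, right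
  chain for the second bracket.
-/

namespace Pool.Agent.HBA

open Finset Pool.Agent.P47443c

/-- Labels of the digit `x_i`. -/
def Xl (i : ℕ) (m : List ℕ) : Prop := [0, i, 0] <:+ m

/-- Auxiliary labels number `i`. -/
def Nm (i : ℕ) (m : List ℕ) : Prop := ∃ j c, 1 ≤ j ∧ [j, i, c] <:+ m

/-- The chain with side `t`. -/
def chn (a i t : ℕ) : ℕ → (List ℕ → ZMod 2) → ZMod 2
  | 0, z => dg a [1, i, 0] z
  | m + 1, z => maj (chn a i t m z) (dg (a + m) [t, i, m] z) (dg (a + m) [t + 1, i, m] z)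

/-- Two suffixes of the same list of the same length are equal. -/
theorem suf_eq {l1 l2 l : List ℕ} (h1 : l1 <:+ l) (h2 : l2 <:+ l) (h : l1.length = l2.length) :
    l1 = l2 :=
  (List.suffix_of_suffix_length_le h1 h2 h.le).eq_of_length h

theorem chn_hom (a i t m : ℕ) (ht : 2 ≤ t) : Hom (fun l => [1, i, 0] <:+ l ∨
    ∃ m' < m, [t, i, m'] <:+ l ∨ [t + 1, i, m'] <:+ l) (2 ^ (a + m)) (chn a i t m) := by
  induction m with
  | zero => exact ((dg_hom a [1, i, 0]).mono fun l h => Or.inl h)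
  | succ m ih =>
    have h := hom_maj ih (dg_hom (a + m) [t, i, m]) (dg_hom (a + m) [t + 1, i, m])
      (by
        rintro l (h1 | ⟨m', hm', h1 | h1⟩) h2
        · have := suf_eq h1 h2 rfl
          simp only [List.cons.injEq] at this
          omega
        · have := suf_eq h1 h2 rfl
          simp only [List.cons.injEq] at this
          omega
        · have := suf_eq h1 h2 rfl
          simp only [List.cons.injEq] at this
          omega)
      (by
        rintro l (h1 | ⟨m', hm', h1 | h1⟩) h2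
        · have := suf_eq h1 h2 rfl
          simp only [List.cons.injEq] at this
          omega
        · have := suf_eq h1 h2 rfl
          simp only [List.cons.injEq] at this
          omega
        · have := suf_eq h1 h2 rfl
          simp only [List.cons.injEq] at this
          omega)
      (by
        intro l h1 h2
        have := suf_eq h1 h2 rfl
        simp only [List.cons.injEq] at this
        omega)
    refine h.mono ?_
    rintro l ((h1 | ⟨m', hm', h1⟩) | h1 | h1)
    · exact Or.inl h1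
    · exact Or.inr ⟨m', by omega, h1⟩
    · exact Or.inr ⟨m, by omega, Or.inl h1⟩
    · exact Or.inr ⟨m, by omega, Or.inr h1⟩

theorem chn_flip (a i t m : ℕ) (z : List ℕ → ZMod 2) :
    chn a i t m (fun v => z v + 1) = chn a i t m z + 1 := by
  induction m with
  | zero => exact dg_flip a [1, i, 0] z
  | succ m ih =>
    show maj (chn a i t m (fun v => z v + 1)) (dg (a + m) [t, i, m] (fun v => z v + 1))
      (dg (a + m) [t + 1, i, m] (fun v => z v + 1)) =
      maj (chn a i t m z) (dg (a + m) [t, i, m] z) (dg (a + m) [t + 1, i, m] z) + 1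
    rw [ih, dg_flip, dg_flip, maj_flip]

theorem chn_sum (a i t m : ℕ) (z : List ℕ → ZMod 2) : chn a i t 0 z + chn a i t m z =
    ∑ c ∈ range m, (chn a i t c z + dg (a + c) [t, i, c] z) *
      (chn a i t c z + dg (a + c) [t + 1, i, c] z) := by
  induction m with
  | zero => rw [z2_add_self]; simp
  | succ m ih =>
    rw [Finset.sum_range_succ, ← ih, ← maj_add]
    show chn a i t 0 z + chn a i t (m + 1) z = _ + (chn a i t m z + chn a i t (m + 1) z)
    have h := z2_add_self (chn a i t m z)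
    linear_combination (-1 : ZMod 2) * h

theorem chn_hom_Nm (a i t m : ℕ) (ht : 2 ≤ t) : Hom (Nm i) (2 ^ (a + m)) (chn a i t m) := by
  refine (chn_hom a i t m ht).mono ?_
  rintro l (h | ⟨m', _, h | h⟩)
  · exact ⟨1, 0, le_rfl, h⟩
  · exact ⟨t, m', by omega, h⟩
  · exact ⟨t + 1, m', by omega, h⟩

theorem dg_hom_Nm (b i t c : ℕ) (ht : 1 ≤ t) : Hom (Nm i) (2 ^ b) (dg b [t, i, c]) :=
  (dg_hom b [t, i, c]).mono fun _ h => ⟨t, c, ht, h⟩

theorem flip_add {x y x' y' : ZMod 2} (hx : x' = x + 1) (hy : y' = y + 1) : x' + y' = x + y := by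
  subst hx hy
  revert x y
  decide

theorem chn_sum_bisum (A B : List ℕ → Prop) (a i t m : ℕ) (ht : 2 ≤ t)
    (hA : ∀ l, Nm i l → A l) (hB : ∀ l, Nm i l → B l) :
    BiSum A B (2 ^ (a + m)) (fun z => chn a i t 0 z + chn a i t m z) := by
  have h1 : BiSum A B (2 ^ (a + m)) (fun z => ∑ c ∈ range m,
      (chn a i t c z + dg (a + c) [t, i, c] z) * (chn a i t c z + dg (a + c) [t + 1, i, c] z)) := by
    apply BiSum.sum
    intro c hc
    have hc' : c < m := Finset.mem_range.1 hc
    have hF : Hom A (2 ^ (a + c)) (fun z => chn a i t c z + dg (a + c) [t, i, c] z) :=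
      ((chn_hom_Nm a i t c ht).mono hA).add ((dg_hom_Nm (a + c) i t c (by omega)).mono hA)
    have hG : Hom B (2 ^ (a + c)) (fun z => chn a i t c z + dg (a + c) [t + 1, i, c] z) :=
      ((chn_hom_Nm a i t c ht).mono hB).add ((dg_hom_Nm (a + c) i (t + 1) c (by omega)).mono hB)
    have h := BiSum.one_mul hF hG Nat.one_le_two_pow Nat.one_le_two_pow
      (fun x => flip_add (chn_flip a i t c x) (dg_flip _ _ x))
      (fun x => flip_add (chn_flip a i t c x) (dg_flip _ _ x))
    refine h.mono (fun _ h => h) (fun _ h => h) ?_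
    calc 2 ^ (a + c) + 2 ^ (a + c) = 2 ^ (a + c + 1) := by rw [pow_succ]; ring
      _ ≤ 2 ^ (a + m) := Nat.pow_le_pow_right (by norm_num) (by omega)
  exact h1.congr fun x => chn_sum a i t m x

theorem diff_left (a b i : ℕ) (hab : a ≤ b) :
    BiSum (fun m => Nm i m ∨ Xl i m) (fun m => Nm i m ∨ Xl (i + 1) m) (2 ^ b)
      (fun z => dg a [1, i, 0] z + dg b [0, i, 0] z) := by
  obtain ⟨m, rfl⟩ := Nat.exists_eq_add_of_le hab
  have h1 := chn_sum_bisum (fun m => Nm i m ∨ Xl i m) (fun m => Nm i m ∨ Xl (i + 1) m) a i 2 m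
    le_rfl (fun _ h => Or.inl h) (fun _ h => Or.inl h)
  have hF : Hom (fun m => Nm i m ∨ Xl i m) (2 ^ (a + m))
      (fun z => chn a i 2 m z + dg (a + m) [0, i, 0] z) :=
    ((chn_hom_Nm a i 2 m le_rfl).mono fun _ h => Or.inl h).add
      ((dg_hom (a + m) [0, i, 0]).mono fun _ h => Or.inr h)
  have h2 : BiSum (fun m => Nm i m ∨ Xl i m) (fun m => Nm i m ∨ Xl (i + 1) m) (2 ^ (a + m))
      (fun z => chn a i 2 m z + dg (a + m) [0, i, 0] z) :=
    BiSum.left hF Nat.one_le_two_pow fun x => flip_add (chn_flip a i 2 m x) (dg_flip _ _ x)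
  refine (h1.add h2).congr fun x => ?_
  show dg a [1, i, 0] x + dg (a + m) [0, i, 0] x = (dg a [1, i, 0] x + chn a i 2 m x) +
    (chn a i 2 m x + dg (a + m) [0, i, 0] x)
  have h := z2_add_self (chn a i 2 m x)
  linear_combination (-1 : ZMod 2) * h

theorem diff_right (a b i : ℕ) (hab : a ≤ b) :
    BiSum (fun m => Nm i m ∨ Xl i m) (fun m => Nm i m ∨ Xl (i + 1) m) (2 ^ b)
      (fun z => dg a [1, i, 0] z + dg b [0, i + 1, 0] z) := by
  obtain ⟨m, rfl⟩ := Nat.exists_eq_add_of_le hab
  have h1 := chn_sum_bisum (fun m => Nm i m ∨ Xl i m) (fun m => Nm i m ∨ Xl (i + 1) m) a i 4 m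
    (by norm_num) (fun _ h => Or.inl h) (fun _ h => Or.inl h)
  have hG : Hom (fun m => Nm i m ∨ Xl (i + 1) m) (2 ^ (a + m))
      (fun z => chn a i 4 m z + dg (a + m) [0, i + 1, 0] z) :=
    ((chn_hom_Nm a i 4 m (by norm_num)).mono fun _ h => Or.inl h).add
      ((dg_hom (a + m) [0, i + 1, 0]).mono fun _ h => Or.inr h)
  have h2 : BiSum (fun m => Nm i m ∨ Xl i m) (fun m => Nm i m ∨ Xl (i + 1) m) (2 ^ (a + m))
      (fun z => chn a i 4 m z + dg (a + m) [0, i + 1, 0] z) :=
    BiSum.right hG Nat.one_le_two_pow fun x => flip_add (chn_flip a i 4 m x) (dg_flip _ _ x)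
  refine (h1.add h2).congr fun x => ?_
  show dg a [1, i, 0] x + dg (a + m) [0, i + 1, 0] x = (dg a [1, i, 0] x + chn a i 4 m x) +
    (chn a i 4 m x + dg (a + m) [0, i + 1, 0] x)
  have h := z2_add_self (chn a i 4 m x)
  linear_combination (-1 : ZMod 2) * h

theorem diff_bisum (a b b' i : ℕ) (h1 : a ≤ b) (h2 : b ≤ b') :
    BiSum (fun m => Nm i m ∨ Xl i m) (fun m => Nm i m ∨ Xl (i + 1) m) (2 ^ b')
      (fun z => dg b [0, i, 0] z + dg b' [0, i + 1, 0] z) := by
  have e1 := (diff_left a b i h1).mono (fun _ h => h) (fun _ h => h)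
    (Nat.pow_le_pow_right (n := 2) (by norm_num) h2)
  have e2 := diff_right a b' i (h1.trans h2)
  refine (e1.add e2).congr fun x => ?_
  have h := z2_add_self (dg a [1, i, 0] x)
  linear_combination (-1 : ZMod 2) * h

end Pool.Agent.HBA
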