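import Mathlib
import Pool.Agent.Lib.HBA.Addr

set_option autoImplicit false

/-!
# Module HBA.Reg : the content predicate and its combinatorics (content lemma of HB_all_proof.md)

`Reg T k N a` : the labels allowed in the form of the node `N`; `RegL` = `Reg` or a label of the node
`N` itself (content of `f N * Q`).
Facts about lists used throughout: `tau N <:+ N`; a T-node suffix of `N` is a suffix of `tau N`
(`suffix_tau`); if `N' <:+ N`, `tau N' = tau N` then `St.t b :: N'` is not a suffix of `tau N`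
(length), so not a suffix of `N`.
-/

namespace Pool.Agent.HBA

open Finset Pool.Agent.P47443c

variable {A B : Type}

/-- Type (a): labels of proper initial nodes (in the same local tree), masks of pairs there. -/
def RA (N : List St) (a : BV A B) : Prop :=
  ∃ N', N' <:+ N ∧ N' ≠ N ∧ tau N' = tau N ∧
    ((∃ v, a = BV.lab N' v) ∨ ∃ x v, a = BV.msk (x :: N') v)

/-- Type (b): labels located below the T-node of a pair at a proper initial node. -/
def RB (N : List St) (a : BV A B) : Prop :=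
  a ≠ BV.root ∧ ∃ N' b, N' <:+ N ∧ N' ≠ N ∧ tau N' = tau N ∧ St.t b :: N' <:+ loc a

/-- Type (ii): the content of the last T-form. -/
def RC (N : List St) (a : BV A B) : Prop :=
  ∃ b N0, tau N = St.t b :: N0 ∧ ((∃ v, a = BV.lab N0 v) ∨ ∃ v, a = BV.msk (St.t b :: N0) v)

/-- Type (iii): labels not located below some T-node suffix of guard weight `< w`. -/
def RD (T : TF) (k : ℕ) (w : ℕ) (N : List St) (a : BV A B) : Prop :=
  a ≠ BV.root ∧ ∃ b N0, St.t b :: N0 <:+ N ∧ gw T k N0 b < w ∧ ¬ St.t b :: N0 <:+ loc a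

/-- Labels allowed in the form of the node `N`. -/
def Reg (T : TF) (k : ℕ) (N : List St) (a : BV A B) : Prop :=
  a = BV.root ∨ RA N a ∨ RB N a ∨ RC N a ∨ RD T k (wt T k N) N a

/-- Labels allowed in `f N * Q` : `Reg` or a label of the node `N`. -/
def RegL (T : TF) (k : ℕ) (N : List St) (a : BV A B) : Prop :=
  Reg T k N a ∨ ∃ v, a = BV.lab N v

/-- Labels allowed in the contaminations of the pair `(N, j)`. -/
def RegD (T : TF) (k : ℕ) (N : List St) (j : ℕ) (a : BV A B) : Prop :=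
  a = BV.root ∨ (a ≠ BV.root ∧ St.t j :: N <:+ loc a) ∨ RD T k (gw T k N j) N a

/-- Labels not located below `S`. -/
def NotB (S : List St) (a : BV A B) : Prop := a = BV.root ∨ (a ≠ BV.root ∧ ¬ S <:+ loc a)

/-! ## Auxiliary facts on lists -/

namespace RegAux

theorem cases' {x : St} {A N : List St} (h : A <:+ x :: N) : A = x :: N ∨ A <:+ N :=
  List.suffix_cons_iff.1 h

theorem not_suffix {A B : List St} (h : B.length < A.length) : ¬ A <:+ B :=
  fun hs => absurd hs.length_le (by omega)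

theorem length_lt {A B : List St} (h : A <:+ B) (hne : A ≠ B) : A.length < B.length := by
  rcases Nat.lt_or_ge A.length B.length with h1 | h1
  · exact h1
  · exact absurd (h.eq_of_length (le_antisymm h.length_le h1)) hne

theorem tau_length (N : List St) : (tau N).length ≤ N.length := (tau_suffix N).length_le

theorem ne_cons_self (x : St) (N : List St) : N ≠ x :: N := by
  intro h
  have := congrArg List.length h
  simp at this

theorem not_child_tau (j : ℕ) (N : List St) : ¬ St.t j :: N <:+ tau N := not_suffix (by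
  have := tau_length N
  simp only [List.length_cons]; omega)

theorem RC_length {b : ℕ} {N N0 : List St} (h : tau N = St.t b :: N0) :
    N0.length + 1 ≤ N.length := by
  have := tau_length N
  rw [h] at this
  simpa using this

end RegAux

open RegAux

/-! ## Freshness -/

/-- The labels of the node `N` are not in its form. -/
theorem Reg.ne_lab {T : TF} {k : ℕ} {N : List St} {a : BV A B} (h : Reg T k N a) (v : A) :
    a ≠ BV.lab N v := by
  rintro rfl
  rcases h with h | ⟨A', h1, h2, h3, h4⟩ | ⟨_, A', b, h1, h2, h3, h4⟩ | ⟨b, N0, h1, h2⟩ |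
    ⟨_, b, N0, h1, _, h2⟩
  · cases h
  · rcases h4 with ⟨v', h4⟩ | ⟨x, v', h4⟩
    · exact h2 (BV.lab.inj h4).1.symm
    · cases h4
  · have h5 : St.t b :: A' <:+ tau A' := by rw [h3]; exact h4
    exact not_child_tau _ _ h5
  · have hl := RC_length h1
    rcases h2 with ⟨v', h2⟩ | ⟨v', h2⟩
    · have := (BV.lab.inj h2).1
      subst this; omega
    · cases h2
  · exact h2 (suffix_tau h1)

/-- The masks of the pairs at `N` are not in its form. -/
theorem Reg.ne_msk {T : TF} {k : ℕ} {N : List St} {a : BV A B} (h : Reg T k N a) (x : St) (v : B) :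
    a ≠ BV.msk (x :: N) v := by
  rintro rfl
  rcases h with h | ⟨A', h1, h2, h3, h4⟩ | ⟨_, A', b, h1, h2, h3, h4⟩ | ⟨b, N0, h1, h2⟩ |
    ⟨_, b, N0, h1, _, h2⟩
  · cases h
  · rcases h4 with ⟨v', h4⟩ | ⟨x', v', h4⟩
    · cases h4
    · exact h2 (List.cons.inj (BV.msk.inj h4).1).2.symm
  · have h5 : St.t b :: A' <:+ tau A' := by rw [h3]; exact h4
    exact not_child_tau _ _ h5
  · have hl := RC_length h1
    rcases h2 with ⟨v', h2⟩ | ⟨v', h2⟩
    · cases h2
    · have := (List.cons.inj (BV.msk.inj h2).1).2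
      subst this; omega
  · exact h2 (suffix_tau h1)

theorem RegD.ne_lab {T : TF} {k : ℕ} {N : List St} {j : ℕ} {a : BV A B} (h : RegD T k N j a)
    (v : A) : a ≠ BV.lab N v := by
  rintro rfl
  rcases h with h | ⟨_, h⟩ | ⟨_, b, N0, h1, _, h2⟩
  · cases h
  · exact not_child_tau _ _ h
  · exact h2 (suffix_tau h1)

theorem RegD.ne_msk {T : TF} {k : ℕ} {N : List St} {j : ℕ} {a : BV A B} (h : RegD T k N j a)
    (x : St) (v : B) : a ≠ BV.msk (x :: N) v := by
  rintro rfl
  rcases h with h | ⟨_, h⟩ | ⟨_, b, N0, h1, _, h2⟩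
  · cases h
  · exact not_child_tau _ _ h
  · exact h2 (suffix_tau h1)

/-- A label not located below a T-node suffix of `N` is not a label of `N`. -/
theorem NotB.ne_lab {N S : List St} {a : BV A B} (h : NotB S a) (b : ℕ) (S' : List St)
    (hS : S = St.t b :: S') (hN : S <:+ N) (v : A) : a ≠ BV.lab N v := by
  rintro rfl
  subst hS
  rcases h with h | ⟨_, h⟩
  · cases h
  · exact h (suffix_tau hN)

/-! ## Steps -/

namespace RegAux

/-- Monotonicity of the content along a step which is not a `t`-step. -/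
theorem mono (T : TF) (k : ℕ) {N N1 : List St}
    (hs : ∀ A : List St, A <:+ N → A ≠ N → A <:+ N1 ∧ A ≠ N1)
    (ht : tau N1 = tau N) (hT : ∀ b N0, St.t b :: N0 <:+ N → St.t b :: N0 <:+ N1)
    (hw : wt T k N ≤ wt T k N1) {a : BV A B} (h : Reg T k N a) : Reg T k N1 a := by
  rcases h with rfl | ⟨A', h1, h2, h3, h4⟩ | ⟨h0, A', b, h1, h2, h3, h4⟩ | ⟨b, N0, h1, h2⟩ |
    ⟨h0, b, N0, h1, h3, h2⟩
  · exact Or.inl rfl
  · exact Or.inr (Or.inl ⟨A', (hs A' h1 h2).1, (hs A' h1 h2).2, h3.trans ht.symm, h4⟩)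
  · exact Or.inr (Or.inr (Or.inl ⟨h0, A', b, (hs A' h1 h2).1, (hs A' h1 h2).2,
      h3.trans ht.symm, h4⟩))
  · exact Or.inr (Or.inr (Or.inr (Or.inl ⟨b, N0, ht.trans h1, h2⟩)))
  · exact Or.inr (Or.inr (Or.inr (Or.inr ⟨h0, b, N0, hT b N0 h1, h3.trans_le hw, h2⟩)))

theorem cons_mono_aux (x : St) (N : List St) :
    ∀ A : List St, A <:+ N → A ≠ N → A <:+ x :: N ∧ A ≠ x :: N := by
  intro A h _
  refine ⟨h.trans (List.suffix_cons _ _), ?_⟩
  rintro rfl
  have := h.length_le
  simp only [List.length_cons] at this; omega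

theorem mono_cons (T : TF) (k : ℕ) {x : St} {N : List St} (ht : tau (x :: N) = tau N)
    (hw : wt T k N ≤ wt T k (x :: N)) {a : BV A B} (h : Reg T k N a) : Reg T k (x :: N) a :=
  mono T k (cons_mono_aux _ _) ht (fun _ _ h => h.trans (List.suffix_cons _ _)) hw h

theorem lab_cons (T : TF) (k : ℕ) {x : St} {N : List St} (ht : tau (x :: N) = tau N) (v : A) :
    Reg T k (x :: N) (BV.lab N v : BV A B) :=
  Or.inr (Or.inl ⟨N, List.suffix_cons _ _, ne_cons_self _ _, ht.symm, Or.inl ⟨v, rfl⟩⟩)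

theorem msk_cons (T : TF) (k : ℕ) {x : St} {N : List St} (ht : tau (x :: N) = tau N) (y : St)
    (v : B) : Reg T k (x :: N) (BV.msk (y :: N) v : BV A B) :=
  Or.inr (Or.inl ⟨N, List.suffix_cons _ _, ne_cons_self _ _, ht.symm, Or.inr ⟨y, v, rfl⟩⟩)

theorem regL_cons (T : TF) (k : ℕ) {x : St} {N : List St} (ht : tau (x :: N) = tau N)
    (hw : wt T k N ≤ wt T k (x :: N)) {a : BV A B} (h : RegL T k N a) :
    Reg T k (x :: N) a := by
  rcases h with h | ⟨v, rfl⟩
  · exact mono_cons T k ht hw h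
  · exact lab_cons T k ht v

theorem regD_cons (T : TF) (k : ℕ) {x : St} {N : List St} {j : ℕ} (ht : tau (x :: N) = tau N)
    (hw : gw T k N j ≤ wt T k (x :: N)) {a : BV A B} (h : RegD T k N j a) :
    Reg T k (x :: N) a := by
  rcases h with rfl | ⟨h0, h⟩ | ⟨h0, b, N0, h1, h3, h2⟩
  · exact Or.inl rfl
  · exact Or.inr (Or.inr (Or.inl ⟨h0, N, j, List.suffix_cons _ _, ne_cons_self _ _, ht.symm, h⟩))
  · exact Or.inr (Or.inr (Or.inr (Or.inr ⟨h0, b, N0, h1.trans (List.suffix_cons _ _),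
      h3.trans_le hw, h2⟩)))

end RegAux

theorem Reg_t (T : TF) (k : ℕ) (N : List St) (j : ℕ) (a : BV A B)
    (h : (∃ v, a = BV.lab N v) ∨ ∃ v, a = BV.msk (St.t j :: N) v) :
    Reg T k (St.t j :: N) a := by
  rcases h with ⟨v, rfl⟩ | ⟨v, rfl⟩
  · exact Or.inr (Or.inr (Or.inr (Or.inl ⟨j, N, rfl, Or.inl ⟨v, rfl⟩⟩)))
  · exact Or.inr (Or.inr (Or.inr (Or.inl ⟨j, N, rfl, Or.inr ⟨v, rfl⟩⟩)))

theorem Reg_s (T : TF) (k : ℕ) (N : List St) (i : ℕ) (hw : wt T k N < wt T k (St.s i :: N))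
    (a : BV A B) (h : RegL T k N a) : Reg T k (St.s i :: N) a :=
  regL_cons T k rfl hw.le h

/-- `c`-step: `f N * Q`, the mask, the contaminations. -/
theorem Reg_c (T : TF) (k : ℕ) (N : List St) (j : ℕ) (hw : wt T k N < wt T k (St.c j :: N))
    (a : BV A B) (h : RegL T k N a ∨ (∃ v, a = BV.msk (St.c j :: N) v) ∨ RegD T k N j a) :
    Reg T k (St.c j :: N) a := by
  rcases h with h | ⟨v, rfl⟩ | h
  · exact regL_cons T k rfl hw.le h
  · exact msk_cons T k rfl _ v
  · exact regD_cons T k rfl le_rfl h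

/-- `p`-step, uncut pair. -/
theorem Reg_p (T : TF) (k : ℕ) (N : List St) (j : ℕ) (hw : wt T k N < wt T k (St.p j :: N))
    (hg : gw T k N j < wt T k (St.p j :: N))
    (a : BV A B) (h : RegL T k N a ∨ (∃ x v, a = BV.msk (x :: N) v) ∨ RegD T k N j a) :
    Reg T k (St.p j :: N) a := by
  rcases h with h | ⟨x, v, rfl⟩ | h
  · exact regL_cons T k rfl hw.le h
  · exact msk_cons T k rfl _ v
  · exact regD_cons T k rfl hg.le h

/-- `p`-step, cut pair: labels of `N` and labels not located below the T-node suffix `S` of guard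
weight `gw N j`. -/
theorem Reg_pc (T : TF) (k : ℕ) (N : List St) (j : ℕ) (b : ℕ) (S : List St)
    (hS : St.t b :: S <:+ N) (hg : gw T k S b < wt T k (St.p j :: N))
    (a : BV A B) (h : (∃ v, a = BV.lab N v) ∨ NotB (St.t b :: S) a) :
    Reg T k (St.p j :: N) a := by
  rcases h with ⟨v, rfl⟩ | rfl | ⟨h0, h⟩
  · exact lab_cons T k rfl v
  · exact Or.inl rfl
  · exact Or.inr (Or.inr (Or.inr (Or.inr ⟨h0, b, S, hS.trans (List.suffix_cons _ _), hg, h⟩)))

/-! ## The references -/

section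

variable {T : TF} {k : ℕ} (S : RefSys T k)

/-- The contaminations: `(H, l)` cut with second reference `(j, N)`. -/
theorem RegD_of_Dep (hk : 2 ≤ k) {H : List St} {l : ℕ} (hH : H ∈ S.Vd)
    (hl : l < T.nJ (k - wt T k H)) (hc : S.cut H l) {a : BV A B} (h : RegL T k H a) :
    RegD T k (S.a1 H l).2 (S.a1 H l).1 a := by
  obtain ⟨s0, s1, g0, g1⟩ := S.R1 H l hH hl hc
  have w1 := S.R2 H l hH hl hc
  unfold tn at s0 s1 w1
  have hg : wt T k H < gw T k H l := by
    have h1 := S.wt_lt hk hH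
    have h2 := T.q_pos (k - wt T k H) l (by omega) hl
    unfold gw; omega
  generalize S.a0 H l = r0 at *
  generalize S.a1 H l = r1 at *
  obtain ⟨j0, A0⟩ := r0
  obtain ⟨j, N⟩ := r1
  simp only at *
  have haH : St.t j :: N <:+ H := (s1.trans (List.suffix_cons _ _)).trans s0
  have hat : St.t j :: N <:+ tau H := suffix_tau haH
  rcases h with (rfl | ⟨H', h1, h2, h3, h4⟩ | ⟨h0, H', b, h1, h2, h3, h4⟩ | ⟨b, N0, h1, h2⟩ |
    ⟨h0, b, N0, h1, h3, h2⟩) | ⟨v, rfl⟩
  · exact Or.inl rfl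
  · right; left
    rcases h4 with ⟨v, rfl⟩ | ⟨x, v, rfl⟩
    · refine ⟨by simp, ?_⟩
      show _ <:+ tau H'
      rw [h3]; exact hat
    · refine ⟨by simp, ?_⟩
      show _ <:+ tau H'
      rw [h3]; exact hat
  · right; left
    refine ⟨h0, ?_⟩
    rw [← h3] at hat
    exact ((hat.trans (tau_suffix H')).trans (List.suffix_cons _ _)).trans h4
  · right; left
    have haN : St.t j :: N <:+ N0 := by
      have hB : St.t j0 :: A0 <:+ St.t b :: N0 := h1 ▸ suffix_tau s0
      rcases cases' hB with h5 | h5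
      · have := (List.cons.inj h5).2
        subst this; exact s1
      · exact (s1.trans (List.suffix_cons _ _)).trans h5
    rcases h2 with ⟨v, rfl⟩ | ⟨v, rfl⟩
    · exact ⟨by simp, suffix_tau haN⟩
    · exact ⟨by simp, suffix_tau haN⟩
  · right; right
    refine ⟨h0, b, N0, ?_, by omega, h2⟩
    rcases List.suffix_or_suffix_of_suffix haH h1 with h5 | h5
    · have := w1 b N0 h1 h5
      omega
    · rcases cases' h5 with h6 | h6
      · have := w1 b N0 h1 (h6 ▸ List.suffix_rfl)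
        omega
      · exact h6
  · exact Or.inr (Or.inl ⟨by simp, hat⟩)

/-- The location of a content element seen from a direct `t`-child. -/
theorem RegAux.near {N : List St} {j : ℕ} {a : BV A B}
    (h : RegL T k N a ∨ ∃ x v, a = BV.msk (x :: N) v) : NotB (St.t j :: N) a := by
  have ht : ¬ St.t j :: N <:+ tau N := not_child_tau j N
  rcases h with ((rfl | ⟨A', h1, h2, h3, h4⟩ | ⟨h0, A', b, h1, h2, h3, h4⟩ | ⟨b, N0, h1, h2⟩ |
    ⟨h0, b, N0, h1, _, h2⟩) | ⟨v, rfl⟩) | ⟨x, v, rfl⟩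
  · exact Or.inl rfl
  · right
    rcases h4 with ⟨v, rfl⟩ | ⟨x, v, rfl⟩
    · refine ⟨by simp, ?_⟩
      show ¬ _ <:+ tau A'
      rw [h3]; exact ht
    · refine ⟨by simp, ?_⟩
      show ¬ _ <:+ tau A'
      rw [h3]; exact ht
  · right
    refine ⟨h0, ?_⟩
    intro hs
    have hl := length_lt h1 h2
    rcases List.suffix_or_suffix_of_suffix h4 hs with h5 | h5
    · rcases cases' h5 with h6 | h6
      · have := (List.cons.inj h6).2
        exact h2 this
      · have h7 := suffix_tau h6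
        rw [← h3] at h7
        exact not_child_tau _ _ h7
    · have h6 := h5.length_le
      simp only [List.length_cons] at h6; omega
  · right
    have hl := RC_length h1
    have ht0 : ¬ St.t j :: N <:+ tau N0 := not_suffix (by
      have := tau_length N0
      simp only [List.length_cons]; omega)
    rcases h2 with ⟨v, rfl⟩ | ⟨v, rfl⟩
    · exact ⟨by simp, ht0⟩
    · exact ⟨by simp, ht0⟩
  · right
    refine ⟨h0, fun hs => h2 ((h1.trans (List.suffix_cons _ _)).trans hs)⟩
  · exact Or.inr ⟨by simp, ht⟩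
  · exact Or.inr ⟨by simp, ht⟩

/-- The own part of a reference of the cut pair `(N, j)`. `A0 = a0 N j` or `a1 N j`. -/
theorem NotB_ref (hk : 2 ≤ k) {N : List St} {j : ℕ} (hN : N ∈ S.Vd)
    (hj : j < T.nJ (k - wt T k N)) (hc : S.cut N j) (r : ℕ × List St)
    (hr : r = S.a0 N j ∨ r = S.a1 N j) {a : BV A B}
    (h : RegL T k r.2 a ∨ ∃ v, a = BV.msk (cn r) v) : NotB (tn (S.a0 N j)) a := by
  obtain ⟨s0, s1, g0, g1⟩ := S.R1 N j hN hj hc
  have h' : RegL T k r.2 a ∨ ∃ x v, a = BV.msk (x :: r.2) v :=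
    h.imp id (fun ⟨v, hv⟩ => ⟨_, v, hv⟩)
  rcases hr with rfl | rfl
  · exact RegAux.near h'
  · rcases RegAux.near (j := (S.a1 N j).1) h' with h1 | ⟨h0, h1⟩
    · exact Or.inl h1
    · refine Or.inr ⟨h0, fun h2 => h1 ?_⟩
      exact (s1.trans (List.suffix_cons _ _)).trans h2

/-- The other contaminations of the second reference. -/
theorem NotB_Dep (hk : 2 ≤ k) {N : List St} {j : ℕ} (hN : N ∈ S.Vd)
    (hj : j < T.nJ (k - wt T k N)) (hc : S.cut N j) {H : List St} {l : ℕ} (hH : H ∈ S.Vd)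
    (hl : l < T.nJ (k - wt T k H)) (hcH : S.cut H l) (he : S.a1 H l = S.a1 N j)
    (hne : (H, l) ≠ (N, j)) {a : BV A B} (h : RegL T k H a) : NotB (tn (S.a0 N j)) a := by
  obtain ⟨r1, r2⟩ := S.R3 N j H l hN hj hc hH hl hcH he.symm hne.symm
  obtain ⟨s0, s1, g0, g1⟩ := S.R1 N j hN hj hc
  obtain ⟨s0', s1', g0', g1'⟩ := S.R1 H l hH hl hcH
  have w1' := S.R2 H l hH hl hcH
  have hg : wt T k H < gw T k H l := by
    have h1 := S.wt_lt hk hH
    have h2 := T.q_pos (k - wt T k H) l (by omega) hl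
    unfold gw; omega
  rw [he] at s1' w1'
  have r1' : ¬ tn (S.a0 N j) <:+ tau H := fun hs => r1 (hs.trans (tau_suffix H))
  rcases h with (rfl | ⟨H', h1, h2, h3, h4⟩ | ⟨h0, H', b, h1, h2, h3, h4⟩ | ⟨b, N0, h1, h2⟩ |
    ⟨h0, b, N0, h1, h3, h2⟩) | ⟨v, rfl⟩
  · exact Or.inl rfl
  · right
    rcases h4 with ⟨v, rfl⟩ | ⟨x, v, rfl⟩
    · refine ⟨by simp, ?_⟩
      show ¬ _ <:+ tau H'
      rw [h3]; exact r1'
    · refine ⟨by simp, ?_⟩
      show ¬ _ <:+ tau H'
      rw [h3]; exact r1'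
  · right
    refine ⟨h0, ?_⟩
    intro hs
    have h5 : tau H <:+ loc a := by
      rw [← h3]
      exact ((tau_suffix H').trans (List.suffix_cons _ _)).trans h4
    rcases List.suffix_or_suffix_of_suffix hs h5 with h6 | h6
    · exact r1' h6
    · exact r2 h6
  · right
    have r3 : ¬ tn (S.a0 N j) <:+ tau N0 := by
      intro hs
      apply r1'
      rw [h1]
      exact (hs.trans (tau_suffix N0)).trans (List.suffix_cons _ _)
    rcases h2 with ⟨v, rfl⟩ | ⟨v, rfl⟩
    · exact ⟨by simp, r3⟩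
    · exact ⟨by simp, r3⟩
  · right
    refine ⟨h0, ?_⟩
    intro hs
    apply h2
    have haH : tn (S.a1 N j) <:+ H := (s1'.trans (List.suffix_cons _ _)).trans s0'
    rcases List.suffix_or_suffix_of_suffix haH h1 with h5 | h5
    · have := w1' b N0 h1 h5
      omega
    · exact ((h5.trans s1).trans (List.suffix_cons _ _)).trans hs
  · exact Or.inr ⟨by simp, r1'⟩

end

end Pool.Agent.HBA
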