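import Mathlib
import Pool.Agent.Lib.HBA.Reg

set_option autoImplicit false

/-!
# Module HBA.HomF : homogeneity of the forms of the strong tree

Strong induction on the weight `wt T k N` (all forms on the right of the equations have smaller
weight: `wt_s`, `wt_p`, `wt_c`, and for references `wt (cn a) = gw a.2 a.1 = gw N j` by `R1`; for
`e ∈ Dep N j` : `wt e.1 < gw e.1 e.2 = gw N j = wt (c j :: N)`).
* `Rn`, `Qn`, `Qn'`, `Gn` at `N` : homogeneous, supported on `∃ v, a = BV.lab N v` (`Hom.comp`);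
  `Mk ga u` : supported on `∃ v, a = BV.msk u v`, degree `wt T k u` (`hga`).
* `t`-step: `Reg_t`, degree `q'`.  `s`-step: `Reg_s`, disjoint by `Reg.ne_lab`.
* `c`-step: `f N * Qn` (`RegL`), mask, `∑ Dep` (`RegD_of_Dep`), all of degree `gw N j`.
* `p`-step uncut: `Cg + f N * Qn = Mk + ∑ Dep` (char 2), times `Qn'` (disjoint: `RegD.ne_lab`), plus
  `f (c j :: N) * Mk (t j :: N)` (expand `f (c j :: N)` by `f_c`; disjoint: `Reg.ne_msk`, `RegD.ne_msk`).
* `p`-step cut, `A0 = a0 N j`, `A1 = a1 N j` : `Cg = f (cn A0) + f (cn A1)`, `f_c` for both,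
  `Dep A0 = ∅` (`R4`), `Dep A1 ∋ (N, j)` whose summand cancels `f N * Qn N j`; the rest satisfies
  `NotB (tn A0)` (`NotB_ref`, `NotB_Dep`), so it is disjoint from the labels of `N` (`NotB.ne_lab`).
-/

namespace Pool.Agent.HBA

open Finset Pool.Agent.P47443c

section

variable {T : TF} {k : ℕ} {S : RefSys T k} {W : WSys k} {ga : List St → W.I}

/-- The chosen units are units of the right weights. -/
def GaOK (S : RefSys T k) (W : WSys k) (ga : List St → W.I) : Prop :=
  ∀ u ∈ S.Vd, unit u = u → u ≠ [] → ga u ∈ W.U ∧ W.wt (ga u) = wt T k u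

namespace HomFAux

theorem one_le (hk : 2 ≤ k) {N : List St} (hN : N ∈ S.Vd) : 1 ≤ k - wt T k N := by
  have := S.wt_lt hk hN
  omega

theorem hom_lab {d : ℕ} {F' : (T.V → ZMod 2) → ZMod 2} (h : Hom (fun _ => True) d F')
    (N : List St) :
    Hom (fun a : BV T.V W.V => ∃ v, a = BV.lab N v) d (fun z => F' (labz N z)) :=
  h.comp (fun v => BV.lab N v) (fun v w e => by injection e) (fun w _ => ⟨w, rfl⟩)

theorem hom_Rn (hk : 2 ≤ k) {N : List St} (hN : N ∈ S.Vd) {i : ℕ} (hi : i < T.nI (k - wt T k N)) :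
    Hom (fun a : BV T.V W.V => ∃ v, a = BV.lab N v) (T.r (k - wt T k N) i) (Rn T k N i) :=
  hom_lab (T.homR _ i (one_le hk hN) hi) N

theorem hom_Qn (hk : 2 ≤ k) {N : List St} (hN : N ∈ S.Vd) {j : ℕ} (hj : j < T.nJ (k - wt T k N)) :
    Hom (fun a : BV T.V W.V => ∃ v, a = BV.lab N v) (T.q (k - wt T k N) j) (Qn T k N j) :=
  hom_lab (T.homQ _ j (one_le hk hN) hj) N

theorem hom_Qn' (hk : 2 ≤ k) {N : List St} (hN : N ∈ S.Vd) {j : ℕ} (hj : j < T.nJ (k - wt T k N)) :
    Hom (fun a : BV T.V W.V => ∃ v, a = BV.lab N v) (T.q' (k - wt T k N) j) (Qn' T k N j) :=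
  hom_lab (T.homQ' _ j (one_le hk hN) hj) N

theorem hom_Mk (hga : GaOK S W ga) {u : List St} (hu : u ∈ S.Vd) (h1 : unit u = u) (h2 : u ≠ []) :
    Hom (fun a : BV T.V W.V => ∃ v, a = BV.msk u v) (wt T k u) (Mk W ga u) := by
  obtain ⟨h3, h4⟩ := hga u hu h1 h2
  rw [← h4]
  exact (W.homf (ga u) h3).comp (fun v => BV.msk u v) (fun v w e => by injection e)
    (fun w _ => ⟨w, rfl⟩)

theorem hom_Mk_c (hga : GaOK S W ga) {N : List St} {j : ℕ} (hu : St.c j :: N ∈ S.Vd) :
    Hom (fun a : BV T.V W.V => ∃ v, a = BV.msk (St.c j :: N) v) (gw T k N j)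
      (Mk W ga (St.c j :: N)) := hom_Mk hga hu rfl (List.cons_ne_nil _ _)

theorem hom_Mk_t (hga : GaOK S W ga) {N : List St} {j : ℕ} (hu : St.t j :: N ∈ S.Vd) :
    Hom (fun a : BV T.V W.V => ∃ v, a = BV.msk (St.t j :: N) v) (T.q' (k - wt T k N) j)
      (Mk W ga (St.t j :: N)) := hom_Mk hga hu rfl (List.cons_ne_nil _ _)

theorem wt_lt_gw (hk : 2 ≤ k) {N : List St} (hN : N ∈ S.Vd) {j : ℕ}
    (hj : j < T.nJ (k - wt T k N)) : wt T k N < gw T k N j := by
  have := T.q_pos _ j (one_le hk hN) hj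
  unfold gw
  omega

/-- `f N * Q` -/
theorem hom_fQ (hk : 2 ≤ k) {F : Forms S W ga} {N : List St} (hN : N ∈ S.Vd) {j : ℕ}
    (hj : j < T.nJ (k - wt T k N)) (h : Hom (Reg T k N) (wt T k N) (F.f N)) :
    Hom (RegL T k N) (gw T k N j) (fun z => F.f N z * Qn T k N j z) :=
  h.mul (hom_Qn hk hN hj) (fun a h1 ⟨v, h2⟩ => h1.ne_lab v h2)

/-- the sum of the contaminations -/
theorem hom_D (hk : 2 ≤ k) {F : Forms S W ga} {N : List St} {j : ℕ}
    (IH : ∀ N' ∈ S.Vd, wt T k N' < gw T k N j → Hom (Reg T k N') (wt T k N') (F.f N')) :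
    Hom (RegD T k N j) (gw T k N j) (fun z => ∑ e ∈ S.Dep N j, F.f e.1 z * Qn T k e.1 e.2 z) := by
  refine Hom.sum _ (fun e he => ?_)
  obtain ⟨⟨h1, h2⟩, h3, h4⟩ := (S.mem_Dep N j e).1 he
  have h5 := (S.R1 e.1 e.2 h1 h2 h3).2.2.2
  rw [h4] at h5
  change gw T k N j = _ at h5
  have h6 := wt_lt_gw hk h1 h2
  have h7 := hom_fQ hk h1 h2 (IH e.1 h1 (by omega))
  rw [← h5] at h7
  refine h7.mono (fun a ha => ?_)
  have h8 := RegD_of_Dep S hk h1 h2 h3 ha
  rwa [h4] at h8

theorem tn_mem {N : List St} {r : ℕ × List St} (hN : N ∈ S.Vd) (h : tn r <:+ N) :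
    r.2 ∈ S.Vd ∧ r.1 < T.nJ (k - wt T k r.2) ∧ cn r ∈ S.Vd := by
  have h1 : tn r ∈ S.Vd := S.suffix hN h
  obtain ⟨h2, h3, h4⟩ := (S.mem_t r.2 r.1).1 h1
  exact ⟨h2, h3, (S.mem_c r.2 r.1).2 ⟨h2, h3, h4⟩⟩

end HomFAux

open HomFAux

theorem hom_Gn (hk : 2 ≤ k) (N : List St) (hN : N ∈ S.Vd) :
    Hom (fun a : BV T.V W.V => ∃ v, a = BV.lab N v) (k - wt T k N) (Gn T k N) :=
  hom_lab (T.homG _ (one_le hk hN)) N

theorem hom_node (hk : 2 ≤ k) (hga : GaOK S W ga) (F : Forms S W ga) (N : List St)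
    (hN : N ∈ S.Vd) : Hom (Reg T k N) (wt T k N) (F.f N) := by
  classical
  induction hw : wt T k N using Nat.strong_induction_on generalizing N with
  | _ w ih =>
  have IH : ∀ N' ∈ S.Vd, wt T k N' < wt T k N → Hom (Reg T k N') (wt T k N') (F.f N') :=
    fun N' hN' h => ih _ (by rw [← hw]; exact h) N' hN' rfl
  rw [← hw]
  clear ih hw w
  match N, hN, IH with
  | [], _, _ =>
    exact (Hom.var (P := Reg T k []) (v := BV.root) (Or.inl rfl)).congr (fun z => F.f_nil z)
  | St.s i :: N, hN, IH =>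
    obtain ⟨hi, hlt⟩ := S.wt_s hk hN
    have hN' := S.tail hN
    have h := (IH N hN' hlt).mul (hom_Rn hk hN' hi) (fun a h1 ⟨v, h2⟩ => h1.ne_lab v h2)
    exact (h.mono (fun a ha => Reg_s T k N i hlt a ha)).congr (fun z => F.f_s N i hN z)
  | St.t j :: N, hN, _ =>
    have hj := S.idx_t hN
    have hN' := S.tail hN
    have h1 := (hom_Qn' (W := W) hk hN' hj).mono
      (fun a ha => Reg_t T k N j a (Or.inl ha))
    have h2 := (hom_Mk_t hga hN).mono (fun a ha => Reg_t T k N j a (Or.inr ha))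
    exact (h1.add h2).congr (fun z => F.f_t N j hN z)
  | St.c j :: N, hN, IH =>
    obtain ⟨hj, hlt⟩ := S.wt_c hk hN
    have hN' := S.tail hN
    have h1 := (hom_fQ hk hN' hj (IH N hN' hlt)).mono
      (fun a ha => Reg_c T k N j hlt a (Or.inl ha))
    have h2 := (hom_Mk_c hga hN).mono (fun a ha => Reg_c T k N j hlt a (Or.inr (Or.inl ha)))
    have h3 := (hom_D hk (N := N) (j := j) IH).mono
      (fun a ha => Reg_c T k N j hlt a (Or.inr (Or.inr ha)))
    exact ((h1.add h2).add h3).congr (fun z => F.f_c N j hN z)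
  | St.p j :: N, hN, IH =>
    obtain ⟨hj, hlt1, hlt2⟩ := S.wt_p hk hN
    have hlt : wt T k N < wt T k (St.p j :: N) := hlt1.trans hlt2
    have hN' := S.tail hN
    have hdeg : gw T k N j + T.q' (k - wt T k N) j = wt T k (St.p j :: N) := by
      change wt T k N + T.q (k - wt T k N) j + T.q' (k - wt T k N) j
        = wt T k N + (T.q (k - wt T k N) j + T.q' (k - wt T k N) j)
      rw [add_assoc]
    have hfN := hom_fQ hk hN' hj (IH N hN' hlt)
    have hQ' := hom_Qn' (W := W) hk hN' hj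
    by_cases hc : S.cut N j
    · -- cut pair
      obtain ⟨r1, r2, r3, r4⟩ := S.R1 N j hN' hj hc
      obtain ⟨a1, a2, a3⟩ := tn_mem hN' r1
      have r2' : tn (S.a1 N j) <:+ N :=
        (r2.trans (List.suffix_cons _ _)).trans r1
      obtain ⟨b1, b2, b3⟩ := tn_mem hN' r2'
      have hA0 : wt T k (S.a0 N j).2 < wt T k (St.p j :: N) := by
        have := wt_lt_gw hk a1 a2
        omega
      have hA1 : wt T k (S.a1 N j).2 < wt T k (St.p j :: N) := by
        have := wt_lt_gw hk b1 b2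
        omega
      -- first reference
      have hD0 : S.Dep (S.a0 N j).2 (S.a0 N j).1 = ∅ := by
        rw [Finset.eq_empty_iff_forall_notMem]
        intro e he
        obtain ⟨⟨h1, h2⟩, h3, h4⟩ := (S.mem_Dep _ _ e).1 he
        exact S.R4 N j e.1 e.2 hN' hj hc h1 h2 h3 h4.symm
      have hX0 : Hom (NotB (tn (S.a0 N j))) (gw T k N j)
          (fun z => F.f (S.a0 N j).2 z * Qn T k (S.a0 N j).2 (S.a0 N j).1 z) := by
        have h := hom_fQ hk a1 a2 (IH _ a1 hA0)
        rw [r3] at h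
        exact h.mono (fun a ha => NotB_ref S hk hN' hj hc _ (Or.inl rfl) (Or.inl ha))
      have hM0 : Hom (NotB (tn (S.a0 N j))) (gw T k N j)
          (Mk (T := T) W ga (cn (S.a0 N j))) := by
        have h := hom_Mk_c hga a3
        rw [r3] at h
        exact h.mono (fun a ha => NotB_ref S hk hN' hj hc _ (Or.inl rfl) (Or.inr ha))
      have hX1 : Hom (NotB (tn (S.a0 N j))) (gw T k N j)
          (fun z => F.f (S.a1 N j).2 z * Qn T k (S.a1 N j).2 (S.a1 N j).1 z) := by
        have h := hom_fQ hk b1 b2 (IH _ b1 hA1)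
        rw [r4] at h
        exact h.mono (fun a ha => NotB_ref S hk hN' hj hc _ (Or.inr rfl) (Or.inl ha))
      have hM1 : Hom (NotB (tn (S.a0 N j))) (gw T k N j)
          (Mk (T := T) W ga (cn (S.a1 N j))) := by
        have h := hom_Mk_c hga b3
        rw [r4] at h
        exact h.mono (fun a ha => NotB_ref S hk hN' hj hc _ (Or.inr rfl) (Or.inr ha))
      have hmem : (N, j) ∈ S.Dep (S.a1 N j).2 (S.a1 N j).1 :=
        (S.mem_Dep _ _ (N, j)).2 ⟨⟨hN', hj⟩, hc, rfl⟩
      have hE : Hom (NotB (tn (S.a0 N j))) (gw T k N j)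
          (fun z => ∑ e ∈ (S.Dep (S.a1 N j).2 (S.a1 N j).1).erase (N, j),
            F.f e.1 z * Qn T k e.1 e.2 z) := by
        refine Hom.sum _ (fun e he => ?_)
        obtain ⟨hne, he'⟩ := Finset.mem_erase.1 he
        obtain ⟨⟨h1, h2⟩, h3, h4⟩ := (S.mem_Dep _ _ e).1 he'
        have h5 := (S.R1 e.1 e.2 h1 h2 h3).2.2.2
        rw [h4] at h5
        change gw T k (S.a1 N j).2 (S.a1 N j).1 = _ at h5
        rw [r4] at h5
        have h6 := wt_lt_gw hk h1 h2
        have h7 := hom_fQ hk h1 h2 (IH e.1 h1 (by omega))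
        rw [← h5] at h7
        exact h7.mono (fun a ha => NotB_Dep S hk hN' hj hc h1 h2 h3 h4 hne ha)
      have hall := ((((hX0.add hM0).add hX1).add hM1).add hE).mul hQ'
        (fun a h1 ⟨v, h2⟩ => h1.ne_lab (S.a0 N j).1 (S.a0 N j).2 rfl r1 v h2)
      rw [hdeg] at hall
      refine (hall.mono (fun a ha => ?_)).congr (fun z => ?_)
      · exact Reg_pc T k N j (S.a0 N j).1 (S.a0 N j).2 r1 (by omega) a (ha.symm)
      · rw [F.f_p N j hN z]
        unfold Cg Rho
        rw [if_pos hc, if_pos hc]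
        have e0 := F.f_c (S.a0 N j).2 (S.a0 N j).1 a3 z
        have e1 := F.f_c (S.a1 N j).2 (S.a1 N j).1 b3 z
        rw [hD0, Finset.sum_empty] at e0
        rw [← Finset.add_sum_erase _ _ hmem] at e1
        change F.f (cn (S.a0 N j)) z = _ at e0
        change F.f (cn (S.a1 N j)) z = _ at e1
        rw [e0, e1]
        have h2 := z2_add_self (F.f N z * Qn T k N j z)
        change (F.f (S.a0 N j).2 z * Qn T k (S.a0 N j).2 (S.a0 N j).1 z
          + Mk W ga (cn (S.a0 N j)) z + 0 +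
          (F.f (S.a1 N j).2 z * Qn T k (S.a1 N j).2 (S.a1 N j).1 z
          + Mk W ga (cn (S.a1 N j)) z + (F.f N z * Qn T k N j z +
            ∑ e ∈ (S.Dep (S.a1 N j).2 (S.a1 N j).1).erase (N, j),
              F.f e.1 z * Qn T k e.1 e.2 z)) + F.f N z * Qn T k N j z) * Qn' T k N j z
          + (F.f (S.a0 N j).2 z * Qn T k (S.a0 N j).2 (S.a0 N j).1 z
          + Mk W ga (cn (S.a0 N j)) z + 0 +
          (F.f (S.a1 N j).2 z * Qn T k (S.a1 N j).2 (S.a1 N j).1 z
          + Mk W ga (cn (S.a1 N j)) z + (F.f N z * Qn T k N j z +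
            ∑ e ∈ (S.Dep (S.a1 N j).2 (S.a1 N j).1).erase (N, j),
              F.f e.1 z * Qn T k e.1 e.2 z))) * 0 = _
        linear_combination (Qn' T k N j z) * h2
    · -- uncut pair
      have hcm : St.c j :: N ∈ S.Vd := (S.mem_c N j).2 ⟨hN', hj, hc⟩
      have htm : St.t j :: N ∈ S.Vd := (S.mem_t N j).2 ⟨hN', hj, hc⟩
      have hD := hom_D hk (N := N) (j := j) (F := F)
        (fun N' h1 h2 => IH N' h1 (h2.trans hlt2))
      have hMc := hom_Mk_c (W := W) hga hcm
      have hMt := hom_Mk_t (W := W) hga htm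
      let P1 : BV T.V W.V → Prop := fun a =>
        (∃ v, a = BV.msk (St.c j :: N) v) ∨ RegD T k N j a
      let P2 : BV T.V W.V → Prop := fun a =>
        RegL T k N a ∨ (∃ v, a = BV.msk (St.c j :: N) v) ∨ RegD T k N j a
      have h1 : Hom P1 (gw T k N j) (fun z => Mk W ga (St.c j :: N) z +
          ∑ e ∈ S.Dep N j, F.f e.1 z * Qn T k e.1 e.2 z) :=
        (hMc.mono (fun a ha => Or.inl ha)).add (hD.mono (fun a ha => Or.inr ha))
      have h2 : Hom P2 (gw T k N j) (fun z => F.f N z * Qn T k N j z +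
          (Mk W ga (St.c j :: N) z + ∑ e ∈ S.Dep N j, F.f e.1 z * Qn T k e.1 e.2 z)) :=
        (hfN.mono (fun a ha => Or.inl ha)).add (h1.mono (fun a ha => Or.inr ha))
      have h3 := h1.mul hQ' (by
        rintro a (⟨v, rfl⟩ | h) ⟨v', h'⟩
        · cases h'
        · exact h.ne_lab v' h')
      have h4 := h2.mul hMt (by
        rintro a (h | ⟨v, rfl⟩ | h) ⟨v', h'⟩
        · rcases h with h | ⟨v, rfl⟩
          · exact h.ne_msk (St.t j) v' h'
          · cases h'
        · cases h'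
        · exact h.ne_msk (St.t j) v' h')
      rw [hdeg] at h3 h4
      have h3' := h3.mono (fun a ha => Reg_p T k N j hlt hlt2 a (by
        rcases ha with (⟨v, h⟩ | h) | h
        · exact Or.inr (Or.inl ⟨St.c j, v, h⟩)
        · exact Or.inr (Or.inr h)
        · exact Or.inl (Or.inr h)))
      have h4' := h4.mono (fun a ha => Reg_p T k N j hlt hlt2 a (by
        rcases ha with (h | ⟨v, h⟩ | h) | ⟨v, h⟩
        · exact Or.inl h
        · exact Or.inr (Or.inl ⟨St.c j, v, h⟩)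
        · exact Or.inr (Or.inr h)
        · exact Or.inr (Or.inl ⟨St.t j, v, h⟩)))
      refine (h3'.add h4').congr (fun z => ?_)
      rw [F.f_p N j hN z]
      unfold Cg Rho
      rw [if_neg hc, if_neg hc, F.f_c N j hcm z]
      have h2 := z2_add_self (F.f N z * Qn T k N j z)
      linear_combination (Qn' T k N j z) * h2

/-- The summands of the outputs. -/
theorem hom_fG (hk : 2 ≤ k) (hga : GaOK S W ga) (F : Forms S W ga) (N : List St)
    (hN : N ∈ S.Vd) : Hom (fun _ => True) k (fun z => F.f N z * Gn T k N z) := by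
  have h := (hom_node hk hga F N hN).mul (hom_Gn hk N hN) (fun a h1 ⟨v, h2⟩ => h1.ne_lab v h2)
  have h1 := S.wt_lt hk hN
  have e : wt T k N + (k - wt T k N) = k := by omega
  rw [e] at h
  exact h.mono (fun _ _ => trivial)

end

end Pool.Agent.HBA
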