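import Mathlib
import Pool.Agent.Lib.HBA.HomF

set_option autoImplicit false

/-!
# Module HBA.SOut : the outputs of the strong tree, flips, strong and weak decoding

Outputs `List St × Option W.I` : `(u, none)` is the strong output of the unit `u` (also `u = []`),
`(u, some b)` the output `b ≠ ga u` of copy `u`. Data `List St × W.I`.
-/

namespace Pool.Agent.HBA

open Finset Pool.Agent.P47443c

namespace SOut

section

variable {T : TF} {k : ℕ}

/-- Ownership. -/
def sown (W : WSys k) : BV T.V W.V → Option ((List St × W.I) ⊕ (List St × Option W.I))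
  | BV.root => none
  | BV.lab N _ => some (Sum.inr (unit N, none))
  | BV.msk u v => (W.own v).map (Sum.map (fun a => (u, a)) (fun b => (u, some b)))

variable {W : WSys k}

theorem map_none {I : Type} (N u : List St) (x : Option (I ⊕ I)) :
    ¬ (x.map (Sum.map (fun a => (N, a)) (fun b => (N, some b))) =
      some (Sum.inr (u, none) : (List St × I) ⊕ (List St × Option I))) := by
  rcases x with _ | a | b <;> simp

theorem map_some {I : Type} (N : List St) (b : I) (x : Option (I ⊕ I)) :
    (x.map (Sum.map (fun a => (N, a)) (fun b => (N, some b))) =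
      some (Sum.inr (N, some b) : (List St × I) ⊕ (List St × Option I))) ↔
      x = some (Sum.inr b) := by
  rcases x with _ | a | b' <;> simp

theorem map_some' {I : Type} (N u : List St) (h : N ≠ u) (b : I) (x : Option (I ⊕ I)) :
    ¬ (x.map (Sum.map (fun a => (N, a)) (fun b => (N, some b))) =
      some (Sum.inr (u, some b) : (List St × I) ⊕ (List St × Option I))) := by
  rcases x with _ | a | b' <;> simp [h]

theorem labz_pflip_none (N u : List St) (z : BV T.V W.V → ZMod 2) (h : unit N = u) :
    labz N (pflip (sown W) (u, none) z) = fun v => labz N z v + 1 := by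
  funext v
  simp [labz, pflip, sown, h]

theorem labz_pflip_none' (N u : List St) (z : BV T.V W.V → ZMod 2) (h : unit N ≠ u) :
    labz N (pflip (sown W) (u, none) z) = labz N z := by
  funext v
  simp [labz, pflip, sown, h]

theorem labz_pflip_some (N u : List St) (b : W.I) (z : BV T.V W.V → ZMod 2) :
    labz N (pflip (sown W) (u, some b) z) = labz N z := by
  funext v
  simp [labz, pflip, sown]

theorem mskz_pflip_none (N u : List St) (z : BV T.V W.V → ZMod 2) :
    mskz N (pflip (sown W) (u, none) z) = mskz N z := by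
  funext v
  simp only [mskz, pflip, sown]
  rw [if_neg (map_none N u (W.own v)), add_zero]

theorem mskz_pflip_some (u : List St) (b : W.I) (z : BV T.V W.V → ZMod 2) :
    mskz u (pflip (sown W) (u, some b) z) = pflip W.own b (mskz u z) := by
  funext v
  simp only [mskz, pflip, sown]
  congr 1
  exact if_congr (map_some u b (W.own v)) rfl rfl

theorem mskz_pflip_some' (N u : List St) (b : W.I) (z : BV T.V W.V → ZMod 2) (h : N ≠ u) :
    mskz N (pflip (sown W) (u, some b) z) = mskz N z := by
  funext v
  simp only [mskz, pflip, sown]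
  rw [if_neg (map_some' N u h b (W.own v)), add_zero]

theorem labz_dflip (N : List St) (d : List St × W.I → ZMod 2) (z : BV T.V W.V → ZMod 2) :
    labz N (dflip (sown W) d z) = labz N z := by
  funext v
  simp [labz, dflip, sown]

theorem mskz_dflip (u : List St) (d : List St × W.I → ZMod 2) (z : BV T.V W.V → ZMod 2) :
    mskz u (dflip (sown W) d z) = dflip W.own (fun a => d (u, a)) (mskz u z) := by
  funext v
  simp only [mskz, dflip, sown]
  rcases W.own v with _ | a | b <;> simp

theorem root_pflip (q : List St × Option W.I) (z : BV T.V W.V → ZMod 2) :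
    pflip (sown W) q z BV.root = z BV.root := by
  simp [pflip, sown]

theorem root_dflip (d : List St × W.I → ZMod 2) (z : BV T.V W.V → ZMod 2) :
    dflip (sown W) d z BV.root = z BV.root := by
  simp [dflip, sown]

end

section

variable {T : TF} {k : ℕ} (S : RefSys T k) {W : WSys k} {ga : List St → W.I}

/-- The guards of the references are valid and have the guard weight of the pair. -/
theorem cn_mem {N : List St} {j : ℕ} (hN : N ∈ S.Vd) (hj : j < T.nJ (k - wt T k N))
    (hc : S.cut N j) : (cn (S.a0 N j) ∈ S.Vd ∧ wt T k (cn (S.a0 N j)) = gw T k N j ∧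
      tn (S.a0 N j) <:+ N) ∧
      cn (S.a1 N j) ∈ S.Vd ∧ wt T k (cn (S.a1 N j)) = gw T k N j ∧ tn (S.a1 N j) <:+ N := by
  obtain ⟨s0, s1, g0, g1⟩ := S.R1 N j hN hj hc
  have s1' : tn (S.a1 N j) <:+ N := (s1.trans (List.suffix_cons _ _)).trans s0
  have h0 : tn (S.a0 N j) ∈ S.Vd := S.suffix hN s0
  have h1 : tn (S.a1 N j) ∈ S.Vd := S.suffix hN s1'
  refine ⟨⟨?_, g0, s0⟩, ?_, g1, s1'⟩
  · exact (S.mem_c _ _).2 ((S.mem_t _ _).1 h0)
  · exact (S.mem_c _ _).2 ((S.mem_t _ _).1 h1)

theorem wt_lt_gw (hk : 2 ≤ k) {N : List St} {j : ℕ} (hN : N ∈ S.Vd)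
    (hj : j < T.nJ (k - wt T k N)) : wt T k N < gw T k N j := by
  have h1 := S.wt_lt hk hN
  have h2 := T.q_pos (k - wt T k N) j (by omega) hj
  unfold gw; omega

/-- Two points with the same values of the node functions and masks have the same forms. -/
theorem forms_congr (hk : 2 ≤ k) (F : Forms S W ga) {z z' : BV T.V W.V → ZMod 2}
    (h0 : z' BV.root = z BV.root)
    (hR : ∀ N ∈ S.Vd, ∀ i, i < T.nI (k - wt T k N) → Rn T k N i z' = Rn T k N i z)
    (hQ : ∀ N ∈ S.Vd, ∀ j, j < T.nJ (k - wt T k N) → Qn T k N j z' = Qn T k N j z)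
    (hQ' : ∀ N ∈ S.Vd, ∀ j, j < T.nJ (k - wt T k N) → Qn' T k N j z' = Qn' T k N j z)
    (hM : ∀ u ∈ S.Vd, unit u = u → u ≠ [] → Mk W ga u z' = Mk W ga u z) :
    ∀ N ∈ S.Vd, F.f N z' = F.f N z := by
  have main : ∀ n : ℕ, ∀ N ∈ S.Vd, wt T k N = n → F.f N z' = F.f N z := by
    intro n
    induction n using Nat.strong_induction_on with
    | _ n ih =>
      intro N hN hn
      have ih' : ∀ M ∈ S.Vd, wt T k M < wt T k N → F.f M z' = F.f M z :=
        fun M hM' hlt => ih _ (hn ▸ hlt) M hM' rfl
      rcases N with _ | ⟨x, N⟩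
      · rw [F.f_nil, F.f_nil, h0]
      · cases x with
        | s i =>
          have h1 := (S.mem_s N i).1 hN
          have h2 := S.wt_s hk hN
          rw [F.f_s N i hN, F.f_s N i hN, ih' N h1.1 h2.2, hR N h1.1 i h1.2]
        | t j =>
          have h1 := (S.mem_t N j).1 hN
          rw [F.f_t N j hN, F.f_t N j hN, hQ' N h1.1 j h1.2.1, hM _ hN rfl (by simp)]
        | c j =>
          have h1 := (S.mem_c N j).1 hN
          have h2 := S.wt_c hk hN
          rw [F.f_c N j hN, F.f_c N j hN, ih' N h1.1 h2.2, hQ N h1.1 j h1.2.1,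
            hM _ hN rfl (by simp)]
          congr 1
          apply Finset.sum_congr rfl
          intro e he
          obtain ⟨⟨e1, e2⟩, e3, e4⟩ := (S.mem_Dep N j e).1 he
          have e5 := (cn_mem S e1 e2 e3).2.2.1
          rw [e4] at e5
          have e6 := wt_lt_gw S hk e1 e2
          have e7 : wt T k (cn (j, N)) = wt T k (St.c j :: N) := rfl
          rw [ih' e.1 e1 (by omega), hQ e.1 e1 e.2 e2]
        | p j =>
          have h1 := (S.mem_p N j).1 hN
          have h2 := S.wt_p hk hN
          have hC : Cg S F.f N j z' = Cg S F.f N j z := by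
            unfold Cg
            by_cases hc : S.cut N j
            · have c := cn_mem S h1.1 h1.2 hc
              rw [if_pos hc, if_pos hc, ih' _ c.1.1 (by omega), ih' _ c.2.1 (by omega)]
            · rw [if_neg hc, if_neg hc]
              have hm : St.c j :: N ∈ S.Vd := (S.mem_c N j).2 ⟨h1.1, h1.2, hc⟩
              have e7 : wt T k (St.c j :: N) = gw T k N j := rfl
              exact ih' _ hm (by omega)
          have hρ : Rho S W ga N j z' = Rho S W ga N j z := by
            unfold Rho
            by_cases hc : S.cut N j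
            · rw [if_pos hc, if_pos hc]
            · rw [if_neg hc, if_neg hc]
              exact hM _ ((S.mem_t N j).2 ⟨h1.1, h1.2, hc⟩) rfl (by simp)
          rw [F.f_p N j hN, F.f_p N j hN, hC, hρ, ih' N h1.1 (by omega), hQ N h1.1 j h1.2,
            hQ' N h1.1 j h1.2]
  intro N hN
  exact main _ N hN rfl

variable (F : Forms S W ga)

open Classical in
/-- The T-form of the pair `(N, j)`. -/
noncomputable def Tf (N : List St) (j : ℕ) (z : BV T.V W.V → ZMod 2) : ZMod 2 :=
  if S.cut N j then Qn' T k N j z else F.f (St.t j :: N) z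

/-- The function of the output of a unit, below `N`. -/
noncomputable def PhiT : ℕ → List St → (BV T.V W.V → ZMod 2) → ZMod 2
  | 0, _, _ => 0
  | n + 1, N, z => F.f N z * Gn T k N z +
      ∑ i ∈ range (T.nI (k - wt T k N)), PhiT n (St.s i :: N) z +
      ∑ j ∈ range (T.nJ (k - wt T k N)), PhiT n (St.p j :: N) z

/-- The sum of the products `C T` below `N`. -/
noncomputable def CTs : ℕ → List St → (BV T.V W.V → ZMod 2) → ZMod 2
  | 0, _, _ => 0
  | n + 1, N, z => ∑ i ∈ range (T.nI (k - wt T k N)), CTs n (St.s i :: N) z +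
      ∑ j ∈ range (T.nJ (k - wt T k N)),
        (Cg S F.f N j z * Tf S F N j z + CTs n (St.p j :: N) z)

theorem key_id {N : List St} {j : ℕ} (hN : N ∈ S.Vd) (hj : j < T.nJ (k - wt T k N))
    (z : BV T.V W.V → ZMod 2) : F.f (St.p j :: N) z =
      Cg S F.f N j z * Tf S F N j z + F.f N z * (Qn T k N j z * Qn' T k N j z) := by
  have hm : St.p j :: N ∈ S.Vd := (S.mem_p N j).2 ⟨hN, hj⟩
  rw [F.f_p N j hm]
  unfold Tf Rho
  by_cases hc : S.cut N j
  · rw [if_pos hc, if_pos hc]; ring
  · rw [if_neg hc, if_neg hc, F.f_t N j ((S.mem_t N j).2 ⟨hN, hj, hc⟩)]; ring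

theorem hom_PhiT (hk : 2 ≤ k) (hga : GaOK S W ga) : ∀ (n : ℕ) (N : List St), N ∈ S.Vd →
    Hom (fun _ => True) k (PhiT S F n N) := by
  intro n
  induction n with
  | zero => intro N _; exact Hom.zero _ _
  | succ n ih =>
    intro N hN
    refine Hom.add (Hom.add (hom_fG hk hga F N hN) ?_) ?_
    · exact Hom.sum _ (fun i hi => ih _ ((S.mem_s N i).2 ⟨hN, mem_range.1 hi⟩))
    · exact Hom.sum _ (fun j hj => ih _ ((S.mem_p N j).2 ⟨hN, mem_range.1 hj⟩))

/-! ### Output flips -/

theorem Rn_pflip (hk : 2 ≤ k) {N : List St} (hN : N ∈ S.Vd) {i : ℕ}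
    (hi : i < T.nI (k - wt T k N)) (q : List St × Option W.I) (z : BV T.V W.V → ZMod 2) :
    Rn T k N i (pflip (sown W) q z) = Rn T k N i z := by
  have hw := S.wt_lt hk hN
  obtain ⟨u, b⟩ := q
  unfold Rn
  cases b with
  | some b => rw [labz_pflip_some]
  | none =>
    by_cases h : unit N = u
    · rw [labz_pflip_none N u z h, T.invR _ i (by omega) hi]
    · rw [labz_pflip_none' N u z h]

theorem Qn_pflip (hk : 2 ≤ k) {N : List St} (hN : N ∈ S.Vd) {j : ℕ}
    (hj : j < T.nJ (k - wt T k N)) (q : List St × Option W.I) (z : BV T.V W.V → ZMod 2) :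
    Qn T k N j (pflip (sown W) q z) = Qn T k N j z := by
  have hw := S.wt_lt hk hN
  obtain ⟨u, b⟩ := q
  unfold Qn
  cases b with
  | some b => rw [labz_pflip_some]
  | none =>
    by_cases h : unit N = u
    · rw [labz_pflip_none N u z h, T.invQ _ j (by omega) hj]
    · rw [labz_pflip_none' N u z h]

theorem Qn'_pflip (hk : 2 ≤ k) {N : List St} (hN : N ∈ S.Vd) {j : ℕ}
    (hj : j < T.nJ (k - wt T k N)) (q : List St × Option W.I) (z : BV T.V W.V → ZMod 2) :
    Qn' T k N j (pflip (sown W) q z) = Qn' T k N j z := by
  have hw := S.wt_lt hk hN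
  obtain ⟨u, b⟩ := q
  unfold Qn'
  cases b with
  | some b => rw [labz_pflip_some]
  | none =>
    by_cases h : unit N = u
    · rw [labz_pflip_none N u z h, T.invQ' _ j (by omega) hj]
    · rw [labz_pflip_none' N u z h]

/-- The used outputs of the masks. -/
def okq (W : WSys k) (q : List St × Option W.I) : Prop := ∀ b, q.2 = some b → b ∈ W.U

theorem Mk_pflip (hga : GaOK S W ga) {u : List St} (hu : u ∈ S.Vd) (hu1 : unit u = u)
    (hu2 : u ≠ []) (q : List St × Option W.I) (hq : okq W q) (z : BV T.V W.V → ZMod 2) :
    Mk W ga u (pflip (sown W) q z) = Mk W ga u z := by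
  obtain ⟨v, b⟩ := q
  unfold Mk
  cases b with
  | none => rw [mskz_pflip_none]
  | some b =>
    by_cases h : u = v
    · subst h
      rw [mskz_pflip_some, W.flipf _ (hga u hu hu1 hu2).1 b (hq b rfl)]
    · rw [mskz_pflip_some' u v b z h]

theorem f_pflip (hk : 2 ≤ k) (hga : GaOK S W ga) (q : List St × Option W.I) (hq : okq W q)
    (z : BV T.V W.V → ZMod 2) : ∀ N ∈ S.Vd, F.f N (pflip (sown W) q z) = F.f N z :=
  forms_congr S hk F (root_pflip q z) (fun N hN i hi => Rn_pflip S hk hN hi q z)
    (fun N hN j hj => Qn_pflip S hk hN hj q z) (fun N hN j hj => Qn'_pflip S hk hN hj q z)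
    (fun u hu h1 h2 => Mk_pflip S hga hu h1 h2 q hq z)

theorem CT_pflip (hk : 2 ≤ k) (hga : GaOK S W ga) (q : List St × Option W.I) (hq : okq W q)
    (z : BV T.V W.V → ZMod 2) {N : List St} (hN : N ∈ S.Vd) {j : ℕ}
    (hj : j < T.nJ (k - wt T k N)) :
    Cg S F.f N j (pflip (sown W) q z) * Tf S F N j (pflip (sown W) q z) =
      Cg S F.f N j z * Tf S F N j z := by
  unfold Cg Tf
  by_cases hc : S.cut N j
  · have c := cn_mem S hN hj hc
    rw [if_pos hc, if_pos hc, if_pos hc, if_pos hc, f_pflip S F hk hga q hq z _ c.1.1,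
      f_pflip S F hk hga q hq z _ c.2.1, Qn'_pflip S hk hN hj]
  · rw [if_neg hc, if_neg hc, if_neg hc, if_neg hc,
      f_pflip S F hk hga q hq z _ ((S.mem_c N j).2 ⟨hN, hj, hc⟩),
      f_pflip S F hk hga q hq z _ ((S.mem_t N j).2 ⟨hN, hj, hc⟩)]

/-- Congruence of `CTs`. -/
theorem CTs_congr {z z' : BV T.V W.V → ZMod 2} {u : List St}
    (h : ∀ M ∈ S.Vd, unit M = u → ∀ j, j < T.nJ (k - wt T k M) →
      Cg S F.f M j z' * Tf S F M j z' = Cg S F.f M j z * Tf S F M j z) :
    ∀ (n : ℕ) (N : List St), N ∈ S.Vd → unit N = u → CTs S F n N z' = CTs S F n N z := by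
  intro n
  induction n with
  | zero => intro N _ _; rfl
  | succ n ih =>
    intro N hN hu
    simp only [CTs]
    congr 1
    · refine Finset.sum_congr rfl (fun i hi => ?_)
      exact ih _ ((S.mem_s N i).2 ⟨hN, mem_range.1 hi⟩) hu
    · refine Finset.sum_congr rfl (fun j hj => ?_)
      rw [h N hN hu j (mem_range.1 hj),
        ih _ ((S.mem_p N j).2 ⟨hN, mem_range.1 hj⟩) hu]

/-- Flip by a strong output. -/
theorem PhiT_pflip_none (hk : 2 ≤ k) (hga : GaOK S W ga) (u : List St)
    (z : BV T.V W.V → ZMod 2) : ∀ (n : ℕ) (N : List St), N ∈ S.Vd → k ≤ wt T k N + n →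
    PhiT S F n N (pflip (sown W) (u, none) z) = PhiT S F n N z +
      if unit N = u then F.f N z + CTs S F n N z else 0 := by
  have hq : okq W (u, none) := fun b hb => by simp at hb
  intro n
  induction n with
  | zero =>
    intro N hN hn
    have := S.wt_lt hk hN
    omega
  | succ n ih =>
    intro N hN hn
    have hw := S.wt_lt hk hN
    have hs : ∀ i ∈ range (T.nI (k - wt T k N)),
        PhiT S F n (St.s i :: N) (pflip (sown W) (u, none) z) =
          PhiT S F n (St.s i :: N) z +
            if unit N = u then F.f N z * Rn T k N i z + CTs S F n (St.s i :: N) z else 0 := by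
      intro i hi
      have hm : St.s i :: N ∈ S.Vd := (S.mem_s N i).2 ⟨hN, mem_range.1 hi⟩
      have h2 := S.wt_s hk hm
      rw [ih _ hm (by omega), F.f_s N i hm]
      rfl
    have hp : ∀ j ∈ range (T.nJ (k - wt T k N)),
        PhiT S F n (St.p j :: N) (pflip (sown W) (u, none) z) =
          PhiT S F n (St.p j :: N) z +
            if unit N = u then (Cg S F.f N j z * Tf S F N j z +
              F.f N z * (Qn T k N j z * Qn' T k N j z)) + CTs S F n (St.p j :: N) z else 0 := by
      intro j hj
      have hm : St.p j :: N ∈ S.Vd := (S.mem_p N j).2 ⟨hN, mem_range.1 hj⟩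
      have h2 := S.wt_p hk hm
      rw [ih _ hm (by omega), key_id S F hN (mem_range.1 hj)]
      rfl
    simp only [PhiT, CTs]
    rw [Finset.sum_congr rfl hs, Finset.sum_congr rfl hp,
      f_pflip S F hk hga (u, none) hq z N hN]
    by_cases h : unit N = u
    · have hG : Gn T k N (pflip (sown W) (u, none) z) = Gn T k N z +
          (1 + ∑ i ∈ range (T.nI (k - wt T k N)), Rn T k N i z +
            ∑ j ∈ range (T.nJ (k - wt T k N)), Qn T k N j z * Qn' T k N j z) := by
        unfold Gn
        rw [labz_pflip_none N u z h, T.key _ (by omega)]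
        rfl
      simp only [if_pos h]
      rw [hG]
      simp only [Finset.sum_add_distrib, ← Finset.mul_sum]
      have e1 := z2_add_self (F.f N z * ∑ i ∈ range (T.nI (k - wt T k N)), Rn T k N i z)
      have e2 := z2_add_self (F.f N z * ∑ j ∈ range (T.nJ (k - wt T k N)),
        Qn T k N j z * Qn' T k N j z)
      linear_combination e1 + e2
    · have hG : Gn T k N (pflip (sown W) (u, none) z) = Gn T k N z := by
        unfold Gn
        rw [labz_pflip_none' N u z h]
      simp only [if_neg h, add_zero]
      rw [hG]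

/-- Flip by an output of a copy. -/
theorem PhiT_pflip_some (hk : 2 ≤ k) (hga : GaOK S W ga) (u : List St) (b : W.I) (hb : b ∈ W.U)
    (z : BV T.V W.V → ZMod 2) : ∀ (n : ℕ) (N : List St), N ∈ S.Vd →
    PhiT S F n N (pflip (sown W) (u, some b) z) = PhiT S F n N z := by
  have hq : okq W (u, some b) := fun b' hb' => by
    simp only [Option.some.injEq] at hb'
    exact hb' ▸ hb
  intro n
  induction n with
  | zero => intro N _; rfl
  | succ n ih =>
    intro N hN
    simp only [PhiT]
    have hG : Gn T k N (pflip (sown W) (u, some b) z) = Gn T k N z := by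
      unfold Gn
      rw [labz_pflip_some]
    rw [f_pflip S F hk hga (u, some b) hq z N hN, hG]
    congr 1
    · congr 1
      refine Finset.sum_congr rfl (fun i hi => ih _ ((S.mem_s N i).2 ⟨hN, mem_range.1 hi⟩))
    · refine Finset.sum_congr rfl (fun j hj => ih _ ((S.mem_p N j).2 ⟨hN, mem_range.1 hj⟩))

/-! ### Strong decoding -/

theorem length_le {N : List St} (hN : N ∈ S.Vd) : N.length ≤ S.Vd.sup List.length :=
  Finset.le_sup (f := List.length) hN

theorem strong_dec {z z' : BV T.V W.V → ZMod 2}
    (h : ∀ u ∈ S.Vd, unit u = u → F.f u z' + CTs S F k u z' = F.f u z + CTs S F k u z) :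
    ∀ (m : ℕ) (u : List St), u ∈ S.Vd → unit u = u → S.Vd.sup List.length < u.length + m →
      (∀ b A, St.t b :: A <:+ u → F.f (St.c b :: A) z' = 1 ∧ F.f (St.c b :: A) z = 1) →
      F.f u z' = F.f u z := by
  intro m
  induction m with
  | zero =>
    intro u hu _ hm _
    have := length_le S hu
    omega
  | succ m ih =>
    intro u hu hu1 hm hT
    have hCT : CTs S F k u z' = CTs S F k u z := by
      refine CTs_congr S F (u := u) ?_ k u hu hu1
      intro M hM hMu j hj
      have hMl : u.length ≤ M.length := by rw [← hMu]; exact (unit_suffix M).length_le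
      unfold Cg Tf
      by_cases hc : S.cut M j
      · have c := cn_mem S hM hj hc
        have t0 := suffix_unit.1 c.1.2.2
        have t1 := suffix_unit.1 c.2.2.2
        rw [hMu] at t0 t1
        have k0 := hT _ _ t0
        have k1 := hT _ _ t1
        simp only [if_pos hc]
        unfold cn
        rw [k0.1, k0.2, k1.1, k1.2, z2_add_self]
        ring
      · have hcm : St.c j :: M ∈ S.Vd := (S.mem_c M j).2 ⟨hM, hj, hc⟩
        have htm : St.t j :: M ∈ S.Vd := (S.mem_t M j).2 ⟨hM, hj, hc⟩
        have e1 : F.f (St.c j :: M) z' = F.f (St.c j :: M) z := by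
          refine ih _ hcm rfl (by simp only [List.length_cons]; omega) ?_
          intro b A hb
          rcases List.suffix_cons_iff.1 hb with hb | hb
          · cases hb
          · exact hT b A (hMu ▸ suffix_unit.1 hb)
        simp only [if_neg hc]
        by_cases h0 : F.f (St.c j :: M) z = 0
        · rw [e1, h0]; ring
        · have h1 := z2_eq_one h0
          have e2 : F.f (St.t j :: M) z' = F.f (St.t j :: M) z := by
            refine ih _ htm rfl (by simp only [List.length_cons]; omega) ?_
            intro b A hb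
            rcases List.suffix_cons_iff.1 hb with hb | hb
            · obtain ⟨e3, e4⟩ := List.cons.inj hb
              cases e3; subst e4
              exact ⟨e1.trans h1, h1⟩
            · exact hT b A (hMu ▸ suffix_unit.1 hb)
          rw [e1, e2]
    have := h u hu hu1
    rw [hCT] at this
    exact add_right_cancel this

/-! ### Weak decoding -/

theorem weak_dec {z z' : BV T.V W.V → ZMod 2} (hL : ∀ N, labz N z' = labz N z)
    (h : ∀ u ∈ S.Vd, unit u = u → F.f u z' + CTs S F k u z' = F.f u z + CTs S F k u z) :
    ∀ (m : ℕ) (u : List St), u ∈ S.Vd → unit u = u → S.Vd.sup List.length < u.length + m →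
      (∀ b A, St.t b :: A <:+ u → F.f (St.c b :: A) z' = F.f (St.c b :: A) z) →
      F.f u z' = F.f u z := by
  intro m
  induction m with
  | zero =>
    intro u hu _ hm _
    have := length_le S hu
    omega
  | succ m ih =>
    intro u hu hu1 hm hT
    have hCT : CTs S F k u z' = CTs S F k u z := by
      refine CTs_congr S F (u := u) ?_ k u hu hu1
      intro M hM hMu j hj
      have hMl : u.length ≤ M.length := by rw [← hMu]; exact (unit_suffix M).length_le
      unfold Cg Tf
      by_cases hc : S.cut M j
      · have c := cn_mem S hM hj hc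
        have t0 := suffix_unit.1 c.1.2.2
        have t1 := suffix_unit.1 c.2.2.2
        rw [hMu] at t0 t1
        have k0 := hT _ _ t0
        have k1 := hT _ _ t1
        simp only [if_pos hc]
        unfold cn Qn'
        rw [k0, k1, hL]
      · have hcm : St.c j :: M ∈ S.Vd := (S.mem_c M j).2 ⟨hM, hj, hc⟩
        have htm : St.t j :: M ∈ S.Vd := (S.mem_t M j).2 ⟨hM, hj, hc⟩
        have e1 : F.f (St.c j :: M) z' = F.f (St.c j :: M) z := by
          refine ih _ hcm rfl (by simp only [List.length_cons]; omega) ?_
          intro b A hb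
          rcases List.suffix_cons_iff.1 hb with hb | hb
          · cases hb
          · exact hT b A (hMu ▸ suffix_unit.1 hb)
        simp only [if_neg hc]
        have e2 : F.f (St.t j :: M) z' = F.f (St.t j :: M) z := by
          refine ih _ htm rfl (by simp only [List.length_cons]; omega) ?_
          intro b A hb
          rcases List.suffix_cons_iff.1 hb with hb | hb
          · obtain ⟨e3, e4⟩ := List.cons.inj hb
            cases e3; subst e4
            exact e1
          · exact hT b A (hMu ▸ suffix_unit.1 hb)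
        rw [e1, e2]
    have := h u hu hu1
    rw [hCT] at this
    exact add_right_cancel this

theorem weak_c {z z' : BV T.V W.V → ZMod 2} (hL : ∀ N, labz N z' = labz N z)
    (h : ∀ u ∈ S.Vd, unit u = u → F.f u z' + CTs S F k u z' = F.f u z + CTs S F k u z) :
    ∀ (n : ℕ) (N : List St), N.length ≤ n → ∀ b, St.c b :: N ∈ S.Vd →
      F.f (St.c b :: N) z' = F.f (St.c b :: N) z := by
  intro n
  induction n with
  | zero =>
    intro N hN b hb
    have hN0 : N = [] := List.eq_nil_of_length_eq_zero (by omega)
    subst hN0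
    refine weak_dec S F hL h (S.Vd.sup List.length + 1) _ hb rfl (by omega) ?_
    intro a A hA
    have := hA.length_le
    rcases List.suffix_cons_iff.1 hA with hA | hA
    · cases hA
    · have := hA.length_le
      simp only [List.length_cons, List.length_nil] at this; omega
  | succ n ih =>
    intro N hN b hb
    refine weak_dec S F hL h (S.Vd.sup List.length + 1) _ hb rfl (by omega) ?_
    intro a A hA
    rcases List.suffix_cons_iff.1 hA with hA | hA
    · cases hA
    · have h1 := hA.length_le
      simp only [List.length_cons] at h1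
      have h2 : St.t a :: A ∈ S.Vd := S.suffix (S.tail hb) hA
      exact ih A (by omega) a ((S.mem_c _ _).2 ((S.mem_t _ _).1 h2))

theorem weak_unit {z z' : BV T.V W.V → ZMod 2} (hL : ∀ N, labz N z' = labz N z)
    (h : ∀ u ∈ S.Vd, unit u = u → F.f u z' + CTs S F k u z' = F.f u z + CTs S F k u z)
    (u : List St) (hu : u ∈ S.Vd) (hu1 : unit u = u) : F.f u z' = F.f u z := by
  refine weak_dec S F hL h (S.Vd.sup List.length + 1) u hu hu1 (by omega) ?_
  intro b A hA
  have h2 : St.t b :: A ∈ S.Vd := S.suffix hu hA
  exact weak_c S F hL h _ A le_rfl b ((S.mem_c _ _).2 ((S.mem_t _ _).1 h2))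

theorem weak_all {z z' : BV T.V W.V → ZMod 2} (hL : ∀ N, labz N z' = labz N z)
    (h : ∀ u ∈ S.Vd, unit u = u → F.f u z' + CTs S F k u z' = F.f u z + CTs S F k u z) :
    ∀ N : List St, N ∈ S.Vd → F.f N z' = F.f N z := by
  intro N
  induction N with
  | nil => intro hN; exact weak_unit S F hL h _ hN rfl
  | cons x N ih =>
    intro hN
    cases x with
    | c j => exact weak_unit S F hL h _ hN rfl
    | t j => exact weak_unit S F hL h _ hN rfl
    | s i =>
      have h1 := (S.mem_s N i).1 hN
      rw [F.f_s N i hN, F.f_s N i hN, ih h1.1]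
      unfold Rn
      rw [hL]
    | p j =>
      have h1 := (S.mem_p N j).1 hN
      rw [key_id S F h1.1 h1.2, key_id S F h1.1 h1.2, ih h1.1]
      have hQ : Qn T k N j z' = Qn T k N j z := by unfold Qn; rw [hL]
      have hQ' : Qn' T k N j z' = Qn' T k N j z := by unfold Qn'; rw [hL]
      rw [hQ, hQ']
      congr 1
      unfold Cg Tf
      by_cases hc : S.cut N j
      · have c := cn_mem S h1.1 h1.2 hc
        simp only [if_pos hc]
        rw [weak_unit S F hL h _ c.1.1 rfl, weak_unit S F hL h _ c.2.1 rfl, hQ']
      · simp only [if_neg hc]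
        rw [weak_unit S F hL h _ ((S.mem_c N j).2 ⟨h1.1, h1.2, hc⟩) rfl,
          weak_unit S F hL h _ ((S.mem_t N j).2 ⟨h1.1, h1.2, hc⟩) rfl]

theorem weak_Mk {z z' : BV T.V W.V → ZMod 2} (hL : ∀ N, labz N z' = labz N z)
    (h : ∀ u ∈ S.Vd, unit u = u → F.f u z' + CTs S F k u z' = F.f u z + CTs S F k u z)
    (u : List St) (hu : u ∈ S.Vd) (hu1 : unit u = u) (hu2 : u ≠ []) :
    Mk W ga u z' = Mk W ga u z := by
  have hall := weak_all S F hL h
  have hQ : ∀ N j, Qn T k N j z' = Qn T k N j z := by intro N j; unfold Qn; rw [hL]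
  have hQ' : ∀ N j, Qn' T k N j z' = Qn' T k N j z := by intro N j; unfold Qn'; rw [hL]
  rcases u with _ | ⟨x, N⟩
  · exact absurd rfl hu2
  · cases x with
    | s i => exact absurd hu1 (fun e => by
        have := congrArg List.length e
        have h3 := (unit_suffix N).length_le
        simp only [unit, List.length_cons] at this; omega)
    | p i => exact absurd hu1 (fun e => by
        have := congrArg List.length e
        have h3 := (unit_suffix N).length_le
        simp only [unit, List.length_cons] at this; omega)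
    | t j =>
      have e := hall _ hu
      rw [F.f_t N j hu, F.f_t N j hu, hQ'] at e
      exact add_left_cancel e
    | c j =>
      have e := hall _ hu
      have h1 := (S.mem_c N j).1 hu
      have hD : ∑ e ∈ S.Dep N j, F.f e.1 z' * Qn T k e.1 e.2 z' =
          ∑ e ∈ S.Dep N j, F.f e.1 z * Qn T k e.1 e.2 z := by
        refine Finset.sum_congr rfl (fun e he => ?_)
        obtain ⟨⟨e1, e2⟩, e3, e4⟩ := (S.mem_Dep N j e).1 he
        rw [hall _ e1, hQ]
      rw [F.f_c N j hu, F.f_c N j hu, hQ, hall N h1.1, hD] at e
      exact add_left_cancel (add_right_cancel e)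

/-! ### The flip system -/

/-- The units `≠ []`. -/
def units : Finset (List St) := S.Vd.filter (fun u => unit u = u ∧ u ≠ [])

/-- All units. -/
def units0 : Finset (List St) := S.Vd.filter (fun u => unit u = u)

theorem mem_units {u : List St} : u ∈ units S ↔ u ∈ S.Vd ∧ unit u = u ∧ u ≠ [] := by
  unfold units; rw [Finset.mem_filter]

theorem mem_units0 {u : List St} : u ∈ units0 S ↔ u ∈ S.Vd ∧ unit u = u := by
  unfold units0; rw [Finset.mem_filter]

theorem card_units0 : (units0 S).card = (units S).card + 1 := by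
  have h : units0 S = insert [] (units S) := by
    ext u
    rw [Finset.mem_insert, mem_units, mem_units0]
    constructor
    · rintro ⟨h1, h2⟩
      by_cases h : u = []
      · exact Or.inl h
      · exact Or.inr ⟨h1, h2, h⟩
    · rintro (rfl | ⟨h1, h2, _⟩)
      · exact ⟨S.nil, rfl⟩
      · exact ⟨h1, h2⟩
  rw [h, Finset.card_insert_of_notMem]
  rw [mem_units]
  rintro ⟨_, _, h⟩
  exact h rfl

variable (W ga)

/-- The used data. -/
def UE : Finset (List St × W.I) := units S ×ˢ W.U

/-- The outputs of the copies which remain. -/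
def UQ : Finset (List St × W.I) := (units S ×ˢ W.U) \ (units S).image (fun u => (u, ga u))

/-- The used outputs. -/
def UP : Finset (List St × Option W.I) :=
  (units0 S).image (fun u => (u, none)) ∪ (UQ S W ga).image (fun x => (x.1, some x.2))

theorem mem_UP_none {u : List St} : (u, none) ∈ UP S W ga ↔ u ∈ S.Vd ∧ unit u = u := by
  unfold UP
  rw [Finset.mem_union, Finset.mem_image, Finset.mem_image]
  constructor
  · rintro (⟨v, hv, he⟩ | ⟨x, hx, he⟩)
    · simp only [Prod.mk.injEq, and_true] at he
      subst he
      exact (mem_units0 S).1 hv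
    · simp at he
  · intro h
    exact Or.inl ⟨u, (mem_units0 S).2 h, rfl⟩

theorem mem_UP_some {u : List St} {b : W.I} : (u, some b) ∈ UP S W ga ↔
    (u ∈ S.Vd ∧ unit u = u ∧ u ≠ []) ∧ b ∈ W.U ∧ b ≠ ga u := by
  unfold UP UQ
  rw [Finset.mem_union, Finset.mem_image, Finset.mem_image]
  constructor
  · rintro (⟨v, hv, he⟩ | ⟨x, hx, he⟩)
    · simp at he
    · simp only [Prod.mk.injEq, Option.some.injEq] at he
      obtain ⟨rfl, rfl⟩ := he
      rw [Finset.mem_sdiff, Finset.mem_product, Finset.mem_image] at hx
      refine ⟨(mem_units S).1 hx.1.1, hx.1.2, fun e => hx.2 ⟨x.1, hx.1.1, ?_⟩⟩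
      rw [← e]
  · rintro ⟨h1, h2, h3⟩
    refine Or.inr ⟨(u, b), ?_, rfl⟩
    rw [Finset.mem_sdiff, Finset.mem_product, Finset.mem_image]
    refine ⟨⟨(mem_units S).2 h1, h2⟩, ?_⟩
    rintro ⟨v, hv, he⟩
    simp only [Prod.mk.injEq] at he
    obtain ⟨rfl, rfl⟩ := he
    exact h3 rfl

theorem card_UP (hga : GaOK S W ga) : (UP S W ga).card = (UE S W).card + 1 := by
  have hsub : (units S).image (fun u => (u, ga u)) ⊆ units S ×ˢ W.U := by
    intro x hx
    obtain ⟨u, hu, rfl⟩ := Finset.mem_image.1 hx
    have h1 := (mem_units S).1 hu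
    exact Finset.mem_product.2 ⟨hu, (hga u h1.1 h1.2.1 h1.2.2).1⟩
  have hc : ((units S).image (fun u => (u, ga u))).card = (units S).card :=
    Finset.card_image_of_injective _ (fun a b h => (Prod.mk.injEq _ _ _ _ ▸ h).1)
  have hQ : (UQ S W ga).card = (UE S W).card - (units S).card := by
    unfold UQ UE
    rw [Finset.card_sdiff_of_subset hsub, hc]
  have hle : (units S).card ≤ (UE S W).card := by
    rw [← hc]; exact Finset.card_le_card hsub
  unfold UP
  rw [Finset.card_union_of_disjoint, Finset.card_image_of_injective,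
    Finset.card_image_of_injective, card_units0, hQ]
  · omega
  · intro a b h
    simp only [Prod.mk.injEq, Option.some.injEq] at h
    exact Prod.ext h.1 h.2
  · intro a b h
    simp only [Prod.mk.injEq, and_true] at h
    exact h
  · rw [Finset.disjoint_left]
    intro x hx hx'
    obtain ⟨u, _, rfl⟩ := Finset.mem_image.1 hx
    obtain ⟨y, _, hy⟩ := Finset.mem_image.1 hx'
    simp at hy

variable {W ga}

/-- The function of an output. -/
noncomputable def sPhi (q : List St × Option W.I) (z : BV T.V W.V → ZMod 2) : ZMod 2 :=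
  match q.2 with
  | none => PhiT S F k q.1 z
  | some b => W.Phi b (mskz q.1 z)

/-- The value of an output. -/
noncomputable def sPi (q : List St × Option W.I) (z : BV T.V W.V → ZMod 2) : ZMod 2 :=
  match q.2 with
  | none => F.f q.1 z + CTs S F k q.1 z
  | some b => W.Pi b (mskz q.1 z)

/-- The strong flip system. -/
noncomputable def sPre (hk : 2 ≤ k) (hga : GaOK S W ga) : Pre k where
  V := BV T.V W.V
  E := List St × W.I
  P := List St × Option W.I
  own := sown W
  UE := UE S W
  UP := UP S W ga
  v0 := BV.root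
  own0 := rfl
  Phi := sPhi S F
  Pi := sPi S F
  hom := by
    rintro ⟨u, b⟩ hp
    cases b with
    | none => exact hom_PhiT S F hk hga k u ((mem_UP_none S W ga).1 hp).1
    | some b =>
      have h := (mem_UP_some S W ga).1 hp
      exact (W.homPhi b h.2.1).comp (fun v => BV.msk u v) (fun a b h => (BV.msk.inj h).2)
        (fun _ _ => trivial)
  flip := by
    rintro ⟨u, b⟩ hp ⟨u', b'⟩ hq z
    cases b with
    | none =>
      have h := (mem_UP_none S W ga).1 hp
      cases b' with
      | none =>
        have := PhiT_pflip_none S F hk hga u' z k u h.1 (by omega)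
        simp only [sPhi, sPi]
        rw [this, h.2]
        by_cases e : u = u'
        · subst e; simp
        · rw [if_neg e, if_neg (fun h => e (Prod.ext_iff.1 h).1)]
      | some b' =>
        have h' := (mem_UP_some S W ga).1 hq
        simp only [sPhi, sPi]
        rw [PhiT_pflip_some S F hk hga u' b' h'.2.1 z k u h.1]
        simp
    | some b =>
      have h := (mem_UP_some S W ga).1 hp
      cases b' with
      | none =>
        simp only [sPhi, sPi]
        rw [mskz_pflip_none]
        simp
      | some b' =>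
        have h' := (mem_UP_some S W ga).1 hq
        simp only [sPhi, sPi]
        by_cases e : u = u'
        · subst e
          rw [mskz_pflip_some, W.flipPhi b h.2.1 b' h'.2.1]
          congr 1
          by_cases e2 : b = b'
          · subst e2; simp
          · rw [if_neg e2, if_neg (fun h => e2 (by simpa using h))]
        · rw [mskz_pflip_some' u u' b' z e, if_neg (fun h => e (Prod.ext_iff.1 h).1), add_zero]
  flipPi := by
    rintro ⟨u, b⟩ hp ⟨u', b'⟩ hq z
    cases b with
    | none =>
      have h := (mem_UP_none S W ga).1 hp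
      have hok : okq W (u', b') := by
        intro c hc
        simp only at hc
        subst hc
        exact ((mem_UP_some S W ga).1 hq).2.1
      simp only [sPi]
      rw [f_pflip S F hk hga (u', b') hok z u h.1]
      congr 1
      exact CTs_congr S F (u := u)
        (fun M hM _ j hj => CT_pflip S F hk hga (u', b') hok z hM hj) k u h.1 h.2
    | some b =>
      have h := (mem_UP_some S W ga).1 hp
      cases b' with
      | none =>
        simp only [sPi]
        rw [mskz_pflip_none]
      | some b' =>
        have h' := (mem_UP_some S W ga).1 hq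
        simp only [sPi]
        by_cases e : u = u'
        · subst e
          rw [mskz_pflip_some, W.flipPi b h.2.1 b' h'.2.1]
        · rw [mskz_pflip_some' u u' b' z e]
  dec1 := by
    intro z z' h
    have h1 : ∀ u ∈ S.Vd, unit u = u → F.f u z' + CTs S F k u z' = F.f u z + CTs S F k u z :=
      fun u hu hu1 => (h (u, none) ((mem_UP_none S W ga).2 ⟨hu, hu1⟩)).symm
    have h2 := strong_dec S F h1 (S.Vd.sup List.length + 1) [] S.nil rfl (by omega) (by
      intro b A hA
      have := hA.length_le
      simp only [List.length_cons, List.length_nil] at this; omega)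
    rw [F.f_nil, F.f_nil] at h2
    exact h2.symm
  dec2 := by
    intro z d hd h
    have hL : ∀ N, labz N (dflip (sown W) d z) = labz N z := fun N => labz_dflip N d z
    have h1 : ∀ u ∈ S.Vd, unit u = u →
        F.f u (dflip (sown W) d z) + CTs S F k u (dflip (sown W) d z) =
          F.f u z + CTs S F k u z :=
      fun u hu hu1 => h (u, none) ((mem_UP_none S W ga).2 ⟨hu, hu1⟩)
    funext e
    obtain ⟨u, a⟩ := e
    by_cases hu : u ∈ units S
    · have hu' := (mem_units S).1 hu
      have hM := weak_Mk S F hL h1 u hu'.1 hu'.2.1 hu'.2.2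
      unfold Mk at hM
      rw [mskz_dflip] at hM
      have hdec := W.dec (mskz u z) (fun a => d (u, a)) (by
        intro a ha
        apply hd
        unfold UE
        rw [Finset.mem_product]
        exact fun h => ha h.2) (by
        intro b hb
        by_cases e : b = ga u
        · subst e; exact Or.inl hM
        · right
          have := h (u, some b) ((mem_UP_some S W ga).2 ⟨hu', hb, e⟩)
          simp only [sPi] at this
          rw [mskz_dflip] at this
          exact this)
      exact congrFun hdec a
    · apply hd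
      unfold UE
      rw [Finset.mem_product]
      exact fun h => hu h.1
  card_eq := card_UP S W ga hga

end

end SOut

/-- The strong flip system of a rule, a weak system and a family of forms. -/
theorem SOut.exists_pre {T : TF} {k : ℕ} (hk : 2 ≤ k) (S : RefSys T k) (W : WSys k)
    (ga : List St → W.I) (hga : GaOK S W ga) (F : Forms S W ga) :
    ∃ (X : Pre k) (n : ℕ), X.UE.card = n * W.U.card :=
  ⟨SOut.sPre S F hk hga, (SOut.units S).card, Finset.card_product _ _⟩

end Pool.Agent.HBA
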