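import Mathlib
import Pool.Agent.Lib.HBA.SOut
import Pool.Agent.Lib.HBA.FormEx

set_option autoImplicit false

/-!
# HBA.Pre2 : the flip system of the strong tree (from SOut.lean by helper62)
-/

namespace Pool.Agent.HBA

open Finset Pool.Agent.P47443c

theorem exists_pre2 {k : ℕ} (hk : 2 ≤ k) (T : TF) (S : RefSys T k) (W : WSys k) :
    ∃ X : Pre k, ∃ n : ℕ, X.UP.card = n * W.U.card + 1 ∧ X.UE.card = n * W.U.card := by
  classical
  obtain ⟨a1, ha1, -⟩ := W.surj 1 le_rfl (by omega)
  let ga : List St → W.I := fun u =>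
    if h : 1 ≤ wt T k u ∧ wt T k u < k then (W.surj (wt T k u) h.1 h.2).choose else a1
  have hga : GaOK S W ga := by
    intro u hu _ _
    have h := S.wt_lt hk hu
    have h2 := (W.surj (wt T k u) h.1 h.2).choose_spec
    have h3 : ga u = (W.surj (wt T k u) h.1 h.2).choose := dif_pos h
    rw [h3]
    exact h2
  obtain ⟨F⟩ := exists_forms hk S W ga
  obtain ⟨X, n, hX⟩ := SOut.exists_pre hk S W ga hga F
  exact ⟨X, n, by rw [X.card_eq, hX], hX⟩

end Pool.Agent.HBA
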