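import Mathlib
import Pool.Agent.Lib.HBA.Defs

set_option autoImplicit false

/-!
# The rule of the strong tree (section 3 of `HB_all_proof.md`): pure combinatorics of addresses
-/

namespace Pool.Agent.HBA

/-- Index of a step. -/
def St.idx : St → ℕ
  | .s i => i
  | .p i => i
  | .c i => i
  | .t i => i

/-- A number attached to a step, injectively. -/
def St.num : St → ℕ
  | .s i => 4 * i
  | .p i => 4 * i + 1
  | .c i => 4 * i + 2
  | .t i => 4 * i + 3

theorem St.num_inj : Function.Injective St.num := by
  intro a b h
  cases a <;> cases b <;> simp only [St.num] at h <;> first | (congr 1; omega) | omega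

end Pool.Agent.HBA

namespace Pool.Agent.HBA.Rule

/-- The numerical data of the two-fold identities (`D ≤ k`). -/
structure Num where
  nR : ℕ → ℕ
  r : ℕ → ℕ → ℕ
  nQ : ℕ → ℕ
  q : ℕ → ℕ → ℕ
  q' : ℕ → ℕ → ℕ
  r_pos : ∀ D i, i < nR D → 1 ≤ r D i
  r_lt : ∀ D i, i < nR D → r D i < D
  q_pos : ∀ D j, j < nQ D → 1 ≤ q D j
  q'_pos : ∀ D j, j < nQ D → 1 ≤ q' D j
  q_lt : ∀ D j, j < nQ D → q D j + q' D j < D

/-- Code of a list of steps. -/
def code (l : List St) : ℕ := Encodable.encode (l.map St.num)

theorem code_inj : Function.Injective code := by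
  intro a b h
  exact (List.map_injective_iff.2 St.num_inj) (Encodable.encode_injective h)

theorem finite_lists (B n : ℕ) : {l : List St | l.length ≤ n ∧ ∀ x ∈ l, x.idx < B}.Finite := by
  classical
  have hS : {x : St | x.idx < B}.Finite := by
    have : {x : St | x.idx < B} ⊆ ((Set.Iio B).image St.s ∪ (Set.Iio B).image St.p) ∪
        ((Set.Iio B).image St.c ∪ (Set.Iio B).image St.t) := by
      intro x hx
      cases x with
      | s i => exact Or.inl (Or.inl ⟨i, hx, rfl⟩)
      | p i => exact Or.inl (Or.inr ⟨i, hx, rfl⟩)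
      | c i => exact Or.inr (Or.inl ⟨i, hx, rfl⟩)
      | t i => exact Or.inr (Or.inr ⟨i, hx, rfl⟩)
    refine Set.Finite.subset ?_ this
    exact (((Set.finite_Iio B).image _).union ((Set.finite_Iio B).image _)).union
      (((Set.finite_Iio B).image _).union ((Set.finite_Iio B).image _))
  have : Finite {x : St | x.idx < B} := hS
  have h1 := (List.finite_length_le {x : St | x.idx < B} n).image (List.map Subtype.val)
  refine h1.subset ?_
  rintro l ⟨hl, hx⟩
  refine ⟨l.pmap Subtype.mk hx, ?_, ?_⟩
  · change (l.pmap Subtype.mk hx).length ≤ n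
    rw [List.length_pmap]; exact hl
  · rw [List.map_pmap]; simp

/-- A bound for the codes of the short lists. -/
noncomputable def bd (B n : ℕ) : ℕ :=
  Classical.choose ((finite_lists B n).image code).bddAbove + 1

theorem code_lt_bd (B n : ℕ) (l : List St) (hl : l.length ≤ n) (hB : ∀ x ∈ l, x.idx < B) :
    code l < bd B n := by
  have h := Classical.choose_spec ((finite_lists B n).image code).bddAbove
  have := h ⟨l, ⟨hl, hB⟩, rfl⟩
  unfold bd
  exact Nat.lt_succ_of_le this

section

variable (T : Num) (k : ℕ)

/-- Weight of an address. -/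
def wt : List St → ℕ
  | [] => 1
  | .s i :: N => wt N + T.r (k - wt N) i
  | .p j :: N => wt N + T.q (k - wt N) j + T.q' (k - wt N) j
  | .c j :: N => wt N + T.q (k - wt N) j
  | .t j :: N => T.q' (k - wt N) j

/-- Guard weight of the pair `(N, j)`. -/
def gw (N : List St) (j : ℕ) : ℕ := wt T k N + T.q (k - wt T k N) j

/-- Number of `t`-steps of guard weight `w` in the current `w`-window. -/
def cnt (w : ℕ) : List St → ℕ
  | [] => 0
  | .t j :: N => if gw T k N j < w then 0 else if gw T k N j = w then cnt w N + 1 else cnt w N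
  | .s _ :: N => cnt w N
  | .p _ :: N => cnt w N
  | .c _ :: N => cnt w N

/-- The steps after the last `t`-step of guard weight `≤ w`. -/
def seg (w : ℕ) : List St → List St
  | [] => []
  | .t j :: N => if gw T k N j ≤ w then [] else .t j :: seg w N
  | .s i :: N => .s i :: seg w N
  | .p i :: N => .p i :: seg w N
  | .c i :: N => .c i :: seg w N

/-- The `t`-node suffix of guard weight `w` with `cnt w = n` before it. -/
def anc (w n : ℕ) : List St → List St
  | [] => []
  | .t j :: N => if gw T k N j = w ∧ cnt T k w N = n then .t j :: N else anc w n N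
  | .s _ :: N => anc w n N
  | .p _ :: N => anc w n N
  | .c _ :: N => anc w n N

/-- A bound for the indices. -/
def Bd : ℕ := ∑ D ∈ Finset.range (k + 1), (T.nR D + T.nQ D)

/-- The pair `(L (k - d), M (k - d))`. -/
noncomputable def LM : ℕ → ℕ × ℕ
  | 0 => (k, bd (Bd T k) (k + 1))
  | d + 1 => ((((LM d).2 + 2) * ((LM d).1 + 1)),
      bd (Bd T k) (((LM d).2 + 2) * ((LM d).1 + 1) + 1))

/-- Length bound. -/
noncomputable def Lw (w : ℕ) : ℕ := (LM T k (k - w)).1

/-- Multiplicity bound. -/
noncomputable def Mw (w : ℕ) : ℕ := (LM T k (k - w)).2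

/-- The pair `(N, j)` is cut. -/
def Cut (N : List St) (j : ℕ) : Prop :=
  cnt T k (gw T k N j) N = Mw T k (gw T k N j) + 1

/-- Valid addresses. -/
def Vd : List St → Prop
  | [] => True
  | .s i :: N => Vd N ∧ i < T.nR (k - wt T k N)
  | .p j :: N => Vd N ∧ j < T.nQ (k - wt T k N)
  | .c j :: N => Vd N ∧ j < T.nQ (k - wt T k N) ∧ ¬ Cut T k N j
  | .t j :: N => Vd N ∧ j < T.nQ (k - wt T k N) ∧ ¬ Cut T k N j

/-- The longest suffix which is a `t`-node. -/
def tau : List St → List St
  | [] => []
  | .t j :: N => .t j :: N
  | .s _ :: N => tau N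
  | .p _ :: N => tau N
  | .c _ :: N => tau N

/-- The last `t`-node of weight `w` in the window of a cut pair. -/
noncomputable def a0 (N : List St) (j : ℕ) : List St :=
  anc T k (gw T k N j) (Mw T k (gw T k N j)) N

/-- The private `t`-node of a cut pair. -/
noncomputable def a1 (N : List St) (j : ℕ) : List St :=
  anc T k (gw T k N j) (code (.t j :: seg T k (gw T k N j) N)) N

end

section

variable {T : Num} {k : ℕ}

theorem Vd.tail {x : St} {N : List St} (h : Vd T k (x :: N)) : Vd T k N := by
  cases x <;> exact h.1

theorem Vd.suffix {A N : List St} (h : Vd T k N) (hA : A <:+ N) : Vd T k A := by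
  induction N with
  | nil => rw [List.suffix_nil] at hA; subst hA; exact h
  | cons x N ih =>
    rcases List.suffix_cons_iff.1 hA with rfl | hA
    · exact h
    · exact ih h.tail hA

theorem wt_pos_lt (hk : 2 ≤ k) {N : List St} (h : Vd T k N) : 1 ≤ wt T k N ∧ wt T k N < k := by
  induction N with
  | nil => simp only [wt]; omega
  | cons x N ih =>
    have hN := ih h.tail
    cases x with
    | s i =>
      have h1 := T.r_pos _ _ h.2
      have h2 := T.r_lt _ _ h.2
      simp only [wt]; omega
    | p j =>
      have h1 := T.q_pos _ _ h.2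
      have h2 := T.q_lt _ _ h.2
      simp only [wt]; omega
    | c j =>
      have h1 := T.q_pos _ _ h.2.1
      have h2 := T.q_lt _ _ h.2.1
      simp only [wt]; omega
    | t j =>
      have h1 := T.q'_pos _ _ h.2.1
      have h2 := T.q_lt _ _ h.2.1
      simp only [wt]; omega

/-- The guard weight of a pair with valid index is `> wt N` and `< k - 1`. -/
theorem gw_bounds (hk : 2 ≤ k) {N : List St} (h : Vd T k N) {j : ℕ}
    (hj : j < T.nQ (k - wt T k N)) : wt T k N < gw T k N j ∧ gw T k N j + 1 < k := by
  have h0 := wt_pos_lt hk h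
  have h1 := T.q_pos _ _ hj
  have h2 := T.q_lt _ _ hj
  have h3 := T.q'_pos _ _ hj
  unfold gw; omega

theorem cnt_le {N : List St} (h : Vd T k N) (w : ℕ) : cnt T k w N ≤ Mw T k w + 1 := by
  induction N with
  | nil => simp [cnt]
  | cons x N ih =>
    have hN := ih h.tail
    cases x with
    | s i => exact hN
    | p i => exact hN
    | c i => exact hN
    | t j =>
      simp only [cnt]
      split_ifs with h1 h2
      · omega
      · have h3 := h.2.2
        unfold Cut at h3
        rw [h2] at h3
        omega
      · exact hN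

theorem idx_lt {N : List St} (h : Vd T k N) : ∀ x ∈ N, x.idx < Bd T k := by
  have key : ∀ D i, D ≤ k → (i < T.nR D ∨ i < T.nQ D) → i < Bd T k := by
    intro D i hD hi
    have : T.nR D + T.nQ D ≤ Bd T k :=
      Finset.single_le_sum (f := fun D => T.nR D + T.nQ D) (fun _ _ => Nat.zero_le _)
        (Finset.mem_range.2 (by omega))
    omega
  induction N with
  | nil => intro x hx; simp at hx
  | cons y N ih =>
    intro x hx
    rcases List.mem_cons.1 hx with rfl | hx
    · cases x with
      | s i => exact key _ _ (Nat.sub_le _ _) (Or.inl h.2)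
      | p i => exact key _ _ (Nat.sub_le _ _) (Or.inr h.2)
      | c i => exact key _ _ (Nat.sub_le _ _) (Or.inr h.2.1)
      | t i => exact key _ _ (Nat.sub_le _ _) (Or.inr h.2.1)
    · exact ih h.tail x hx

theorem mem_seg {w : ℕ} {N : List St} {x : St} (hx : x ∈ seg T k w N) : x ∈ N := by
  induction N with
  | nil => simp [seg] at hx
  | cons y N ih =>
    cases y with
    | s i =>
      simp only [seg, List.mem_cons] at hx ⊢
      exact hx.imp id ih
    | p i =>
      simp only [seg, List.mem_cons] at hx ⊢
      exact hx.imp id ih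
    | c i =>
      simp only [seg, List.mem_cons] at hx ⊢
      exact hx.imp id ih
    | t i =>
      simp only [seg] at hx
      split_ifs at hx
      · simp at hx
      · simp only [List.mem_cons] at hx ⊢
        exact hx.imp id ih

theorem Lw_top {w : ℕ} (h : k ≤ w) : Lw T k w = k := by
  unfold Lw; rw [Nat.sub_eq_zero_of_le h]; rfl

theorem Lw_step {w : ℕ} (h : w < k) :
    Lw T k w = (Mw T k (w + 1) + 2) * (Lw T k (w + 1) + 1) := by
  unfold Lw Mw
  have : k - w = (k - (w + 1)) + 1 := by omega
  rw [this]; rfl

theorem Mw_eq (w : ℕ) : Mw T k w = bd (Bd T k) (Lw T k w + 1) := by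
  unfold Lw Mw
  cases h : k - w with
  | zero => rfl
  | succ d => rfl

theorem seg_len_top (hk : 2 ≤ k) {w : ℕ} (hw : k ≤ w) {N : List St} (h : Vd T k N) :
    (seg T k w N).length < wt T k N := by
  induction N with
  | nil => simp [seg, wt]
  | cons x N ih =>
    have hN := ih h.tail
    cases x with
    | s i =>
      have h1 := T.r_pos _ _ h.2
      simp only [seg, wt, List.length_cons]; omega
    | p j =>
      have h1 := T.q_pos _ _ h.2
      simp only [seg, wt, List.length_cons]; omega
    | c j =>
      have h1 := T.q_pos _ _ h.2.1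
      simp only [seg, wt, List.length_cons]; omega
    | t j =>
      have h1 := gw_bounds hk h.tail h.2.1
      have h2 := T.q'_pos _ _ h.2.1
      simp only [seg, wt]
      rw [if_pos (by omega)]
      simp only [List.length_nil]; omega

theorem seg_len_step {w : ℕ} {L : ℕ}
    (hL : ∀ N : List St, Vd T k N → (seg T k (w + 1) N).length ≤ L) {N : List St}
    (h : Vd T k N) :
    (seg T k w N).length ≤ (seg T k (w + 1) N).length + cnt T k (w + 1) N * (L + 1) := by
  induction N with
  | nil => simp [seg]
  | cons x N ih =>
    have hN := ih h.tail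
    cases x with
    | s i => simp only [seg, cnt, List.length_cons]; omega
    | p i => simp only [seg, cnt, List.length_cons]; omega
    | c i => simp only [seg, cnt, List.length_cons]; omega
    | t j =>
      have h2 := hL N h.tail
      simp only [seg, cnt]
      rcases lt_trichotomy (gw T k N j) (w + 1) with hg | hg | hg
      · rw [if_pos (show gw T k N j ≤ w by omega)]
        simp
      · rw [if_neg (show ¬ gw T k N j ≤ w by omega), if_pos (show gw T k N j ≤ w + 1 by omega),
          if_neg (show ¬ gw T k N j < w + 1 by omega), if_pos hg]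
        simp only [List.length_cons, List.length_nil]
        nlinarith
      · rw [if_neg (show ¬ gw T k N j ≤ w by omega), if_neg (show ¬ gw T k N j ≤ w + 1 by omega),
          if_neg (show ¬ gw T k N j < w + 1 by omega), if_neg (show ¬ gw T k N j = w + 1 by omega)]
        simp only [List.length_cons]
        omega

theorem seg_len (hk : 2 ≤ k) (w : ℕ) : ∀ N : List St, Vd T k N →
    (seg T k w N).length ≤ Lw T k w := by
  have main : ∀ d w : ℕ, k ≤ w + d → ∀ N : List St, Vd T k N →
      (seg T k w N).length ≤ Lw T k w := by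
    intro d
    induction d with
    | zero =>
      intro w hw N h
      have h1 := seg_len_top hk (w := w) (by omega) h
      have h2 := wt_pos_lt hk h
      rw [Lw_top (by omega)]; omega
    | succ d ih =>
      intro w hw N h
      rcases Nat.lt_or_ge w k with hwk | hwk
      · have h1 := seg_len_step (ih (w + 1) (by omega)) h
        have h2 := ih (w + 1) (by omega) N h
        have h3 := cnt_le h (w + 1)
        rw [Lw_step hwk]
        have h4 : cnt T k (w + 1) N * (Lw T k (w + 1) + 1) ≤
            (Mw T k (w + 1) + 1) * (Lw T k (w + 1) + 1) := Nat.mul_le_mul_right _ h3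
        nlinarith
      · have h1 := seg_len_top hk (w := w) (by omega) h
        have h2 := wt_pos_lt hk h
        rw [Lw_top (by omega)]; omega
  exact main k w (by omega)

theorem seg_zero (hk : 2 ≤ k) {N : List St} (h : Vd T k N) : seg T k 0 N = N := by
  induction N with
  | nil => rfl
  | cons x N ih =>
    have hN := ih h.tail
    cases x with
    | s i => simp only [seg]; rw [hN]
    | p i => simp only [seg]; rw [hN]
    | c i => simp only [seg]; rw [hN]
    | t j =>
      have h1 := gw_bounds hk h.tail h.2.1
      simp only [seg]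
      rw [if_neg (by omega), hN]

/-- There are only finitely many valid addresses. -/
theorem finite_Vd (T : Num) (k : ℕ) (hk : 2 ≤ k) : {N : List St | Vd T k N}.Finite := by
  refine (finite_lists (Bd T k) (Lw T k 0)).subset ?_
  intro N h
  refine ⟨?_, idx_lt h⟩
  have := seg_len hk 0 N h
  rwa [seg_zero hk h] at this

/-- A suffix of the form `t b :: N0` of `x :: N` is the whole list or a suffix of `N`. -/
theorem suffix_cons_cases {x : St} {A N : List St} (h : A <:+ x :: N) : A = x :: N ∨ A <:+ N :=
  List.suffix_cons_iff.1 h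

theorem anc_spec (w n : ℕ) : ∀ N : List St, n < cnt T k w N →
    ∃ j N', anc T k w n N = .t j :: N' ∧ .t j :: N' <:+ N ∧ gw T k N' j = w ∧
      cnt T k w N' = n ∧
      ∀ b N0, .t b :: N0 <:+ N → .t j :: N' <:+ .t b :: N0 → w ≤ gw T k N0 b := by
  intro N
  induction N with
  | nil => intro h; simp [cnt] at h
  | cons x N ih =>
    intro h
    have other : (∀ b, x ≠ .t b) → n < cnt T k w N → anc T k w n (x :: N) = anc T k w n N →
        ∃ j N', anc T k w n (x :: N) = .t j :: N' ∧ .t j :: N' <:+ x :: N ∧ gw T k N' j = w ∧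
          cnt T k w N' = n ∧
          ∀ b N0, .t b :: N0 <:+ x :: N → .t j :: N' <:+ .t b :: N0 → w ≤ gw T k N0 b := by
      intro hx hn ha
      obtain ⟨j, N', h1, h2, h3, h4, h5⟩ := ih hn
      refine ⟨j, N', ha.trans h1, h2.trans (List.suffix_cons _ _), h3, h4, ?_⟩
      intro b N0 hb hb'
      rcases suffix_cons_cases hb with hb | hb
      · exact absurd (List.cons.inj hb).1.symm (hx b)
      · exact h5 b N0 hb hb'
    cases x with
    | s i => exact other (by simp) h rfl
    | p i => exact other (by simp) h rfl
    | c i => exact other (by simp) h rfl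
    | t i =>
      simp only [cnt] at h
      split_ifs at h with h1 h2
      · omega
      · by_cases hn : cnt T k w N = n
        · refine ⟨i, N, ?_, List.suffix_rfl, h2, hn, ?_⟩
          · simp only [anc]; rw [if_pos ⟨h2, hn⟩]
          · intro b N0 hb hb'
            have hl := hb.length_le
            have hl' := hb'.length_le
            have he : (.t b :: N0 : List St) = .t i :: N := hb.eq_of_length (by omega)
            obtain ⟨e1, e2⟩ := List.cons.inj he
            cases e1; subst e2; exact h2.ge
        · obtain ⟨j, N', g1, g2, g3, g4, g5⟩ := ih (by omega)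
          refine ⟨j, N', ?_, g2.trans (List.suffix_cons _ _), g3, g4, ?_⟩
          · simp only [anc]; rw [if_neg (fun hh => hn hh.2)]; exact g1
          · intro b N0 hb hb'
            rcases suffix_cons_cases hb with hb | hb
            · obtain ⟨e1, e2⟩ := List.cons.inj hb
              cases e1; subst e2; exact h2.ge
            · exact g5 b N0 hb hb'
      · obtain ⟨j, N', g1, g2, g3, g4, g5⟩ := ih h
        refine ⟨j, N', ?_, g2.trans (List.suffix_cons _ _), g3, g4, ?_⟩
        · simp only [anc]; rw [if_neg (fun hh => h2 hh.1)]; exact g1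
        · intro b N0 hb hb'
          rcases suffix_cons_cases hb with hb | hb
          · obtain ⟨e1, e2⟩ := List.cons.inj hb
            cases e1; subst e2; omega
          · exact g5 b N0 hb hb'

theorem seg_append_anc (w n : ℕ) : ∀ N : List St, cnt T k w N = n + 1 →
    N = seg T k w N ++ anc T k w n N := by
  intro N
  induction N with
  | nil => intro h; simp [cnt] at h
  | cons x N ih =>
    intro h
    cases x with
    | s i => simp only [seg, anc, List.cons_append]; rw [← ih h]
    | p i => simp only [seg, anc, List.cons_append]; rw [← ih h]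
    | c i => simp only [seg, anc, List.cons_append]; rw [← ih h]
    | t i =>
      simp only [cnt] at h
      simp only [seg, anc]
      split_ifs at h with h1 h2
      · rw [if_pos h2.le, if_pos ⟨h2, by omega⟩]; rfl
      · rw [if_neg (show ¬ gw T k N i ≤ w by omega), if_neg (fun hh => h2 hh.1),
          List.cons_append, ← ih h]

/-- Monotonicity of `cnt` along the window. -/
theorem cnt_mono (w : ℕ) {A : List St} : ∀ N : List St, A <:+ N →
    (∀ b N0, .t b :: N0 <:+ N → A <:+ N0 → w ≤ gw T k N0 b) → cnt T k w A ≤ cnt T k w N := by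
  intro N
  induction N with
  | nil => intro h _; rw [List.suffix_nil] at h; subst h; exact le_rfl
  | cons x N ih =>
    intro hA hw
    rcases suffix_cons_cases hA with rfl | hA'
    · exact le_rfl
    · have h1 := ih hA' (fun b N0 hb hb' => hw b N0 (hb.trans (List.suffix_cons _ _)) hb')
      cases x with
      | s i => exact h1
      | p i => exact h1
      | c i => exact h1
      | t i =>
        have h2 := hw i N List.suffix_rfl hA'
        simp only [cnt]
        rw [if_neg (by omega)]
        split_ifs <;> omega

theorem tau_suffix : ∀ N : List St, tau N <:+ N := by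
  intro N
  induction N with
  | nil => exact List.suffix_rfl
  | cons x N ih =>
    cases x with
    | s i => exact ih.trans (List.suffix_cons _ _)
    | p i => exact ih.trans (List.suffix_cons _ _)
    | c i => exact ih.trans (List.suffix_cons _ _)
    | t i => exact List.suffix_rfl

theorem suffix_tau {b : ℕ} {N0 : List St} : ∀ {N : List St}, .t b :: N0 <:+ N →
    .t b :: N0 <:+ tau N := by
  intro N
  induction N with
  | nil => intro h; exact h
  | cons x N ih =>
    intro h
    rcases suffix_cons_cases h with h' | h'
    · obtain ⟨e1, e2⟩ := List.cons.inj h'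
      cases e1; subst e2; exact List.suffix_rfl
    · cases x with
      | s i => exact ih h'
      | p i => exact ih h'
      | c i => exact ih h'
      | t i => exact h'.trans (List.suffix_cons _ _)

theorem tau_eq : ∀ N : List St, tau N = [] ∨ ∃ b N0, tau N = .t b :: N0 := by
  intro N
  induction N with
  | nil => exact Or.inl rfl
  | cons x N ih =>
    cases x with
    | s i => exact ih
    | p i => exact ih
    | c i => exact ih
    | t i => exact Or.inr ⟨i, N, rfl⟩

theorem cnt_tau (w : ℕ) : ∀ N : List St, cnt T k w (tau N) = cnt T k w N := by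
  intro N
  induction N with
  | nil => rfl
  | cons x N ih =>
    cases x with
    | s i => exact ih
    | p i => exact ih
    | c i => exact ih
    | t i => rfl

theorem code_lt (hk : 2 ≤ k) {N : List St} (h : Vd T k N) {j : ℕ}
    (hj : j < T.nQ (k - wt T k N)) :
    code (.t j :: seg T k (gw T k N j) N) < Mw T k (gw T k N j) := by
  rw [Mw_eq]
  apply code_lt_bd
  · simpa using seg_len hk (gw T k N j) N h
  · intro x hx
    rcases List.mem_cons.1 hx with rfl | hx
    · have key : T.nR (k - wt T k N) + T.nQ (k - wt T k N) ≤ Bd T k :=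
        Finset.single_le_sum (f := fun D => T.nR D + T.nQ D) (fun _ _ => Nat.zero_le _)
          (Finset.mem_range.2 (by omega))
      simp only [St.idx]; omega
    · exact idx_lt h x (mem_seg hx)

/-- Everything about `a0`, `a1` of a cut pair. -/
theorem cut_spec (hk : 2 ≤ k) {N : List St} (h : Vd T k N) {j : ℕ}
    (hj : j < T.nQ (k - wt T k N)) (hc : Cut T k N j) :
    ∃ j0 A0 j1 A1, a0 T k N j = .t j0 :: A0 ∧ a1 T k N j = .t j1 :: A1 ∧
      .t j0 :: A0 <:+ N ∧ .t j1 :: A1 <:+ A0 ∧
      gw T k A0 j0 = gw T k N j ∧ gw T k A1 j1 = gw T k N j ∧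
      cnt T k (gw T k N j) A0 = Mw T k (gw T k N j) ∧
      cnt T k (gw T k N j) A1 = code (.t j :: seg T k (gw T k N j) N) ∧
      (∀ b N0, .t b :: N0 <:+ N → .t j1 :: A1 <:+ .t b :: N0 → gw T k N j ≤ gw T k N0 b) := by
  have hcode := code_lt hk h hj
  unfold Cut at hc
  obtain ⟨j0, A0, e0, s0, g0, c0, w0⟩ := anc_spec (T := T) (k := k) (gw T k N j)
    (Mw T k (gw T k N j)) N (by omega)
  obtain ⟨j1, A1, e1, s1, g1, c1, w1⟩ := anc_spec (T := T) (k := k) (gw T k N j)
    (code (.t j :: seg T k (gw T k N j) N)) N (by omega)
  refine ⟨j0, A0, j1, A1, e0, e1, s0, ?_, g0, g1, c0, c1, w1⟩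
  rcases List.suffix_or_suffix_of_suffix s0 s1 with hs | hs
  · -- `t j0 :: A0` is a suffix of `t j1 :: A1`
    exfalso
    rcases suffix_cons_cases hs with he | hs'
    · obtain ⟨e2, e3⟩ := List.cons.inj he
      subst e3
      omega
    · have := cnt_mono (T := T) (k := k) (gw T k N j) A1 hs' (by
        intro b N0 hb hb'
        exact w0 b N0 ((hb.trans (List.suffix_cons _ _)).trans s1)
          (hb'.trans (List.suffix_cons _ _)))
      simp only [cnt] at this
      rw [if_neg (by omega), if_pos g0] at this
      omega
  · rcases suffix_cons_cases hs with he | hs'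
    · obtain ⟨e2, e3⟩ := List.cons.inj he
      subst e3
      omega
    · exact hs'

/-- R3, first half. -/
theorem R3a (hk : 2 ≤ k) {N N' : List St} {j j' : ℕ} (h : Vd T k N) (h' : Vd T k N')
    (hj : j < T.nQ (k - wt T k N)) (hj' : j' < T.nQ (k - wt T k N'))
    (hc : Cut T k N j) (hc' : Cut T k N' j') (he : a1 T k N j = a1 T k N' j')
    (hs : a0 T k N j <:+ N') : N = N' ∧ j = j' := by
  obtain ⟨j0, A0, j1, A1, e0, e1, s0, s1, g0, g1, c0, c1, w1⟩ := cut_spec hk h hj hc
  obtain ⟨j0', A0', j1', A1', e0', e1', s0', s1', g0', g1', c0', c1', w1'⟩ :=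
    cut_spec hk h' hj' hc'
  rw [e0] at hs
  rw [e1, e1'] at he
  obtain ⟨e2, e3⟩ := List.cons.inj he
  cases e2; subst e3
  have hw : gw T k N j = gw T k N' j' := g1.symm.trans g1'
  have hA : (.t j0 :: A0 : List St) = .t j0' :: A0' := by
    rcases List.suffix_or_suffix_of_suffix hs s0' with hss | hss
    · rcases suffix_cons_cases hss with he | hs'
      · exact he
      · exfalso
        have := cnt_mono (T := T) (k := k) (gw T k N j) A0' hs' (by
          intro b N0 hb hb'
          rw [hw]
          refine w1' b N0 ((hb.trans (List.suffix_cons _ _)).trans s0') ?_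
          exact ((s1.trans (List.suffix_cons _ _)).trans hb').trans (List.suffix_cons _ _))
        simp only [cnt] at this
        rw [if_neg (by omega), if_pos g0] at this
        rw [← hw] at c0'
        omega
    · rcases suffix_cons_cases hss with he | hs'
      · exact he.symm
      · exfalso
        have := cnt_mono (T := T) (k := k) (gw T k N j) A0 hs' (by
          intro b N0 hb hb'
          refine w1 b N0 ((hb.trans (List.suffix_cons _ _)).trans s0) ?_
          exact ((s1'.trans (List.suffix_cons _ _)).trans hb').trans (List.suffix_cons _ _))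
        simp only [cnt] at this
        rw [hw] at this c0
        rw [if_neg (by omega), if_pos g0'] at this
        omega
  have hcode : (.t j :: seg T k (gw T k N j) N : List St) =
      .t j' :: seg T k (gw T k N' j') N' := by
    apply code_inj
    rw [← c1, ← c1', hw]
  obtain ⟨e4, e5⟩ := List.cons.inj hcode
  cases e4
  refine ⟨?_, rfl⟩
  unfold Cut at hc hc'
  have k1 := seg_append_anc (T := T) (k := k) _ _ N hc
  have k2 := seg_append_anc (T := T) (k := k) _ _ N' hc'
  have e0a : anc T k (gw T k N j) (Mw T k (gw T k N j)) N = .t j0 :: A0 := e0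
  have e0b : anc T k (gw T k N' j) (Mw T k (gw T k N' j)) N' = .t j0' :: A0' := e0'
  rw [k1, k2, e0a, e0b, hA, e5]

/-- R3, second half. -/
theorem R3b (hk : 2 ≤ k) {N N' : List St} {j j' : ℕ} (h : Vd T k N) (h' : Vd T k N')
    (hj : j < T.nQ (k - wt T k N)) (hj' : j' < T.nQ (k - wt T k N'))
    (hc : Cut T k N j) (hc' : Cut T k N' j') (he : a1 T k N j = a1 T k N' j')
    (hs : tau N' <:+ a0 T k N j) : N = N' ∧ j = j' := by
  by_cases hEq : tau N' = a0 T k N j
  · exact R3a hk h h' hj hj' hc hc' he (hEq ▸ tau_suffix N')
  exfalso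
  obtain ⟨j0, A0, j1, A1, e0, e1, s0, s1, g0, g1, c0, c1, w1⟩ := cut_spec hk h hj hc
  obtain ⟨j0', A0', j1', A1', e0', e1', s0', s1', g0', g1', c0', c1', w1'⟩ :=
    cut_spec hk h' hj' hc'
  rw [e0] at hs hEq
  rw [e1, e1'] at he
  obtain ⟨e2, e3⟩ := List.cons.inj he
  cases e2; subst e3
  have hw : gw T k N j = gw T k N' j' := g1.symm.trans g1'
  rcases suffix_cons_cases hs with he | hs'
  · exact hEq he
  · have ht : .t j1 :: A1 <:+ tau N' := suffix_tau ((s1'.trans (List.suffix_cons _ _)).trans s0')
    have := cnt_mono (T := T) (k := k) (gw T k N j) A0 hs' (by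
      intro b N0 hb hb'
      refine w1 b N0 ((hb.trans (List.suffix_cons _ _)).trans s0) ?_
      exact (ht.trans hb').trans (List.suffix_cons _ _))
    rw [cnt_tau, hw] at this
    unfold Cut at hc'
    rw [hw] at c0
    omega

/-- R4. -/
theorem R4 (hk : 2 ≤ k) {N N' : List St} {j j' : ℕ} (h : Vd T k N) (h' : Vd T k N')
    (hj : j < T.nQ (k - wt T k N)) (hj' : j' < T.nQ (k - wt T k N'))
    (hc : Cut T k N j) (hc' : Cut T k N' j') : a0 T k N j ≠ a1 T k N' j' := by
  intro he
  obtain ⟨j0, A0, j1, A1, e0, e1, s0, s1, g0, g1, c0, c1, w1⟩ := cut_spec hk h hj hc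
  obtain ⟨j0', A0', j1', A1', e0', e1', s0', s1', g0', g1', c0', c1', w1'⟩ :=
    cut_spec hk h' hj' hc'
  rw [e0, e1'] at he
  obtain ⟨e2, e3⟩ := List.cons.inj he
  cases e2; subst e3
  have hw : gw T k N j = gw T k N' j' := g0.symm.trans g1'
  have := code_lt hk h' hj'
  rw [hw] at c0
  omega

end

end Pool.Agent.HBA.Rule
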