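import Mathlib
import Pool.Agent.Lib.HBA.Rule

set_option autoImplicit false

/-!
# Module HBA.RefEx : the cut rule (HBA.Rule, helper62) gives a `RefSys`
-/

namespace Pool.Agent.HBA

open Finset Pool.Agent.P47443c

/-- The numerical data of `T`. -/
def numOf (T : TF) : Rule.Num where
  nR := fun D => if D = 0 then 0 else T.nI D
  r := T.r
  nQ := fun D => if D = 0 then 0 else T.nJ D
  q := T.q
  q' := T.q'
  r_pos := fun D i h => by
    by_cases hD : D = 0
    · simp [hD] at h
    · rw [if_neg hD] at h; exact T.r_pos D i (by omega) h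
  r_lt := fun D i h => by
    by_cases hD : D = 0
    · simp [hD] at h
    · rw [if_neg hD] at h; exact T.r_lt D i (by omega) h
  q_pos := fun D i h => by
    by_cases hD : D = 0
    · simp [hD] at h
    · rw [if_neg hD] at h; exact T.q_pos D i (by omega) h
  q'_pos := fun D i h => by
    by_cases hD : D = 0
    · simp [hD] at h
    · rw [if_neg hD] at h; exact T.q'_pos D i (by omega) h
  q_lt := fun D i h => by
    by_cases hD : D = 0
    · simp [hD] at h
    · rw [if_neg hD] at h; exact T.q_lt D i (by omega) h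

theorem wt_numOf (T : TF) (k : ℕ) (N : List St) : Rule.wt (numOf T) k N = wt T k N := by
  induction N with
  | nil => rfl
  | cons x N ih =>
    cases x with
    | s i =>
      change Rule.wt (numOf T) k N + T.r (k - Rule.wt (numOf T) k N) i = _
      rw [ih]; rfl
    | p j =>
      change Rule.wt (numOf T) k N + T.q (k - Rule.wt (numOf T) k N) j +
        T.q' (k - Rule.wt (numOf T) k N) j = _
      rw [ih, Nat.add_assoc]; rfl
    | c j =>
      change Rule.wt (numOf T) k N + T.q (k - Rule.wt (numOf T) k N) j = _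
      rw [ih]; rfl
    | t j =>
      change T.q' (k - Rule.wt (numOf T) k N) j = _
      rw [ih]; rfl

theorem gw_numOf (T : TF) (k : ℕ) (N : List St) (j : ℕ) :
    Rule.gw (numOf T) k N j = gw T k N j := by
  change Rule.wt (numOf T) k N + T.q (k - Rule.wt (numOf T) k N) j = _
  rw [wt_numOf]; rfl

theorem tau_rule (N : List St) : Rule.tau N = tau N := by
  induction N with
  | nil => rfl
  | cons x N ih => cases x <;> simp only [Rule.tau, tau, ih]

/-- A T-node as a reference. -/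
def refOf : List St → ℕ × List St
  | St.t j :: A => (j, A)
  | _ => (0, [])

theorem exists_refsys (T : TF) (k : ℕ) (hk : 2 ≤ k) : Nonempty (RefSys T k) := by
  classical
  have hmem : ∀ N, N ∈ (Rule.finite_Vd (numOf T) k hk).toFinset ↔ Rule.Vd (numOf T) k N := by
    intro N; simp
  have hpos : ∀ N, Rule.Vd (numOf T) k N → k - wt T k N ≠ 0 := by
    intro N h
    have := Rule.wt_pos_lt hk h
    rw [wt_numOf] at this
    omega
  have hI : ∀ N, Rule.Vd (numOf T) k N → (numOf T).nR (k - wt T k N) = T.nI (k - wt T k N) :=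
    fun N h => if_neg (hpos N h)
  have hJ : ∀ N, Rule.Vd (numOf T) k N → (numOf T).nQ (k - wt T k N) = T.nJ (k - wt T k N) :=
    fun N h => if_neg (hpos N h)
  have spec : ∀ N j, N ∈ (Rule.finite_Vd (numOf T) k hk).toFinset → j < T.nJ (k - wt T k N) →
      Rule.Cut (numOf T) k N j → ∃ j0 A0 j1 A1,
      Rule.a0 (numOf T) k N j = .t j0 :: A0 ∧ Rule.a1 (numOf T) k N j = .t j1 :: A1 ∧
      St.t j0 :: A0 <:+ N ∧ St.t j1 :: A1 <:+ A0 ∧
      gw T k A0 j0 = gw T k N j ∧ gw T k A1 j1 = gw T k N j ∧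
      (∀ b N0, St.t b :: N0 <:+ N → St.t j1 :: A1 <:+ St.t b :: N0 → gw T k N j ≤ gw T k N0 b) := by
    intro N j hN hj hc
    rw [hmem] at hN
    have hj' : j < (numOf T).nQ (k - Rule.wt (numOf T) k N) := by
      rw [wt_numOf, hJ N hN]; exact hj
    obtain ⟨j0, A0, j1, A1, e0, e1, s0, s1, g0, g1, -, -, w1⟩ := Rule.cut_spec hk hN hj' hc
    simp only [gw_numOf] at g0 g1 w1
    exact ⟨j0, A0, j1, A1, e0, e1, s0, s1, g0, g1, w1⟩
  refine ⟨{
    Vd := (Rule.finite_Vd (numOf T) k hk).toFinset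
    cut := Rule.Cut (numOf T) k
    a0 := fun N j => refOf (Rule.a0 (numOf T) k N j)
    a1 := fun N j => refOf (Rule.a1 (numOf T) k N j)
    nil := ?_
    mem_s := ?_
    mem_p := ?_
    mem_c := ?_
    mem_t := ?_
    R1 := ?_
    R2 := ?_
    R3 := ?_
    R4 := ?_ }⟩
  · rw [hmem]; trivial
  · intro N i
    rw [hmem, hmem]
    change Rule.Vd (numOf T) k N ∧ i < (numOf T).nR (k - Rule.wt (numOf T) k N) ↔ _
    rw [wt_numOf]
    constructor
    · rintro ⟨h1, h2⟩; exact ⟨h1, by rwa [hI N h1] at h2⟩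
    · rintro ⟨h1, h2⟩; exact ⟨h1, by rwa [hI N h1]⟩
  · intro N j
    rw [hmem, hmem]
    change Rule.Vd (numOf T) k N ∧ j < (numOf T).nQ (k - Rule.wt (numOf T) k N) ↔ _
    rw [wt_numOf]
    constructor
    · rintro ⟨h1, h2⟩; exact ⟨h1, by rwa [hJ N h1] at h2⟩
    · rintro ⟨h1, h2⟩; exact ⟨h1, by rwa [hJ N h1]⟩
  · intro N j
    rw [hmem, hmem]
    change Rule.Vd (numOf T) k N ∧ j < (numOf T).nQ (k - Rule.wt (numOf T) k N) ∧
      ¬ Rule.Cut (numOf T) k N j ↔ _
    rw [wt_numOf]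
    constructor
    · rintro ⟨h1, h2, h3⟩; exact ⟨h1, by rwa [hJ N h1] at h2, h3⟩
    · rintro ⟨h1, h2, h3⟩; exact ⟨h1, by rwa [hJ N h1], h3⟩
  · intro N j
    rw [hmem, hmem]
    change Rule.Vd (numOf T) k N ∧ j < (numOf T).nQ (k - Rule.wt (numOf T) k N) ∧
      ¬ Rule.Cut (numOf T) k N j ↔ _
    rw [wt_numOf]
    constructor
    · rintro ⟨h1, h2, h3⟩; exact ⟨h1, by rwa [hJ N h1] at h2, h3⟩
    · rintro ⟨h1, h2, h3⟩; exact ⟨h1, by rwa [hJ N h1], h3⟩
  · intro N j hN hj hc
    obtain ⟨j0, A0, j1, A1, e0, e1, s0, s1, g0, g1, w1⟩ := spec N j hN hj hc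
    simp only [e0, e1, refOf, tn]
    exact ⟨s0, s1, g0, g1⟩
  · intro N j hN hj hc b B hb hb'
    obtain ⟨j0, A0, j1, A1, e0, e1, s0, s1, g0, g1, w1⟩ := spec N j hN hj hc
    simp only [e1, refOf, tn] at hb'
    exact w1 b B hb hb'
  · intro N j N' j' hN hj hc hN' hj' hc' he hne
    obtain ⟨j0, A0, j1, A1, e0, e1, s0, s1, g0, g1, w1⟩ := spec N j hN hj hc
    obtain ⟨j0', A0', j1', A1', e0', e1', s0', s1', g0', g1', w1'⟩ := spec N' j' hN' hj' hc'
    have he' : Rule.a1 (numOf T) k N j = Rule.a1 (numOf T) k N' j' := by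
      simp only [e1, e1', refOf] at he
      rw [e1, e1']
      cases he
      rfl
    rw [hmem] at hN hN'
    have k1 : j < (numOf T).nQ (k - Rule.wt (numOf T) k N) := by
      rw [wt_numOf, hJ N hN]; exact hj
    have k2 : j' < (numOf T).nQ (k - Rule.wt (numOf T) k N') := by
      rw [wt_numOf, hJ N' hN']; exact hj'
    simp only [e0, refOf, tn]
    constructor
    · intro hs
      obtain ⟨h1, h2⟩ := Rule.R3a hk hN hN' k1 k2 hc hc' he' (by rw [e0]; exact hs)
      exact hne (by rw [h1, h2])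
    · intro hs
      obtain ⟨h1, h2⟩ := Rule.R3b hk hN hN' k1 k2 hc hc' he' (by rw [e0, tau_rule]; exact hs)
      exact hne (by rw [h1, h2])
  · intro N j N' j' hN hj hc hN' hj' hc' he
    obtain ⟨j0, A0, j1, A1, e0, e1, s0, s1, g0, g1, w1⟩ := spec N j hN hj hc
    obtain ⟨j0', A0', j1', A1', e0', e1', s0', s1', g0', g1', w1'⟩ := spec N' j' hN' hj' hc'
    rw [hmem] at hN hN'
    have k1 : j < (numOf T).nQ (k - Rule.wt (numOf T) k N) := by
      rw [wt_numOf, hJ N hN]; exact hj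
    have k2 : j' < (numOf T).nQ (k - Rule.wt (numOf T) k N') := by
      rw [wt_numOf, hJ N' hN']; exact hj'
    refine Rule.R4 hk hN hN' k1 k2 hc hc' ?_
    simp only [e0, e1', refOf] at he
    rw [e0, e1']
    cases he
    rfl

end Pool.Agent.HBA
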