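import Mathlib
import Pool.Agent.Lib.HBA.Chain

set_option autoImplicit false

/-!
# Module HBA.TwoFold : the two-fold identity for one degree `D`

`D = ∑_{i < s} 2 ^ e i`, `e 0 < e 1 < ..` (`Nat.bitIndices`, `Nat.twoPowSum_bitIndices`,
`Nat.bitIndices_sorted`; take `e i = (D.bitIndices).getD i 0`, `s = length ≥ 1`).
`x i = dg (e i) [0, i, 0]`, `G = ∏_{i<s} x i` : homogeneous of degree `D` (disjoint supports `Xl i`).
* `prod_flip` : for bits, `∏_{i<s+1} (x i + 1) + ∏_{i<s+1} x i = ∏_{i<s} (1 + x i + x (i+1))`.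
  Induction on `s` : with `P = ∏_{i<s+1} x i`, `N = ∏_{i<s+1} (x i + 1)` one has `P * x s = P`,
  `N * x s = 0`, so `P * (1 + x s + x (s+1)) = P * x (s+1)`, `N * (..) = N * (1 + x (s+1))`.
* `prod_bisum` : `∏_{i<n} (1 + x i + x (i+1)) = 1 + BiSum`, supports
  `A = fun m => ∃ i < n, Nm i m ∨ Xl i m`, `B = fun m => ∃ i < n, Nm i m ∨ Xl (i+1) m`, degree
  `∑_{i<n} 2 ^ e (i+1)`; induction on `n`: `(1+f)(1+g) = 1 + f + g + f*g`, `BiSum.mul`, `BiSum.mono`;
  the sets for `i = n` are disjoint from the sets for `i < n` (two lists of length 3 that are suffixes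
  of the same list are equal).
* degree: `∑_{i<s} 2 ^ e (i+1) = D - 2 ^ e 0 ≤ D - 1` (here `D` has `s+1` digits).
-/

namespace Pool.Agent.HBA

open Finset Pool.Agent.P47443c

namespace TwoFoldAux

theorem suffix3 {a b c a' b' c' : ℕ} {l : List ℕ} (h : [a, b, c] <:+ l) (h' : [a', b', c'] <:+ l) :
    a = a' ∧ b = b' ∧ c = c' := by
  have h1 : [a, b, c] <:+ [a', b', c'] := List.suffix_of_suffix_length_le h h' (by simp)
  have h2 : [a, b, c] = [a', b', c'] := h1.eq_of_length (by simp)
  simpa using h2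

theorem step_id (N P u v : ZMod 2) : N * (u + 1) * (v + 1) + P * u * v =
    (N * (u + 1) + P * u) * (1 + (u + v)) := by
  revert N P u v; decide

theorem bit_id (p g : ZMod 2) : p * (1 + g) + 1 = (p + 1) + g + (p + 1) * g := by
  revert p g; decide

/-- The product of the digits is homogeneous. -/
theorem prod_hom (e : ℕ → ℕ) (n : ℕ) :
    Hom (fun m => ∃ i < n, Xl i m) (∑ i ∈ range n, 2 ^ e i)
      (fun z => ∏ i ∈ range n, dg (e i) [0, i, 0] z) := by
  induction n with
  | zero =>
    refine ((Hom.one (V := List ℕ) (fun m => ∃ i < 0, Xl i m)).congr (fun x => by simp)).congr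
      (fun x => rfl)
  | succ n ih =>
    have h1 := ih.mul (dg_hom (e n) [0, n, 0]) (by
      rintro a ⟨i, hi, h⟩ h'
      obtain ⟨-, h2, -⟩ := suffix3 h h'
      omega)
    rw [Finset.sum_range_succ]
    refine (h1.mono ?_).congr (fun x => by rw [Finset.prod_range_succ])
    rintro a (⟨i, hi, h⟩ | h)
    · exact ⟨i, by omega, h⟩
    · exact ⟨n, by omega, h⟩

end TwoFoldAux

open TwoFoldAux

theorem prod_flip (s : ℕ) (x : ℕ → ZMod 2) :
    ∏ i ∈ range (s + 1), (x i + 1) + ∏ i ∈ range (s + 1), x i =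
      ∏ i ∈ range s, (1 + (x i + x (i + 1))) := by
  induction s with
  | zero =>
    simp only [zero_add, Finset.prod_range_one, Finset.prod_range_zero]
    generalize x 0 = u
    revert u; decide
  | succ s ih =>
    rw [Finset.prod_range_succ (fun i => 1 + (x i + x (i + 1))), ← ih,
      Finset.prod_range_succ _ (s + 1), Finset.prod_range_succ _ s,
      Finset.prod_range_succ _ (s + 1), Finset.prod_range_succ _ s]
    exact step_id _ _ _ _

theorem prod_bisum (e : ℕ → ℕ) (n : ℕ) (he : ∀ i, i < n → e i ≤ e (i + 1)) :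
    BiSum (fun m => ∃ i < n, Nm i m ∨ Xl i m) (fun m => ∃ i < n, Nm i m ∨ Xl (i + 1) m)
      (∑ i ∈ range n, 2 ^ e (i + 1))
      (fun z => ∏ i ∈ range n, (1 + (dg (e i) [0, i, 0] z + dg (e (i + 1)) [0, i + 1, 0] z)) + 1) := by
  induction n with
  | zero =>
    refine (BiSum.zero _ _ _).congr (fun x => ?_)
    rw [Finset.prod_range_zero]
    decide
  | succ n ih =>
    have hf := ih (fun i hi => he i (by omega))
    have hg := diff_bisum (e n) (e n) (e (n + 1)) n le_rfl (he n (by omega))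
    have hfg := hf.mul hg (by
      rintro m ⟨i, hi, ⟨j, c, hj, h⟩ | h⟩ (⟨j', c', hj', h'⟩ | h')
      · obtain ⟨-, h2, -⟩ := suffix3 h h'; omega
      · obtain ⟨-, h2, -⟩ := suffix3 h h'; omega
      · obtain ⟨-, h2, -⟩ := suffix3 h h'; omega
      · obtain ⟨-, h2, -⟩ := suffix3 h h'; omega) (by
      rintro m ⟨i, hi, ⟨j, c, hj, h⟩ | h⟩ (⟨j', c', hj', h'⟩ | h')
      · obtain ⟨-, h2, -⟩ := suffix3 h h'; omega
      · obtain ⟨h1, -, -⟩ := suffix3 h h'; omega
      · obtain ⟨h1, -, -⟩ := suffix3 h h'; omega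
      · obtain ⟨-, h2, -⟩ := suffix3 h h'; omega)
    rw [Finset.sum_range_succ]
    set d1 := ∑ i ∈ range n, 2 ^ e (i + 1) with hd1
    set d2 := 2 ^ e (n + 1) with hd2
    have mA : ∀ m, (∃ i < n, Nm i m ∨ Xl i m) → ∃ i < n + 1, Nm i m ∨ Xl i m := by
      rintro m ⟨i, hi, h⟩
      exact ⟨i, by omega, h⟩
    have mB : ∀ m, (∃ i < n, Nm i m ∨ Xl (i + 1) m) → ∃ i < n + 1, Nm i m ∨ Xl (i + 1) m := by
      rintro m ⟨i, hi, h⟩
      exact ⟨i, by omega, h⟩
    have mA' : ∀ m, (Nm n m ∨ Xl n m) → ∃ i < n + 1, Nm i m ∨ Xl i m :=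
      fun m h => ⟨n, by omega, h⟩
    have mB' : ∀ m, (Nm n m ∨ Xl (n + 1) m) → ∃ i < n + 1, Nm i m ∨ Xl (i + 1) m :=
      fun m h => ⟨n, by omega, h⟩
    have h1 := hf.mono mA mB (Nat.le_add_right d1 d2)
    have h2 := hg.mono mA' mB' (Nat.le_add_left d2 d1)
    have h3 := hfg.mono (fun m h => h.elim (mA m) (mA' m)) (fun m h => h.elim (mB m) (mB' m))
      (le_refl (d1 + d2))
    refine ((h1.add h2).add h3).congr (fun x => ?_)
    rw [Finset.prod_range_succ]
    exact bit_id _ _

theorem exists_digits (D : ℕ) (hD : 1 ≤ D) : ∃ (s : ℕ) (e : ℕ → ℕ),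
    (∀ i, i < s → e i < e (i + 1)) ∧ D = ∑ i ∈ range (s + 1), 2 ^ e i := by
  induction D using Nat.strong_induction_on with
  | _ D ih =>
    set a := Nat.log 2 D with ha
    have h1 : 2 ^ a ≤ D := Nat.pow_log_le_self 2 (by omega)
    have h2 : D < 2 ^ (a + 1) := Nat.lt_pow_succ_log_self (by norm_num) D
    have h3 : 1 ≤ 2 ^ a := Nat.one_le_two_pow
    rcases Nat.eq_or_lt_of_le h1 with h4 | h4
    · exact ⟨0, fun _ => a, fun i hi => absurd hi (Nat.not_lt_zero i), by simp [h4]⟩
    · obtain ⟨s, e, he, hs⟩ := ih (D - 2 ^ a) (by omega) (by omega)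
      have h5 : D - 2 ^ a < 2 ^ a := by
        rw [pow_succ] at h2
        omega
      have h6 : e s < a := by
        have h7 : 2 ^ e s ≤ ∑ i ∈ range (s + 1), 2 ^ e i :=
          Finset.single_le_sum (f := fun i => 2 ^ e i) (fun i _ => Nat.zero_le _)
            (Finset.self_mem_range_succ s)
        have h8 : 2 ^ e s < 2 ^ a := by
          calc 2 ^ e s ≤ D - 2 ^ a := by rw [hs]; exact h7
            _ < 2 ^ a := h5
        exact (Nat.pow_lt_pow_iff_right (by norm_num)).1 h8
      refine ⟨s + 1, fun i => if i ≤ s then e i else a, fun i hi => ?_, ?_⟩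
      · by_cases h : i < s
        · have h9 := he i h
          have h10 : i ≤ s := h.le
          have h11 : i + 1 ≤ s := h
          simp only [h10, h11, if_true]
          exact h9
        · have h10 : i = s := by omega
          subst h10
          have h11 : ¬ (i + 1 ≤ i) := by omega
          simp only [le_refl, if_true, h11, if_false]
          exact h6
      · rw [Finset.sum_range_succ]
        have h11 : ¬ (s + 1 ≤ s) := by omega
        beta_reduce
        rw [if_neg h11]
        have h12 : ∑ i ∈ range (s + 1), 2 ^ (if i ≤ s then e i else a) =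
            ∑ i ∈ range (s + 1), 2 ^ e i := by
          refine Finset.sum_congr rfl (fun i hi => ?_)
          have h13 : i ≤ s := by
            have := Finset.mem_range.1 hi
            omega
          rw [if_pos h13]
        rw [h12, ← hs]
        omega

theorem two_fold (D : ℕ) (hD : 1 ≤ D) : ∃ G : (List ℕ → ZMod 2) → ZMod 2,
    Hom (fun _ => True) D G ∧ BiSum (fun _ => True) (fun _ => True) (D - 1)
      (fun x => G (fun v => x v + 1) + G x + 1) := by
  obtain ⟨s, e, he, hs⟩ := exists_digits D hD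
  refine ⟨fun z => ∏ i ∈ range (s + 1), dg (e i) [0, i, 0] z, ?_, ?_⟩
  · have := prod_hom e (s + 1)
    rw [← hs] at this
    exact this.mono (fun _ _ => trivial)
  · have h1 := prod_bisum e s (fun i hi => (he i hi).le)
    have h2 : ∑ i ∈ range s, 2 ^ e (i + 1) ≤ D - 1 := by
      rw [Finset.sum_range_succ'] at hs
      have : 1 ≤ 2 ^ e 0 := Nat.one_le_two_pow
      omega
    refine (h1.mono (fun _ _ => trivial) (fun _ _ => trivial) h2).congr (fun x => ?_)
    simp only [dg_flip]
    rw [prod_flip s (fun i => dg (e i) [0, i, 0] x)]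

end Pool.Agent.HBA
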