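import Mathlib
import Pool.Agent.Lib.HBA.TwoFold

set_option autoImplicit false

/-!
# Module HBA.TFex : existence of the two-fold identities for all degrees

For every `D ≥ 1` take `G` and the family of `BiSum` from `two_fold`. Split the finite index set:
singles = indices with `a i = 0` or `b i = 0` (then the product is the other factor, since a factor
of degree `0` is `1`; it is homogeneous of degree `a i + b i`, `1 ≤ a i + b i ≤ D - 1 < D`), pairs =
the rest. Enumerate both by an initial segment of `ℕ` (`Fintype.equivFin`); outside of the range put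
anything. First prove the one-degree statement `tf_one`, then use choice.
-/

namespace Pool.Agent.HBA

open Finset Pool.Agent.P47443c

namespace TFexAux

/-- Enumeration of a finite type by an initial segment of `ℕ`. -/
theorem enum (κ : Type) [Fintype κ] : ∃ (n : ℕ) (e : ℕ → Option κ),
    (∀ i < n, ∃ k, e i = some k) ∧
      ∀ f : κ → ZMod 2, ∑ i ∈ range n, (e i).elim 0 f = ∑ k, f k := by
  classical
  refine ⟨Fintype.card κ, fun i => if h : i < Fintype.card κ then
    some ((Fintype.equivFin κ).symm ⟨i, h⟩) else none, ?_, ?_⟩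
  · intro i hi
    exact ⟨(Fintype.equivFin κ).symm ⟨i, hi⟩, by simp [hi]⟩
  · intro f
    rw [← Equiv.sum_comp (Fintype.equivFin κ).symm f, ← Fin.sum_univ_eq_sum_range
      (fun i => (if h : i < Fintype.card κ then
        some ((Fintype.equivFin κ).symm ⟨i, h⟩) else none).elim 0 f)]
    refine Finset.sum_congr rfl (fun i _ => ?_)
    simp

end TFexAux

/-- The data for one degree. -/
theorem tf_one (D : ℕ) (hD : 1 ≤ D) : ∃ (G : (List ℕ → ZMod 2) → ZMod 2) (nI : ℕ)
    (R : ℕ → (List ℕ → ZMod 2) → ZMod 2) (r : ℕ → ℕ) (nJ : ℕ)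
    (Q Q' : ℕ → (List ℕ → ZMod 2) → ZMod 2) (q q' : ℕ → ℕ),
    Hom (fun _ => True) D G ∧ (∀ i < nI, Hom (fun _ => True) (r i) (R i)) ∧
    (∀ j < nJ, Hom (fun _ => True) (q j) (Q j)) ∧ (∀ j < nJ, Hom (fun _ => True) (q' j) (Q' j)) ∧
    (∀ i < nI, ∀ x, R i (fun v => x v + 1) = R i x) ∧
    (∀ j < nJ, ∀ x, Q j (fun v => x v + 1) = Q j x) ∧
    (∀ j < nJ, ∀ x, Q' j (fun v => x v + 1) = Q' j x) ∧
    (∀ i < nI, 1 ≤ r i ∧ r i < D) ∧ (∀ j < nJ, 1 ≤ q j ∧ 1 ≤ q' j ∧ q j + q' j < D) ∧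
    ∀ x, G (fun v => x v + 1) = G x + (1 + ∑ i ∈ range nI, R i x +
      ∑ j ∈ range nJ, Q j x * Q' j x) := by
  classical
  obtain ⟨G, hG, ι, i1, al, be, a, b, h1, h2, h3, h4, h5, h6, h7, h8, h9⟩ := two_fold D hD
  obtain ⟨n, e, he, hes⟩ := TFexAux.enum {i : ι // a i = 0 ∨ b i = 0}
  obtain ⟨m, c, hc, hcs⟩ := TFexAux.enum {i : ι // ¬ (a i = 0 ∨ b i = 0)}
  refine ⟨G, n, fun i x => (e i).elim 0 (fun k => al k.1 x * be k.1 x),
    fun i => (e i).elim 0 (fun k => a k.1 + b k.1), m,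
    fun i x => (c i).elim 0 (fun k => al k.1 x), fun i x => (c i).elim 0 (fun k => be k.1 x),
    fun i => (c i).elim 0 (fun k => a k.1), fun i => (c i).elim 0 (fun k => b k.1),
    hG, ?_, ?_, ?_, ?_, ?_, ?_, ?_, ?_, ?_⟩
  · intro i hi
    obtain ⟨k, hk⟩ := he i hi
    simp only [hk, Option.elim_some]
    rcases k.2 with h | h
    · rw [h, zero_add]
      exact (h2 k.1).congr (fun x => by rw [h7 k.1 h x, one_mul])
    · rw [h, add_zero]
      exact (h1 k.1).congr (fun x => by rw [h8 k.1 h x, mul_one])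
  · intro j hj
    obtain ⟨k, hk⟩ := hc j hj
    simp only [hk, Option.elim_some]
    exact h1 k.1
  · intro j hj
    obtain ⟨k, hk⟩ := hc j hj
    simp only [hk, Option.elim_some]
    exact h2 k.1
  · intro i hi x
    obtain ⟨k, hk⟩ := he i hi
    simp only [hk, Option.elim_some, h3, h4]
  · intro j hj x
    obtain ⟨k, hk⟩ := hc j hj
    simp only [hk, Option.elim_some, h3]
  · intro j hj x
    obtain ⟨k, hk⟩ := hc j hj
    simp only [hk, Option.elim_some, h4]
  · intro i hi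
    obtain ⟨k, hk⟩ := he i hi
    simp only [hk, Option.elim_some]
    have := h5 k.1
    have := h6 k.1
    omega
  · intro j hj
    obtain ⟨k, hk⟩ := hc j hj
    simp only [hk, Option.elim_some]
    have := h5 k.1
    have := h6 k.1
    have := k.2
    omega
  · intro x
    have two : (2 : ZMod 2) = 0 := rfl
    have e1 := hes (fun k => al k.1 x * be k.1 x)
    have e2 := hcs (fun k => al k.1 x * be k.1 x)
    have e3 : ∑ j ∈ range m, (c j).elim 0 (fun k => al k.1 x) * (c j).elim 0 (fun k => be k.1 x) =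
        ∑ j ∈ range m, (c j).elim 0 (fun k => al k.1 x * be k.1 x) := by
      refine Finset.sum_congr rfl (fun j _ => ?_)
      rcases c j with _ | k
      · simp
      · simp
    have e4 := Fintype.sum_subtype_add_sum_subtype (fun i => a i = 0 ∨ b i = 0)
      (fun i => al i x * be i x)
    have e5 := h9 x
    simp only at e5
    rw [e1, e3, e2]
    linear_combination e5 - (G x + 1) * two - e4

theorem exists_TF : Nonempty TF := by
  classical
  have key : ∀ D : ℕ, ∃ (G : (List ℕ → ZMod 2) → ZMod 2) (nI : ℕ)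
      (R : ℕ → (List ℕ → ZMod 2) → ZMod 2) (r : ℕ → ℕ) (nJ : ℕ)
      (Q Q' : ℕ → (List ℕ → ZMod 2) → ZMod 2) (q q' : ℕ → ℕ), 1 ≤ D →
      Hom (fun _ => True) D G ∧ (∀ i < nI, Hom (fun _ => True) (r i) (R i)) ∧
      (∀ j < nJ, Hom (fun _ => True) (q j) (Q j)) ∧ (∀ j < nJ, Hom (fun _ => True) (q' j) (Q' j)) ∧
      (∀ i < nI, ∀ x, R i (fun v => x v + 1) = R i x) ∧
      (∀ j < nJ, ∀ x, Q j (fun v => x v + 1) = Q j x) ∧
      (∀ j < nJ, ∀ x, Q' j (fun v => x v + 1) = Q' j x) ∧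
      (∀ i < nI, 1 ≤ r i ∧ r i < D) ∧ (∀ j < nJ, 1 ≤ q j ∧ 1 ≤ q' j ∧ q j + q' j < D) ∧
      ∀ x, G (fun v => x v + 1) = G x + (1 + ∑ i ∈ range nI, R i x +
        ∑ j ∈ range nJ, Q j x * Q' j x) := by
    intro D
    by_cases hD : 1 ≤ D
    · obtain ⟨G, nI, R, r, nJ, Q, Q', q, q', h⟩ := tf_one D hD
      exact ⟨G, nI, R, r, nJ, Q, Q', q, q', fun _ => h⟩
    · exact ⟨fun _ => 0, 0, fun _ _ => 0, fun _ => 0, 0, fun _ _ => 0, fun _ _ => 0, fun _ => 0,
        fun _ => 0, fun h => absurd h hD⟩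
  choose G nI R r nJ Q Q' q q' h using key
  exact ⟨{
    V := List ℕ
    G := G
    nI := nI
    R := R
    r := r
    nJ := nJ
    Q := Q
    Q' := Q'
    q := q
    q' := q'
    homG := fun D hD => (h D hD).1
    homR := fun D i hD hi => (h D hD).2.1 i hi
    homQ := fun D j hD hj => (h D hD).2.2.1 j hj
    homQ' := fun D j hD hj => (h D hD).2.2.2.1 j hj
    invR := fun D i hD hi => (h D hD).2.2.2.2.1 i hi
    invQ := fun D j hD hj => (h D hD).2.2.2.2.2.1 j hj
    invQ' := fun D j hD hj => (h D hD).2.2.2.2.2.2.1 j hj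
    r_pos := fun D i hD hi => ((h D hD).2.2.2.2.2.2.2.1 i hi).1
    r_lt := fun D i hD hi => ((h D hD).2.2.2.2.2.2.2.1 i hi).2
    q_pos := fun D j hD hj => ((h D hD).2.2.2.2.2.2.2.2.1 j hj).1
    q'_pos := fun D j hD hj => ((h D hD).2.2.2.2.2.2.2.2.1 j hj).2.1
    q_lt := fun D j hD hj => ((h D hD).2.2.2.2.2.2.2.2.1 j hj).2.2
    key := fun D hD => (h D hD).2.2.2.2.2.2.2.2.2 }⟩

end Pool.Agent.HBA
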