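import Mathlib
import Pool.Agent.Lib.HBA.HomLem
import Pool.Agent.Lib.HBD.Defs

set_option autoImplicit false

/-!
# Module HBA.ToTmpl : a flip system gives a template

`X : Pre k`, `X.UE` nonempty. Take a finite set `A` of labels with `X.v0 ∈ A` which contains a
support of every `X.Phi p`, `p ∈ X.UP`. Template: `Λ = {v // v ∈ A}`, `E = {e // e ∈ UE}`,
`P = {p // p ∈ UP}`, `TE e = {v | own v = some (inl e)}`, `TP p = {v | own v = some (inr p)}`,
`lam0 = v0`. For `t : Λ → ZMod 2`, `b : E → ZMod 2` let `pt t b : V → ZMod 2` be `t` extended by `0`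
outside of `A`, plus the data flip of `b` extended by `0`.
`pi p t b = Pi p (pt t b)`, `g t b = ∑_{p ∈ UP} Phi p (pt t b)`.
-/

namespace Pool.Agent.HBA

open Finset Pool.Agent.P47443c

namespace ToTmplAux

variable {k : ℕ} (X : Pre k)

/-- Flip by a set of outputs. -/
noncomputable def mflip (M : Finset X.P) (z : X.V → ZMod 2) : X.V → ZMod 2 :=
  fun v => z v + ∑ p ∈ M, if X.own v = some (Sum.inr p) then 1 else 0

theorem mflip_insert {M : Finset X.P} {q : X.P} (hq : q ∉ M) (z : X.V → ZMod 2) :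
    mflip X (insert q M) z = pflip X.own q (mflip X M z) := by
  funext v
  unfold mflip pflip
  rw [Finset.sum_insert hq]
  ring

theorem mflip_spec (z : X.V → ZMod 2) (M : Finset X.P) (hM : M ⊆ X.UP) :
    ∀ p ∈ X.UP, X.Phi p (mflip X M z) = X.Phi p z + (if p ∈ M then X.Pi p z else 0) ∧
      X.Pi p (mflip X M z) = X.Pi p z := by
  induction M using Finset.induction_on with
  | empty =>
    intro p _
    have : mflip X ∅ z = z := by
      funext v
      simp [mflip]
    rw [this]
    simp
  | insert q M hq ih =>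
    intro p hp
    have hqU : q ∈ X.UP := hM (Finset.mem_insert_self _ _)
    have ih' := ih (fun x hx => hM (Finset.mem_insert_of_mem hx)) p hp
    rw [mflip_insert X hq, X.flip p hp q hqU, X.flipPi p hp q hqU, ih'.1, ih'.2]
    refine ⟨?_, rfl⟩
    by_cases h1 : p = q
    · subst h1
      rw [if_neg hq, if_pos rfl, if_pos (Finset.mem_insert_self _ _), add_zero]
    · rw [if_neg h1, add_zero]
      congr 1
      by_cases h2 : p ∈ M
      · rw [if_pos h2, if_pos (Finset.mem_insert_of_mem h2)]
      · rw [if_neg h2, if_neg]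
        intro h3
        rcases Finset.mem_insert.1 h3 with h4 | h4
        · exact h1 h4
        · exact h2 h4

/-- A finite set of labels which contains the supports. -/
theorem exists_supp : ∃ A : Finset X.V, X.v0 ∈ A ∧ ∀ p ∈ X.UP, IsHomOn A k (X.Phi p) := by
  classical
  have h : ∀ p : X.P, ∃ B : Finset X.V, p ∈ X.UP → IsHomOn B k (X.Phi p) := by
    intro p
    by_cases hp : p ∈ X.UP
    · obtain ⟨B, _, hB⟩ := X.hom p hp
      exact ⟨B, fun _ => hB⟩
    · exact ⟨∅, fun h => absurd h hp⟩
  choose B hB using h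
  refine ⟨insert X.v0 (X.UP.biUnion B), Finset.mem_insert_self _ _, fun p hp => ?_⟩
  exact (hB p hp).mono ((Finset.subset_biUnion_of_mem B hp).trans (Finset.subset_insert _ _))

theorem isHomOn_dep {V : Type} [DecidableEq V] {A : Finset V} {d : ℕ}
    {F : (V → ZMod 2) → ZMod 2} (h : IsHomOn A d F) {z z' : V → ZMod 2}
    (hz : ∀ v ∈ A, z v = z' v) : F z = F z' := by
  obtain ⟨S, h1, h2⟩ := h
  rw [h2, h2]
  refine Finset.sum_congr rfl (fun s hs => Finset.prod_congr rfl (fun v hv => ?_))
  exact hz v ((h1 s hs).2 hv)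

theorem phi_dep {A : Finset X.V} (hA : ∀ p ∈ X.UP, IsHomOn A k (X.Phi p))
    {z z' : X.V → ZMod 2} (hz : ∀ v ∈ A, z v = z' v) {p : X.P} (hp : p ∈ X.UP) :
    X.Phi p z = X.Phi p z' := isHomOn_dep (hA p hp) hz

theorem pi_dep {A : Finset X.V} (hA : ∀ p ∈ X.UP, IsHomOn A k (X.Phi p))
    {z z' : X.V → ZMod 2} (hz : ∀ v ∈ A, z v = z' v) {p : X.P} (hp : p ∈ X.UP) :
    X.Pi p z = X.Pi p z' := by
  have h1 := X.flip p hp p hp z
  have h2 := X.flip p hp p hp z'
  rw [if_pos rfl] at h1 h2
  have h3 := phi_dep X hA hz hp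
  have h4 : X.Phi p (pflip X.own p z) = X.Phi p (pflip X.own p z') := by
    refine phi_dep X hA (fun v hv => ?_) hp
    unfold pflip
    rw [hz v hv]
  rw [h1, h2, h3] at h4
  exact add_left_cancel h4

/-- Extension by `0`. -/
noncomputable def ext0 {α : Type} [DecidableEq α] (A : Finset α) (t : {v // v ∈ A} → ZMod 2) :
    α → ZMod 2 := fun v => if h : v ∈ A then t ⟨v, h⟩ else 0

theorem ext0_mem {α : Type} [DecidableEq α] (A : Finset α) (t : {v // v ∈ A} → ZMod 2)
    (v : {v // v ∈ A}) : ext0 A t v = t v := by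
  unfold ext0
  rw [dif_pos v.2]

/-- The point of `V` attached to local values and data. -/
noncomputable def pt (A : Finset X.V) (t : {v // v ∈ A} → ZMod 2) (b : {e // e ∈ X.UE} → ZMod 2) :
    X.V → ZMod 2 := dflip X.own (ext0 X.UE b) (ext0 A t)

theorem sum_inl {α E P : Type} [DecidableEq E] [DecidableEq P] (UE : Finset E)
    (o : Option (E ⊕ P)) (b : {e // e ∈ UE} → ZMod 2) :
    ∑ e : {e // e ∈ UE}, (if o = some (Sum.inl e.1) then b e else 0) =
      match o with
      | some (Sum.inl e) => ext0 UE b e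
      | _ => 0 := by
  rcases o with _ | (e | p)
  · simp
  · simp only [Option.some.injEq, Sum.inl.injEq]
    unfold ext0
    split_ifs with h
    · rw [Finset.sum_eq_single ⟨e, h⟩]
      · rw [if_pos rfl]
      · intro e' _ hne
        rw [if_neg]
        rintro rfl
        exact hne rfl
      · intro h'; exact absurd (Finset.mem_univ _) h'
    · refine Finset.sum_eq_zero (fun e' _ => ?_)
      rw [if_neg]
      rintro rfl
      exact h e'.2
  · simp

theorem dflip_eq {V E P : Type} [DecidableEq E] [DecidableEq P] (UE : Finset E)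
    (own : V → Option (E ⊕ P)) (b : {e // e ∈ UE} → ZMod 2) (z : V → ZMod 2) (v : V) :
    dflip own (ext0 UE b) z v =
      z v + ∑ e : {e // e ∈ UE}, (if own v = some (Sum.inl e.1) then b e else 0) := by
  rw [sum_inl (α := V) UE (own v) b]
  unfold dflip
  congr 1

theorem sum_inr {E P : Type} [DecidableEq E] [DecidableEq P] (UP : Finset P)
    (o : Option (E ⊕ P)) (m : {p // p ∈ UP} → ZMod 2) :
    ∑ p : {p // p ∈ UP}, (if o = some (Sum.inr p.1) then m p else 0) =
      ∑ p ∈ UP.filter (fun p => ext0 UP m p = 1), if o = some (Sum.inr p) then 1 else 0 := by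
  rw [Finset.sum_filter, ← Finset.sum_coe_sort UP]
  refine Finset.sum_congr rfl (fun p _ => ?_)
  rw [ext0_mem]
  by_cases h : o = some (Sum.inr p.1)
  · rw [if_pos h, if_pos h]
    generalize m p = x
    revert x; decide
  · rw [if_neg h, if_neg h]; simp

end ToTmplAux

open ToTmplAux

theorem tmpl_of_pre {k : ℕ} (X : Pre k) (h : X.UE.Nonempty) :
    ∃ T : HBD.Tmpl k, Fintype.card T.P = X.UP.card := by
  classical
  obtain ⟨A, hA0, hA⟩ := exists_supp X
  obtain ⟨e0, he0⟩ := h
  have key : ∀ (z : {v // v ∈ A} ⊕ ({e // e ∈ X.UE} ⊕ {p // p ∈ X.UP}) → ZMod 2),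
      ∑ p : {p // p ∈ X.UP}, z (Sum.inr (Sum.inr p)) *
        X.Pi p.1 (pt X A (HBD.tloc (fun e : {e // e ∈ X.UE} =>
          (univ : Finset {v // v ∈ A}).filter (fun v => X.own v.1 = some (Sum.inl e.1)))
          (fun p : {p // p ∈ X.UP} =>
          (univ : Finset {v // v ∈ A}).filter (fun v => X.own v.1 = some (Sum.inr p.1))) z)
          (HBD.bloc z)) +
      ∑ p : {p // p ∈ X.UP},
        X.Phi p.1 (pt X A (HBD.tloc (fun e : {e // e ∈ X.UE} =>
          (univ : Finset {v // v ∈ A}).filter (fun v => X.own v.1 = some (Sum.inl e.1)))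
          (fun p : {p // p ∈ X.UP} =>
          (univ : Finset {v // v ∈ A}).filter (fun v => X.own v.1 = some (Sum.inr p.1))) z)
          (HBD.bloc z)) =
      ∑ p : {p // p ∈ X.UP}, X.Phi p.1 (ext0 A (fun v => z (Sum.inl v))) := by
    intro z
    set φ := ext0 A (fun v => z (Sum.inl v)) with hφ
    set m : {p // p ∈ X.UP} → ZMod 2 := fun p => z (Sum.inr (Sum.inr p)) with hm
    set M : Finset X.P := X.UP.filter (fun p => ext0 X.UP m p = 1) with hMdef
    set w := pt X A (HBD.tloc (fun e : {e // e ∈ X.UE} =>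
          (univ : Finset {v // v ∈ A}).filter (fun v => X.own v.1 = some (Sum.inl e.1)))
          (fun p : {p // p ∈ X.UP} =>
          (univ : Finset {v // v ∈ A}).filter (fun v => X.own v.1 = some (Sum.inr p.1))) z)
          (HBD.bloc z) with hw
    have hagree : ∀ v ∈ A, w v = mflip X M φ v := by
      intro v hv
      rw [hw]
      unfold pt mflip
      rw [dflip_eq, hMdef, ← sum_inr X.UP (X.own v) m]
      have e1 : ext0 A (HBD.tloc (fun e : {e // e ∈ X.UE} =>
          (univ : Finset {v // v ∈ A}).filter (fun v => X.own v.1 = some (Sum.inl e.1)))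
          (fun p : {p // p ∈ X.UP} =>
          (univ : Finset {v // v ∈ A}).filter (fun v => X.own v.1 = some (Sum.inr p.1))) z) v =
          HBD.tloc (fun e : {e // e ∈ X.UE} =>
          (univ : Finset {v // v ∈ A}).filter (fun v => X.own v.1 = some (Sum.inl e.1)))
          (fun p : {p // p ∈ X.UP} =>
          (univ : Finset {v // v ∈ A}).filter (fun v => X.own v.1 = some (Sum.inr p.1))) z
            ⟨v, hv⟩ := ext0_mem A _ ⟨v, hv⟩
      have e2 : φ v = z (Sum.inl ⟨v, hv⟩) := ext0_mem A _ ⟨v, hv⟩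
      rw [e1, e2]
      unfold HBD.tloc HBD.bloc
      simp only [Finset.mem_filter, Finset.mem_univ, true_and]
      have e3 := z2_add_self (∑ e : {e // e ∈ X.UE},
        if X.own v = some (Sum.inl e.1) then z (Sum.inr (Sum.inl e)) else 0)
      linear_combination e3
    have hMU : M ⊆ X.UP := Finset.filter_subset _ _
    have h1 : ∀ p : {p // p ∈ X.UP}, X.Pi p.1 w = X.Pi p.1 φ := fun p => by
      rw [pi_dep X hA hagree p.2, (mflip_spec X φ M hMU p.1 p.2).2]
    have h2 : ∀ p : {p // p ∈ X.UP}, X.Phi p.1 w = X.Phi p.1 φ + m p * X.Pi p.1 φ := fun p => by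
      rw [phi_dep X hA hagree p.2, (mflip_spec X φ M hMU p.1 p.2).1]
      congr 1
      have e4 : p.1 ∈ M ↔ m p = 1 := by
        rw [hMdef, Finset.mem_filter, ext0_mem]
        exact ⟨fun h => h.2, fun h => ⟨p.2, h⟩⟩
      by_cases h5 : m p = 1
      · rw [if_pos (e4.2 h5), h5, one_mul]
      · rw [if_neg (fun h6 => h5 (e4.1 h6))]
        have h6 : m p = 0 := by
          by_contra h7
          exact h5 (z2_eq_one h7)
        rw [h6, zero_mul]
    rw [Finset.sum_congr rfl (fun p _ => by rw [h1 p]),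
      Finset.sum_congr rfl (fun p _ => h2 p), Finset.sum_add_distrib]
    have e5 := z2_add_self (∑ p : {p // p ∈ X.UP}, m p * X.Pi p.1 φ)
    linear_combination e5
  refine ⟨{
    Λ := {v // v ∈ A}
    E := {e // e ∈ X.UE}
    P := {p // p ∈ X.UP}
    lam0 := ⟨X.v0, hA0⟩
    TE := fun e => univ.filter (fun v => X.own v.1 = some (Sum.inl e.1))
    TP := fun p => univ.filter (fun v => X.own v.1 = some (Sum.inr p.1))
    pi := fun p t b => X.Pi p.1 (pt X A t b)
    g := fun t b => ∑ p : {p // p ∈ X.UP}, X.Phi p.1 (pt X A t b)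
    card_eq := by
      rw [Fintype.card_coe, Fintype.card_coe, X.card_eq]
    neE := ⟨⟨e0, he0⟩⟩
    hom := ?_
    dec1 := ?_
    dec2 := ?_ }, ?_⟩
  · -- homogeneity
    have h3 : IsHomOn (univ : Finset ({v // v ∈ A} ⊕ ({e // e ∈ X.UE} ⊕ {p // p ∈ X.UP}))) k
        (fun z => ∑ p : {p // p ∈ X.UP}, X.Phi p.1 (ext0 A (fun v => z (Sum.inl v)))) := by
      refine IsHomOn.sum _ (fun p _ => ?_)
      obtain ⟨S, s1, s2⟩ := hA p.1 p.2
      have h4 : IsHomOn
          (univ : Finset ({v // v ∈ A} ⊕ ({e // e ∈ X.UE} ⊕ {p // p ∈ X.UP}))) k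
          (fun z => ∑ s ∈ S, ∏ v ∈ s, ext0 A (fun v => z (Sum.inl v)) v) := by
        refine IsHomOn.sum S (fun s hs => ?_)
        have hsA := (s1 s hs).2
        have h5 := IsHomOn.monomial (Finset.subset_univ
          ((s.attach.image (fun v => (Sum.inl ⟨v.1, hsA v.2⟩ :
            {v // v ∈ A} ⊕ ({e // e ∈ X.UE} ⊕ {p // p ∈ X.UP}))))))
        have hinj : Function.Injective (fun v : {v // v ∈ s} => (Sum.inl ⟨v.1, hsA v.2⟩ :
            {v // v ∈ A} ⊕ ({e // e ∈ X.UE} ⊕ {p // p ∈ X.UP}))) := by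
          intro a b hab
          simp only [Sum.inl.injEq, Subtype.mk.injEq] at hab
          exact Subtype.ext hab
        rw [Finset.card_image_of_injective _ hinj, Finset.card_attach, (s1 s hs).1] at h5
        refine h5.congr (fun z => ?_)
        rw [Finset.prod_image (fun a _ b _ hab => hinj hab),
          ← Finset.prod_attach s (fun v => ext0 A (fun v => z (Sum.inl v)) v)]
        exact Finset.prod_congr rfl (fun v _ => ext0_mem A _ ⟨v.1, hsA v.2⟩)
      exact h4.congr (fun z => s2 _)
    exact h3.congr (fun z => key z)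
  · intro t b t' b' hpi
    have h1 := X.dec1 (pt X A t b) (pt X A t' b') (fun p hp => hpi ⟨p, hp⟩)
    unfold pt dflip at h1
    rw [X.own0] at h1
    simp only [add_zero] at h1
    have e1 : ext0 A t X.v0 = t ⟨X.v0, hA0⟩ := ext0_mem A t ⟨X.v0, hA0⟩
    have e2 : ext0 A t' X.v0 = t' ⟨X.v0, hA0⟩ := ext0_mem A t' ⟨X.v0, hA0⟩
    rw [e1, e2] at h1
    exact h1
  · intro t b b' hpi
    have hd : dflip X.own (fun e => ext0 X.UE b e + ext0 X.UE b' e) (pt X A t b') = pt X A t b := by
      funext v
      unfold pt dflip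
      rcases X.own v with _ | (e | p)
      · simp
      · simp only
        have e3 := z2_add_self (ext0 X.UE b' e)
        linear_combination e3
      · simp
    have h1 := X.dec2 (pt X A t b') (fun e => ext0 X.UE b e + ext0 X.UE b' e) (by
      intro e he
      unfold ext0
      rw [dif_neg he, dif_neg he, add_zero]) (by
      intro p hp
      rw [hd]
      exact hpi ⟨p, hp⟩)
    funext e
    have h2 := congrFun h1 e.1
    simp only [ext0_mem, Pi.zero_apply] at h2
    have h3 := z2_add_self (b' e)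
    linear_combination h2 - h3
  · exact Fintype.card_coe _

end Pool.Agent.HBA
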