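import Mathlib
import Pool.Agent.Lib.HBA.HomLem

set_option autoImplicit false

/-!
# Module HBA.Tree : the `D`-trees (`rem`, `nd`)

All by induction on the list (`cases` on the last step), with `T.r_pos`, `T.r_lt`, `T.q_pos`,
`T.q'_pos`, `T.q_lt` for the degree `rem T D0 x ≥ 1`. Finiteness: `x.length < D0`, and all indices are
bounded by the maximum of `T.nI D`, `T.nJ D`, `D ≤ D0`; e.g. induction on the length, or
`Set.Finite.subset` of the image of a finite set of lists.
-/

namespace Pool.Agent.HBA

open Finset Pool.Agent.P47443c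

variable (T : TF) (D0 : ℕ)

theorem rem_pos (h : 1 ≤ D0) (x : List St) (hx : nd T D0 x) : 1 ≤ rem T D0 x := by
  induction x with
  | nil => exact h
  | cons a x ih =>
    cases a with
    | s i =>
      have h1 := ih hx.1
      have h2 := T.r_lt _ i h1 hx.2
      show 1 ≤ rem T D0 x - T.r (rem T D0 x) i
      omega
    | p j =>
      have h1 := ih hx.1
      have h2 := T.q_lt _ j h1 hx.2
      show 1 ≤ rem T D0 x - (T.q (rem T D0 x) j + T.q' (rem T D0 x) j)
      omega
    | c j => exact hx.elim
    | t j => exact hx.elim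

theorem rem_le (x : List St) (hx : nd T D0 x) : rem T D0 x ≤ D0 := by
  induction x with
  | nil => exact le_refl _
  | cons a x ih =>
    cases a with
    | s i =>
      have h1 := ih hx.1
      show rem T D0 x - T.r (rem T D0 x) i ≤ D0
      omega
    | p j =>
      have h1 := ih hx.1
      show rem T D0 x - (T.q (rem T D0 x) j + T.q' (rem T D0 x) j) ≤ D0
      omega
    | c j => exact hx.elim
    | t j => exact hx.elim

/-- single step -/
theorem rem_s (h : 1 ≤ D0) (x : List St) (i : ℕ) (hx : nd T D0 (St.s i :: x)) :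
    rem T D0 (St.s i :: x) + T.r (rem T D0 x) i = rem T D0 x ∧
      1 ≤ T.r (rem T D0 x) i ∧ 1 ≤ rem T D0 (St.s i :: x) := by
  have h0 := rem_pos T D0 h x hx.1
  have h1 := T.r_lt _ i h0 hx.2
  have h2 := T.r_pos _ i h0 hx.2
  have h3 : rem T D0 (St.s i :: x) = rem T D0 x - T.r (rem T D0 x) i := rfl
  rw [h3]
  omega

/-- plus step -/
theorem rem_p (h : 1 ≤ D0) (x : List St) (j : ℕ) (hx : nd T D0 (St.p j :: x)) :
    rem T D0 (St.p j :: x) + (T.q (rem T D0 x) j + T.q' (rem T D0 x) j) = rem T D0 x ∧
      1 ≤ T.q (rem T D0 x) j ∧ 1 ≤ T.q' (rem T D0 x) j ∧ 1 ≤ rem T D0 (St.p j :: x) := by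
  have h0 := rem_pos T D0 h x hx.1
  have h1 := T.q_lt _ j h0 hx.2
  have h2 := T.q_pos _ j h0 hx.2
  have h2' := T.q'_pos _ j h0 hx.2
  have h3 : rem T D0 (St.p j :: x) =
    rem T D0 x - (T.q (rem T D0 x) j + T.q' (rem T D0 x) j) := rfl
  rw [h3]
  omega

theorem nd_tail (x : List St) (a : St) (hx : nd T D0 (a :: x)) : nd T D0 x := by
  cases a with
  | s i => exact hx.1
  | p j => exact hx.1
  | c j => exact hx.elim
  | t j => exact hx.elim

namespace TreeAux

theorem length_add (h : 1 ≤ D0) (x : List St) (hx : nd T D0 x) :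
    x.length + rem T D0 x ≤ D0 := by
  induction x with
  | nil =>
    show 0 + D0 ≤ D0
    omega
  | cons a x ih =>
    have h1 := ih (nd_tail T D0 x a hx)
    rw [List.length_cons]
    cases a with
    | s i =>
      have := rem_s T D0 h x i hx
      omega
    | p j =>
      have := rem_p T D0 h x j hx
      omega
    | c j => exact hx.elim
    | t j => exact hx.elim

/-- the children of a node -/
def ch (x : List St) : Finset (List St) :=
  (range (T.nI (rem T D0 x))).image (fun i => St.s i :: x) ∪
    (range (T.nJ (rem T D0 x))).image (fun j => St.p j :: x)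

theorem mem_ch {x y : List St} : y ∈ ch T D0 x ↔
    (∃ i, i < T.nI (rem T D0 x) ∧ St.s i :: x = y) ∨
      ∃ j, j < T.nJ (rem T D0 x) ∧ St.p j :: x = y := by
  unfold ch
  simp only [mem_union, mem_image, mem_range]

/-- every node is the root or a child -/
theorem nd_iff {y : List St} : nd T D0 y ↔ y = [] ∨ ∃ x, nd T D0 x ∧ y ∈ ch T D0 x := by
  constructor
  · intro hy
    cases y with
    | nil => exact Or.inl rfl
    | cons a x =>
      right
      refine ⟨x, nd_tail T D0 x a hy, ?_⟩
      rw [mem_ch]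
      cases a with
      | s i => exact Or.inl ⟨i, hy.2, rfl⟩
      | p j => exact Or.inr ⟨j, hy.2, rfl⟩
      | c j => exact hy.elim
      | t j => exact hy.elim
  · rintro (rfl | ⟨x, hx, hy⟩)
    · exact trivial
    · rcases (mem_ch T D0).1 hy with ⟨i, hi, rfl⟩ | ⟨j, hj, rfl⟩
      · exact ⟨hx, hi⟩
      · exact ⟨hx, hj⟩

theorem tail_of_ch {x y : List St} (h : y ∈ ch T D0 x) : y.tail = x := by
  rcases (mem_ch T D0).1 h with ⟨i, _, rfl⟩ | ⟨j, _, rfl⟩
  · rfl
  · rfl

theorem ne_nil_of_ch {x y : List St} (h : y ∈ ch T D0 x) : y ≠ [] := by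
  rcases (mem_ch T D0).1 h with ⟨i, _, rfl⟩ | ⟨j, _, rfl⟩
  · exact List.cons_ne_nil _ _
  · exact List.cons_ne_nil _ _

theorem finite_le (n : ℕ) : {x : List St | nd T D0 x ∧ x.length ≤ n}.Finite := by
  induction n with
  | zero =>
    refine (Set.finite_singleton ([] : List St)).subset ?_
    rintro x ⟨_, h2⟩
    exact List.length_eq_zero_iff.1 (Nat.le_zero.1 h2)
  | succ n ih =>
    have h1 : ({([] : List St)} ∪ ⋃ x ∈ {x : List St | nd T D0 x ∧ x.length ≤ n},
        (ch T D0 x : Set (List St))).Finite :=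
      (Set.finite_singleton _).union (ih.biUnion fun x _ => (ch T D0 x).finite_toSet)
    refine h1.subset ?_
    rintro y ⟨hy, hl⟩
    rcases (nd_iff T D0).1 hy with rfl | ⟨x, hx, hyx⟩
    · exact Or.inl rfl
    · right
      refine Set.mem_biUnion (x := x) ⟨hx, ?_⟩ hyx
      have h2 := tail_of_ch T D0 hyx
      rw [← h2, List.length_tail]
      omega

end TreeAux

open TreeAux

theorem nd_finite (h : 1 ≤ D0) : {x : List St | nd T D0 x}.Finite := by
  refine (finite_le T D0 D0).subset ?_
  intro x hx
  have := length_add T D0 h x hx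
  exact ⟨hx, by omega⟩

/-- The finite set of the nodes of the `D0`-tree. -/
noncomputable def nodes : Finset (List St) :=
  open Classical in if h : 1 ≤ D0 then (nd_finite T D0 h).toFinset else ∅

theorem mem_nodes (h : 1 ≤ D0) (x : List St) : x ∈ nodes T D0 ↔ nd T D0 x := by
  unfold nodes
  rw [dif_pos h, Set.Finite.mem_toFinset]
  rfl

/-- Sums over the nodes: every node is the root, or `s i :: x`, or `p j :: x`. -/
theorem sum_nodes (h : 1 ≤ D0) (F : List St → ZMod 2) : ∑ x ∈ nodes T D0, F x =
    F [] + ∑ x ∈ nodes T D0, (∑ i ∈ range (T.nI (rem T D0 x)), F (St.s i :: x) +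
      ∑ j ∈ range (T.nJ (rem T D0 x)), F (St.p j :: x)) := by
  have h1 : nodes T D0 = insert [] ((nodes T D0).biUnion (ch T D0)) := by
    ext y
    rw [mem_nodes T D0 h, nd_iff, mem_insert, mem_biUnion]
    constructor
    · rintro (h1 | ⟨x, hx, hy⟩)
      · exact Or.inl h1
      · exact Or.inr ⟨x, (mem_nodes T D0 h x).2 hx, hy⟩
    · rintro (h1 | ⟨x, hx, hy⟩)
      · exact Or.inl h1
      · exact Or.inr ⟨x, (mem_nodes T D0 h x).1 hx, hy⟩
  have h2 : ([] : List St) ∉ (nodes T D0).biUnion (ch T D0) := by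
    rw [mem_biUnion]
    rintro ⟨x, _, hy⟩
    exact ne_nil_of_ch T D0 hy rfl
  calc ∑ x ∈ nodes T D0, F x = ∑ x ∈ insert [] ((nodes T D0).biUnion (ch T D0)), F x := by
        rw [← h1]
    _ = F [] + ∑ x ∈ (nodes T D0).biUnion (ch T D0), F x := sum_insert h2
    _ = F [] + ∑ x ∈ nodes T D0, ∑ y ∈ ch T D0 x, F y := by
        rw [sum_biUnion]
        intro x _ y _ hxy
        rw [Function.onFun, disjoint_left]
        intro z hz hz'
        exact hxy ((tail_of_ch T D0 hz).symm.trans (tail_of_ch T D0 hz'))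
    _ = _ := by
        congr 1
        refine sum_congr rfl fun x _ => ?_
        unfold ch
        rw [sum_union, sum_image, sum_image]
        · intro a _ b _ hab
          have := (List.cons.inj hab).1
          exact St.p.inj this
        · intro a _ b _ hab
          have := (List.cons.inj hab).1
          exact St.s.inj this
        · rw [disjoint_left]
          intro z hz hz'
          obtain ⟨i, _, rfl⟩ := mem_image.1 hz
          obtain ⟨j, _, h3⟩ := mem_image.1 hz'
          have := (List.cons.inj h3).1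
          exact St.noConfusion this

end Pool.Agent.HBA
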