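import Mathlib
import Pool.Agent.Lib.HBA.Tree

set_option autoImplicit false

/-!
# HBA.WDefs : the weak system `W(k)` : definitions  (section 2 of HB_all_proof.md)

Trees are indexed by their root degree `D` (data trees: `D = v` = weight of the datum; reader trees:
`D = k - t`). `N g D []  = f g (k - D)`.
-/

namespace Pool.Agent.HBA

open Finset Pool.Agent.P47443c

/-- Types: side, root degree, node, pair index. -/
structure Ty where
  dat : Bool
  D : ℕ
  x : List St
  j : ℕ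
  deriving DecidableEq

/-- Labels of the weak system. -/
structure WL (A : Type) where
  dat : Bool
  g : Finset Ty
  D : ℕ
  x : List St
  v : A
  deriving DecidableEq

variable (T : TF) (k : ℕ)

/-- The weight of the form used by the type `y`. -/
def ta (y : Ty) : ℕ :=
  if y.dat then rem T y.D y.x - T.q' (rem T y.D y.x) y.j
  else (k - rem T y.D y.x) + T.q (rem T y.D y.x) y.j

/-- The valid types. -/
def okT (y : Ty) : Prop := 1 ≤ y.D ∧ y.D < k ∧ nd T y.D y.x ∧ y.j < T.nJ (rem T y.D y.x)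

/-- The finite set of the valid types. -/
noncomputable def Ys : Finset Ty :=
  ((range 2 ×ˢ range k).biUnion (fun bD => (nodes T bD.2).biUnion (fun x =>
    (range (T.nJ (rem T bD.2 x))).image (fun j => Ty.mk (decide (bD.1 = 1)) bD.2 x j)))).filter
    (fun y => 1 ≤ y.D)

/-- Toggle the type `y`. -/
def tog (g : Finset Ty) (y : Ty) : Finset Ty := symmDiff g {y}

variable {T k}

/-- The values of the labels of a node. -/
def wz {A : Type} (b : Bool) (g : Finset Ty) (D : ℕ) (x : List St) (z : WL A → ZMod 2) :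
    A → ZMod 2 := fun v => z ⟨b, g, D, x, v⟩

variable (T k)

def GW (b : Bool) (g : Finset Ty) (D : ℕ) (x : List St) (z : WL T.V → ZMod 2) : ZMod 2 :=
  T.G (rem T D x) (wz b g D x z)

def RW (b : Bool) (g : Finset Ty) (D : ℕ) (x : List St) (i : ℕ) (z : WL T.V → ZMod 2) : ZMod 2 :=
  T.R (rem T D x) i (wz b g D x z)

def QW (b : Bool) (g : Finset Ty) (D : ℕ) (x : List St) (j : ℕ) (z : WL T.V → ZMod 2) : ZMod 2 :=
  T.Q (rem T D x) j (wz b g D x z)

def QW' (b : Bool) (g : Finset Ty) (D : ℕ) (x : List St) (j : ℕ) (z : WL T.V → ZMod 2) :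
    ZMod 2 :=
  T.Q' (rem T D x) j (wz b g D x z)

/-- The forms of the weak system. -/
structure WForms where
  m : Finset Ty → ℕ → List St → (WL T.V → ZMod 2) → ZMod 2
  N : Finset Ty → ℕ → List St → (WL T.V → ZMod 2) → ZMod 2
  f : Finset Ty → ℕ → (WL T.V → ZMod 2) → ZMod 2
  m_eq : ∀ g D x, 1 ≤ D → D < k → nd T D x → ∀ z, m g D x z = GW T true g D x z +
    ∑ i ∈ range (T.nI (rem T D x)), m g D (St.s i :: x) z * RW T true g D x i z +
    ∑ j ∈ range (T.nJ (rem T D x)), (f (tog g ⟨true, D, x, j⟩) (ta T k ⟨true, D, x, j⟩) z +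
      m g D (St.p j :: x) z * QW T true g D x j z) * QW' T true g D x j z
  N_nil : ∀ g D, 1 ≤ D → D < k → ∀ z, N g D [] z = f g (k - D) z
  N_s : ∀ g D x i, 1 ≤ D → D < k → nd T D (St.s i :: x) → ∀ z,
    N g D (St.s i :: x) z = N g D x z * RW T false g D x i z
  N_p : ∀ g D x j, 1 ≤ D → D < k → nd T D (St.p j :: x) → ∀ z,
    N g D (St.p j :: x) z = (f (tog g ⟨false, D, x, j⟩) (ta T k ⟨false, D, x, j⟩) z +
      N g D x z * QW T false g D x j z) * QW' T false g D x j z
  f_eq : ∀ g u, 1 ≤ u → u < k → ∀ z, f g u z = m g u [] z +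
    ∑ y ∈ (Ys T k).filter (fun y => ta T k y = u),
      (if y.dat then m (tog g y) y.D (St.p y.j :: y.x) z * QW T true (tog g y) y.D y.x y.j z
       else N (tog g y) y.D y.x z * QW T false (tog g y) y.D y.x y.j z)

/-- Ownership of the labels: `(g, D)` is the datum of a data label, `(g, k - D)` the output of a
reader label. -/
def wown {A : Type} (l : WL A) : Option ((Finset Ty × ℕ) ⊕ (Finset Ty × ℕ)) :=
  if l.dat then some (Sum.inl (l.g, l.D)) else some (Sum.inr (l.g, k - l.D))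

/-- The units in use. -/
noncomputable def WU : Finset (Finset Ty × ℕ) := (Ys T k).powerset ×ˢ Finset.Ioo 0 k

/-- Support of `m g D x`. -/
def PM (g : Finset Ty) (D : ℕ) (x : List St) (l : WL T.V) : Prop :=
  (∀ y, rem T D x ≤ ta T k y → (y ∈ l.g ↔ y ∈ g)) ∧
  (l.g = g → l.dat = true ∧ l.D = D ∧ x <:+ l.x)

/-- Support of `N g D x`. -/
def PN (g : Finset Ty) (D : ℕ) (x : List St) (l : WL T.V) : Prop :=
  (∀ y, k - rem T D x < ta T k y → (y ∈ l.g ↔ y ∈ g)) ∧
  (l.g = g → l.dat = true ∨ (l.dat = false ∧ l.D = D ∧ l.x <:+ x ∧ l.x ≠ x))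

/-- Support of `f g u` without the summand of the type `y`, seen from `tog g y` : for `u = ta y`, a
label of `f (tog g y) u` outside of the summand `y` satisfies this with respect to `g`. -/
def PR (g : Finset Ty) (y : Ty) (l : WL T.V) : Prop :=
  (∀ y', ta T k y < ta T k y' → (y' ∈ l.g ↔ y' ∈ g)) ∧ (y ∈ l.g ↔ y ∉ g)

/-- Support of `f g u`. -/
def PF (g : Finset Ty) (u : ℕ) (l : WL T.V) : Prop :=
  (∀ y, u < ta T k y → (y ∈ l.g ↔ y ∈ g)) ∧ (l.g = g → l.dat = true)

variable {T k}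

/-- The form at the type `y` (minus its own summand): `f (tog g y) (ta y)` plus the summand. -/
def WForms.rh (F : WForms T k) (g : Finset Ty) (y : Ty) (z : WL T.V → ZMod 2) : ZMod 2 :=
  F.f (tog g y) (ta T k y) z +
    (if y.dat then F.m g y.D (St.p y.j :: y.x) z * QW T true g y.D y.x y.j z
     else F.N g y.D y.x z * QW T false g y.D y.x y.j z)

/-- The homogeneous function of the output `(g, t)`. -/
noncomputable def WForms.Phi (F : WForms T k) (a : Finset Ty × ℕ) (z : WL T.V → ZMod 2) : ZMod 2 :=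
  ∑ x ∈ nodes T (k - a.2), F.N a.1 (k - a.2) x z * GW T false a.1 (k - a.2) x z

/-- The value of the output `(g, t)`. -/
noncomputable def WForms.Pi (F : WForms T k) (a : Finset Ty × ℕ) (z : WL T.V → ZMod 2) : ZMod 2 :=
  F.f a.1 a.2 z + ∑ x ∈ nodes T (k - a.2), ∑ j ∈ range (T.nJ (rem T (k - a.2) x)),
    F.f (tog a.1 ⟨false, k - a.2, x, j⟩) (ta T k ⟨false, k - a.2, x, j⟩) z *
      QW' T false a.1 (k - a.2) x j z

theorem mem_tog (g : Finset Ty) (y y' : Ty) : y' ∈ tog g y ↔ (y' ∈ g ↔ y' ≠ y) := by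
  unfold tog
  rw [mem_symmDiff, mem_singleton]
  tauto

theorem tog_tog (g : Finset Ty) (y : Ty) : tog (tog g y) y = g :=
  symmDiff_symmDiff_cancel_right _ _

theorem mem_Ys (T : TF) (k : ℕ) (y : Ty) : y ∈ Ys T k ↔ okT T k y := by
  unfold Ys okT
  simp only [mem_filter, mem_biUnion, mem_product, mem_range, mem_image, Prod.exists]
  constructor
  · rintro ⟨⟨b, D, ⟨hb, hD⟩, x, hx, j, hj, rfl⟩, h1⟩
    exact ⟨h1, hD, (mem_nodes T D h1 x).1 hx, hj⟩
  · rintro ⟨h1, h2, h3, h4⟩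
    obtain ⟨b, D, x, j⟩ := y
    refine ⟨⟨if b then 1 else 0, D, ⟨?_, h2⟩, x, (mem_nodes T D h1 x).2 h3, j, h4, ?_⟩, h1⟩
    · cases b <;> decide
    · cases b <;> simp

theorem ta_pos (T : TF) (k : ℕ) (y : Ty) (h : okT T k y) : 1 ≤ ta T k y ∧ ta T k y < k := by
  obtain ⟨h1, h2, h3, h4⟩ := h
  have r1 := rem_pos T y.D h1 y.x h3
  have r2 := rem_le T y.D y.x h3
  have q1 := T.q_pos _ _ r1 h4
  have q2 := T.q'_pos _ _ r1 h4
  have q3 := T.q_lt _ _ r1 h4
  unfold ta
  split_ifs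
  · omega
  · omega

theorem tog_mem_powerset (T : TF) (k : ℕ) (g : Finset Ty) (y : Ty) (hg : g ⊆ Ys T k)
    (h : okT T k y) : tog g y ⊆ Ys T k := by
  intro y' hy'
  unfold tog at hy'
  rw [mem_symmDiff, mem_singleton] at hy'
  rcases hy' with ⟨h1, _⟩ | ⟨h1, _⟩
  · exact hg h1
  · rw [h1, mem_Ys]
    exact h

end Pool.Agent.HBA
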