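import Mathlib
import Pool.Agent.Lib.HBA.WDefs

set_option autoImplicit false

/-!
# Module HBA.WDec : decoding of the weak system

`z' = dflip (wown k) d z`, `d` supported on `WU T k`. The labels `⟨false, ..⟩` are unchanged, so
`RW false`, `QW false`, `QW' false` are unchanged; `wz true g D x z' = fun v => wz true g D x z v + d (g, D)`,
so `RW true`, `QW true`, `QW' true` are unchanged and `GW true g D x z' = GW z + d (g,D) * (1 + ∑ R + ∑ Q Q')`
(`d (g,D)` is `0` or `1`).
1. All `f g u` with `(g,u) ∈ WU` are unchanged: strong induction on `k - u`; if `Pi (g,u)` is unchanged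
   then `f g u` is, because the other terms of `Pi` are `f (tog g y) (ta y) * QW'` with
   `ta y = k - rem + q > k - rem ≥ u` (`rem_le`, `D = k - u`), `(tog g y, ta y) ∈ WU`
   (`tog_mem_powerset`, `ta_pos`).
2. `N g D x` is unchanged for `g ⊆ Ys`, `1 ≤ D < k`, all nodes `x` (induction on `x`).
3. `m g D x z' = m g D x z + d (g, D)` for `g ⊆ Ys` (strong induction on `rem T D x`; `m_eq`, the `f`-values
   are unchanged, `(f + m' Q) Q'` changes by `d Q Q'`).
4. `d (g, u) = 0` : strong induction on `k - u` : `f_eq` at `z'` and `z` : `0 = d (g,u) + ∑_{y data, ta y = u}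
   d (tog g y, y.D) * QW`, and `y.D > u` (`ta y = rem x - q' < rem x ≤ D`), `(tog g y, y.D) ∈ WU`.
-/

namespace Pool.Agent.HBA

open Finset Pool.Agent.P47443c

variable {T : TF} {k : ℕ}

namespace WDecAux

theorem z01 (a : ZMod 2) : a = 0 ∨ a = 1 := by revert a; decide

theorem mem_WU' {g : Finset Ty} {u : ℕ} : (g, u) ∈ WU T k ↔ g ⊆ Ys T k ∧ 1 ≤ u ∧ u < k := by
  unfold WU
  rw [mem_product, Finset.mem_Ioo, mem_powerset]
  rfl

theorem wz_true (d : Finset Ty × ℕ → ZMod 2) (z : WL T.V → ZMod 2) (g : Finset Ty) (D : ℕ)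
    (x : List St) :
    wz true g D x (dflip (wown k) d z) = fun v => wz true g D x z v + d (g, D) := rfl

theorem wz_false (d : Finset Ty × ℕ → ZMod 2) (z : WL T.V → ZMod 2) (g : Finset Ty) (D : ℕ)
    (x : List St) :
    wz false g D x (dflip (wown k) d z) = wz false g D x z := by
  funext v
  change z ⟨false, g, D, x, v⟩ + 0 = z ⟨false, g, D, x, v⟩
  rw [add_zero]

theorem inv_of {A : Type} (H : (A → ZMod 2) → ZMod 2) (hH : ∀ x, H (fun v => x v + 1) = H x)
    (c : ZMod 2) (x : A → ZMod 2) : H (fun v => x v + c) = H x := by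
  rcases z01 c with rfl | rfl
  · simp only [add_zero]
  · exact hH x

theorem RW_inv (d : Finset Ty × ℕ → ZMod 2) (z : WL T.V → ZMod 2) (c : Bool) (g : Finset Ty)
    (D : ℕ) (x : List St) (i : ℕ) (hD : 1 ≤ D) (hx : nd T D x) (hi : i < T.nI (rem T D x)) :
    RW T c g D x i (dflip (wown k) d z) = RW T c g D x i z := by
  unfold RW
  cases c with
  | true =>
    rw [wz_true]
    exact inv_of _ (T.invR _ i (rem_pos T D hD x hx) hi) _ _
  | false => rw [wz_false]

theorem QW_inv (d : Finset Ty × ℕ → ZMod 2) (z : WL T.V → ZMod 2) (c : Bool) (g : Finset Ty)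
    (D : ℕ) (x : List St) (j : ℕ) (hD : 1 ≤ D) (hx : nd T D x) (hj : j < T.nJ (rem T D x)) :
    QW T c g D x j (dflip (wown k) d z) = QW T c g D x j z := by
  unfold QW
  cases c with
  | true =>
    rw [wz_true]
    exact inv_of _ (T.invQ _ j (rem_pos T D hD x hx) hj) _ _
  | false => rw [wz_false]

theorem QW'_inv (d : Finset Ty × ℕ → ZMod 2) (z : WL T.V → ZMod 2) (c : Bool) (g : Finset Ty)
    (D : ℕ) (x : List St) (j : ℕ) (hD : 1 ≤ D) (hx : nd T D x) (hj : j < T.nJ (rem T D x)) :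
    QW' T c g D x j (dflip (wown k) d z) = QW' T c g D x j z := by
  unfold QW'
  cases c with
  | true =>
    rw [wz_true]
    exact inv_of _ (T.invQ' _ j (rem_pos T D hD x hx) hj) _ _
  | false => rw [wz_false]

theorem GW_chg (d : Finset Ty × ℕ → ZMod 2) (z : WL T.V → ZMod 2) (g : Finset Ty)
    (D : ℕ) (x : List St) (hD : 1 ≤ D) (hx : nd T D x) :
    GW T true g D x (dflip (wown k) d z) = GW T true g D x z +
      d (g, D) * (1 + ∑ i ∈ range (T.nI (rem T D x)), RW T true g D x i z +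
        ∑ j ∈ range (T.nJ (rem T D x)), QW T true g D x j z * QW' T true g D x j z) := by
  unfold GW
  rw [wz_true]
  rcases z01 (d (g, D)) with h | h
  · rw [h]
    simp only [add_zero, zero_mul]
  · rw [h, one_mul]
    exact T.key _ (rem_pos T D hD x hx) _

/-- step 1 -/
theorem f_inv (F : WForms T k) (z : WL T.V → ZMod 2) (d : Finset Ty × ℕ → ZMod 2)
    (h : ∀ a ∈ WU T k, F.f a.1 a.2 (dflip (wown k) d z) = F.f a.1 a.2 z ∨
      F.Pi a (dflip (wown k) d z) = F.Pi a z) (n : ℕ) :
    ∀ g u, g ⊆ Ys T k → 1 ≤ u → u < k → k - u = n →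
      F.f g u (dflip (wown k) d z) = F.f g u z := by
  induction n using Nat.strong_induction_on with
  | _ n ih =>
  intro g u hg hu huk hn
  rcases h (g, u) (mem_WU'.2 ⟨hg, hu, huk⟩) with h1 | h1
  · exact h1
  have hD : 1 ≤ k - u := by omega
  have hDk : k - u < k := by omega
  unfold WForms.Pi at h1
  have h2 : (∑ x ∈ nodes T (k - u), ∑ j ∈ range (T.nJ (rem T (k - u) x)),
      F.f (tog g ⟨false, k - u, x, j⟩) (ta T k ⟨false, k - u, x, j⟩) (dflip (wown k) d z) *
      QW' T false g (k - u) x j (dflip (wown k) d z)) =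
      ∑ x ∈ nodes T (k - u), ∑ j ∈ range (T.nJ (rem T (k - u) x)),
      F.f (tog g ⟨false, k - u, x, j⟩) (ta T k ⟨false, k - u, x, j⟩) z *
      QW' T false g (k - u) x j z := by
    refine sum_congr rfl (fun x hx => sum_congr rfl (fun j hj => ?_))
    rw [mem_nodes T _ hD] at hx
    rw [mem_range] at hj
    have h3 : okT T k ⟨false, k - u, x, j⟩ := ⟨hD, hDk, hx, hj⟩
    have h4 := ta_pos T k ⟨false, k - u, x, j⟩ h3
    have h5 : ta T k ⟨false, k - u, x, j⟩ =
      (k - rem T (k - u) x) + T.q (rem T (k - u) x) j := rfl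
    have h6 := rem_le T (k - u) x hx
    have h7 := T.q_pos _ j (rem_pos T (k - u) hD x hx) hj
    rw [QW'_inv d z false g (k - u) x j hD hx hj,
      ih (k - ta T k ⟨false, k - u, x, j⟩) (by omega) _ _
        (tog_mem_powerset T k g _ hg h3) h4.1 h4.2 rfl]
  have h3 := h1
  simp only at h3
  rw [h2] at h3
  exact add_right_cancel h3

/-- step 2 -/
theorem N_inv (F : WForms T k) (z : WL T.V → ZMod 2) (d : Finset Ty × ℕ → ZMod 2)
    (hf : ∀ g u, g ⊆ Ys T k → 1 ≤ u → u < k →
      F.f g u (dflip (wown k) d z) = F.f g u z)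
    (g : Finset Ty) (hg : g ⊆ Ys T k) (D : ℕ) (hD : 1 ≤ D) (hDk : D < k) (x : List St)
    (hx : nd T D x) : F.N g D x (dflip (wown k) d z) = F.N g D x z := by
  induction x with
  | nil =>
    rw [F.N_nil g D hD hDk, F.N_nil g D hD hDk]
    exact hf g (k - D) hg (by omega) (by omega)
  | cons a x ih =>
    cases a with
    | s i =>
      rw [F.N_s g D x i hD hDk hx, F.N_s g D x i hD hDk hx, RW_inv d z false g D x i hD hx.1 hx.2,
        ih hx.1]
    | p j =>
      have h3 : okT T k ⟨false, D, x, j⟩ := ⟨hD, hDk, hx.1, hx.2⟩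
      have h4 := ta_pos T k ⟨false, D, x, j⟩ h3
      rw [F.N_p g D x j hD hDk hx, F.N_p g D x j hD hDk hx,
        QW_inv d z false g D x j hD hx.1 hx.2, QW'_inv d z false g D x j hD hx.1 hx.2,
        ih hx.1, hf _ _ (tog_mem_powerset T k g _ hg h3) h4.1 h4.2]
    | c j => exact hx.elim
    | t j => exact hx.elim

/-- step 3 -/
theorem m_chg (F : WForms T k) (z : WL T.V → ZMod 2) (d : Finset Ty × ℕ → ZMod 2)
    (hf : ∀ g u, g ⊆ Ys T k → 1 ≤ u → u < k →
      F.f g u (dflip (wown k) d z) = F.f g u z)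
    (g : Finset Ty) (hg : g ⊆ Ys T k) (D : ℕ) (hD : 1 ≤ D) (hDk : D < k) (n : ℕ) :
    ∀ x, nd T D x → rem T D x = n →
      F.m g D x (dflip (wown k) d z) = F.m g D x z + d (g, D) := by
  induction n using Nat.strong_induction_on with
  | _ n ih =>
  intro x hx hn
  have hs : ∑ i ∈ range (T.nI (rem T D x)), F.m g D (St.s i :: x) (dflip (wown k) d z) *
      RW T true g D x i (dflip (wown k) d z) =
      ∑ i ∈ range (T.nI (rem T D x)), F.m g D (St.s i :: x) z * RW T true g D x i z +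
      d (g, D) * ∑ i ∈ range (T.nI (rem T D x)), RW T true g D x i z := by
    rw [mul_sum, ← sum_add_distrib]
    refine sum_congr rfl (fun i hi => ?_)
    rw [mem_range] at hi
    have h0 : nd T D (St.s i :: x) := ⟨hx, hi⟩
    have h1 := rem_s T D hD x i h0
    rw [RW_inv d z true g D x i hD hx hi, ih (rem T D (St.s i :: x)) (by omega) _ h0 rfl]
    ring
  have hp : ∑ j ∈ range (T.nJ (rem T D x)),
      (F.f (tog g ⟨true, D, x, j⟩) (ta T k ⟨true, D, x, j⟩) (dflip (wown k) d z) +
      F.m g D (St.p j :: x) (dflip (wown k) d z) * QW T true g D x j (dflip (wown k) d z)) *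
        QW' T true g D x j (dflip (wown k) d z) =
      ∑ j ∈ range (T.nJ (rem T D x)),
      (F.f (tog g ⟨true, D, x, j⟩) (ta T k ⟨true, D, x, j⟩) z +
      F.m g D (St.p j :: x) z * QW T true g D x j z) * QW' T true g D x j z +
      d (g, D) * ∑ j ∈ range (T.nJ (rem T D x)), QW T true g D x j z * QW' T true g D x j z := by
    rw [mul_sum, ← sum_add_distrib]
    refine sum_congr rfl (fun j hj => ?_)
    rw [mem_range] at hj
    have h0 : nd T D (St.p j :: x) := ⟨hx, hj⟩
    have h1 := rem_p T D hD x j h0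
    have h3 : okT T k ⟨true, D, x, j⟩ := ⟨hD, hDk, hx, hj⟩
    have h2 := ta_pos T k ⟨true, D, x, j⟩ h3
    rw [QW'_inv d z true g D x j hD hx hj, QW_inv d z true g D x j hD hx hj,
      ih (rem T D (St.p j :: x)) (by omega) _ h0 rfl,
      hf _ _ (tog_mem_powerset T k g _ hg h3) h2.1 h2.2]
    ring
  rw [F.m_eq g D x hD hDk hx, F.m_eq g D x hD hDk hx, GW_chg d z g D x hD hx, hs, hp]
  have h4 := z2_add_self (d (g, D) * ∑ i ∈ range (T.nI (rem T D x)), RW T true g D x i z)
  have h5 := z2_add_self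
    (d (g, D) * ∑ j ∈ range (T.nJ (rem T D x)), QW T true g D x j z * QW' T true g D x j z)
  linear_combination h4 + h5

/-- step 4 -/
theorem d_zero (F : WForms T k) (z : WL T.V → ZMod 2) (d : Finset Ty × ℕ → ZMod 2)
    (hf : ∀ g u, g ⊆ Ys T k → 1 ≤ u → u < k →
      F.f g u (dflip (wown k) d z) = F.f g u z) (n : ℕ) :
    ∀ g u, g ⊆ Ys T k → 1 ≤ u → u < k → k - u = n → d (g, u) = 0 := by
  induction n using Nat.strong_induction_on with
  | _ n ih =>
  intro g u hg hu huk hn
  have h1 := hf g u hg hu huk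
  rw [F.f_eq g u hu huk, F.f_eq g u hu huk, m_chg F z d hf g hg u hu huk _ [] trivial rfl] at h1
  have h2 : (∑ y ∈ (Ys T k).filter (fun y => ta T k y = u),
      (if y.dat then F.m (tog g y) y.D (St.p y.j :: y.x) (dflip (wown k) d z) *
        QW T true (tog g y) y.D y.x y.j (dflip (wown k) d z)
       else F.N (tog g y) y.D y.x (dflip (wown k) d z) *
        QW T false (tog g y) y.D y.x y.j (dflip (wown k) d z))) =
      ∑ y ∈ (Ys T k).filter (fun y => ta T k y = u),
      (if y.dat then F.m (tog g y) y.D (St.p y.j :: y.x) z * QW T true (tog g y) y.D y.x y.j z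
       else F.N (tog g y) y.D y.x z * QW T false (tog g y) y.D y.x y.j z) := by
    refine sum_congr rfl (fun y hy => ?_)
    rw [mem_filter, mem_Ys] at hy
    obtain ⟨hok, hta⟩ := hy
    have hgy := tog_mem_powerset T k g y hg hok
    obtain ⟨h1, h2, h3, h4⟩ := hok
    have h5 : nd T y.D (St.p y.j :: y.x) := ⟨h3, h4⟩
    have h6 := rem_p T y.D h1 y.x y.j h5
    have h7 := rem_le T y.D y.x h3
    unfold ta at hta
    by_cases hd : y.dat = true
    · rw [if_pos hd, if_pos hd]
      rw [if_pos hd] at hta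
      rw [QW_inv d z true _ y.D y.x y.j h1 h3 h4,
        m_chg F z d hf _ hgy y.D h1 h2 _ _ h5 rfl,
        ih (k - y.D) (by omega) (tog g y) y.D hgy h1 h2 rfl, add_zero]
    · rw [if_neg hd, if_neg hd]
      rw [QW_inv d z false _ y.D y.x y.j h1 h3 h4, N_inv F z d hf _ hgy y.D h1 h2 y.x h3]
  rw [h2] at h1
  have h3 := add_right_cancel h1
  exact left_eq_add.1 h3.symm

end WDecAux

open WDecAux

theorem w_dec (F : WForms T k) (z : WL T.V → ZMod 2) (d : Finset Ty × ℕ → ZMod 2)
    (hd : ∀ a, a ∉ WU T k → d a = 0)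
    (h : ∀ a ∈ WU T k, F.f a.1 a.2 (dflip (wown k) d z) = F.f a.1 a.2 z ∨
      F.Pi a (dflip (wown k) d z) = F.Pi a z) : d = 0 := by
  have hf : ∀ g u, g ⊆ Ys T k → 1 ≤ u → u < k →
      F.f g u (dflip (wown k) d z) = F.f g u z :=
    fun g u hg hu huk => f_inv F z d h _ g u hg hu huk rfl
  funext a
  by_cases ha : a ∈ WU T k
  · obtain ⟨g, u⟩ := a
    obtain ⟨h1, h2, h3⟩ := mem_WU'.1 ha
    exact d_zero F z d hf _ g u h1 h2 h3 rfl
  · exact hd a ha

end Pool.Agent.HBA
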