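import Mathlib
import Pool.Agent.Lib.HBA.WDefs
import Pool.Agent.Lib.HBA.Fix

set_option autoImplicit false

/-!
# Module HBA.WEx : the forms of the weak system exist

`exists_fix` with `X = (Finset Ty × ℕ × List St) ⊕ (Finset Ty × ℕ × List St) ⊕ (Finset Ty × ℕ)` (for
`m`, `N`, `f`), `A = (WL T.V → ZMod 2) → ZMod 2`, measure `3 * rem T D x` for `m g D x`,
`3 * u + 1` for `f g u`, `3 * (k - rem T D x) + 2` for `N g D x`. In `Phi` every value `F y` is
replaced by `if mu y < mu x then F y else 0`, so that the hypothesis of `exists_fix` is trivial; for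
the valid arguments the conditions are true (`rem_s`, `rem_p`, `ta`).
-/

namespace Pool.Agent.HBA

open Finset Pool.Agent.P47443c

namespace WExAux

/-- Arguments of the three families of forms. -/
abbrev XX : Type := (Finset Ty × ℕ × List St) ⊕ (Finset Ty × ℕ × List St) ⊕ (Finset Ty × ℕ)

/-- The measure. -/
def mu (T : TF) (k : ℕ) : XX → ℕ
  | Sum.inl (_, D, x) => 3 * rem T D x
  | Sum.inr (Sum.inl (_, D, x)) => 3 * (k - rem T D x) + 2
  | Sum.inr (Sum.inr (_, u)) => 3 * u + 1

/-- The recursion. -/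
noncomputable def Psi (T : TF) (k : ℕ) (F : XX → (WL T.V → ZMod 2) → ZMod 2) :
    XX → (WL T.V → ZMod 2) → ZMod 2
  | Sum.inl (g, D, x) => fun z => GW T true g D x z +
      ∑ i ∈ range (T.nI (rem T D x)), F (Sum.inl (g, D, St.s i :: x)) z * RW T true g D x i z +
      ∑ j ∈ range (T.nJ (rem T D x)),
        (F (Sum.inr (Sum.inr (tog g ⟨true, D, x, j⟩, ta T k ⟨true, D, x, j⟩))) z +
          F (Sum.inl (g, D, St.p j :: x)) z * QW T true g D x j z) * QW' T true g D x j z
  | Sum.inr (Sum.inl (g, D, [])) => fun z => F (Sum.inr (Sum.inr (g, k - D))) z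
  | Sum.inr (Sum.inl (g, D, St.s i :: x)) => fun z =>
      F (Sum.inr (Sum.inl (g, D, x))) z * RW T false g D x i z
  | Sum.inr (Sum.inl (g, D, St.p j :: x)) => fun z =>
      (F (Sum.inr (Sum.inr (tog g ⟨false, D, x, j⟩, ta T k ⟨false, D, x, j⟩))) z +
        F (Sum.inr (Sum.inl (g, D, x))) z * QW T false g D x j z) * QW' T false g D x j z
  | Sum.inr (Sum.inl (_, _, _ :: _)) => fun _ => 0
  | Sum.inr (Sum.inr (g, u)) => fun z => F (Sum.inl (g, u, [])) z +
      ∑ y ∈ (Ys T k).filter (fun y => ta T k y = u),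
        (if y.dat then F (Sum.inl (tog g y, y.D, St.p y.j :: y.x)) z *
            QW T true (tog g y) y.D y.x y.j z
         else F (Sum.inr (Sum.inl (tog g y, y.D, y.x))) z * QW T false (tog g y) y.D y.x y.j z)

/-- The guarded values. -/
noncomputable def gd (T : TF) (k : ℕ) (F : XX → (WL T.V → ZMod 2) → ZMod 2) (x : XX) :
    XX → (WL T.V → ZMod 2) → ZMod 2 :=
  fun y => if mu T k y < mu T k x then F y else fun _ => 0

theorem gd_of_lt {T : TF} {k : ℕ} {F : XX → (WL T.V → ZMod 2) → ZMod 2} {x y : XX}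
    (h : mu T k y < mu T k x) : gd T k F x y = F y := if_pos h

theorem exists_F (T : TF) (k : ℕ) : ∃ F : XX → (WL T.V → ZMod 2) → ZMod 2,
    ∀ x, F x = Psi T k (gd T k F x) x := by
  refine exists_fix (mu T k) (fun F x => Psi T k (gd T k F x) x) ?_
  intro F F' x h
  have : gd T k F x = gd T k F' x := by
    funext y
    unfold gd
    split_ifs with hy
    · exact h y hy
    · rfl
  simp only [this]

end WExAux

open WExAux in
theorem exists_wforms (T : TF) (k : ℕ) (hk : 2 ≤ k) : Nonempty (WForms T k) := by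
  obtain ⟨F, hF⟩ := exists_F T k
  refine ⟨{ m := fun g D x => F (Sum.inl (g, D, x))
            N := fun g D x => F (Sum.inr (Sum.inl (g, D, x)))
            f := fun g u => F (Sum.inr (Sum.inr (g, u)))
            m_eq := ?_, N_nil := ?_, N_s := ?_, N_p := ?_, f_eq := ?_ }⟩
  · intro g D x hD hDk hx z
    have h0 := congrFun (hF (Sum.inl (g, D, x))) z
    rw [h0]
    simp only [Psi]
    congr 1
    · congr 1
      refine Finset.sum_congr rfl fun i hi => ?_
      have hnd : nd T D (St.s i :: x) := ⟨hx, Finset.mem_range.1 hi⟩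
      have hr := rem_s T D hD x i hnd
      rw [gd_of_lt (by simp only [mu]; omega)]
    · refine Finset.sum_congr rfl fun j hj => ?_
      have hnd : nd T D (St.p j :: x) := ⟨hx, Finset.mem_range.1 hj⟩
      have hr := rem_p T D hD x j hnd
      rw [gd_of_lt (by simp only [mu, ta, if_true]; omega), gd_of_lt (by simp only [mu]; omega)]
  · intro g D hD hDk z
    have h0 := congrFun (hF (Sum.inr (Sum.inl (g, D, [])))) z
    rw [h0]
    simp only [Psi]
    rw [gd_of_lt (by simp only [mu, rem]; omega)]
  · intro g D x i hD hDk hnd z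
    have h0 := congrFun (hF (Sum.inr (Sum.inl (g, D, St.s i :: x)))) z
    rw [h0]
    simp only [Psi]
    have hr := rem_s T D hD x i hnd
    have hle := rem_le T D x hnd.1
    rw [gd_of_lt (by simp only [mu]; omega)]
  · intro g D x j hD hDk hnd z
    have h0 := congrFun (hF (Sum.inr (Sum.inl (g, D, St.p j :: x)))) z
    rw [h0]
    simp only [Psi]
    have hr := rem_p T D hD x j hnd
    have hle := rem_le T D x hnd.1
    rw [gd_of_lt (by simp [mu, ta]; omega), gd_of_lt (by simp only [mu]; omega)]
  · intro g u hu huk z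
    have h0 := congrFun (hF (Sum.inr (Sum.inr (g, u)))) z
    rw [h0]
    simp only [Psi]
    congr 1
    · rw [gd_of_lt (by simp only [mu, rem]; omega)]
    · refine Finset.sum_congr rfl fun y hy => ?_
      obtain ⟨hyY, hyu⟩ := Finset.mem_filter.1 hy
      obtain ⟨h1, h2, h3, h4⟩ := (mem_Ys T k y).1 hyY
      have hnd : nd T y.D (St.p y.j :: y.x) := ⟨h3, h4⟩
      have hr := rem_p T y.D h1 y.x y.j hnd
      have hle := rem_le T y.D y.x h3
      by_cases hd : y.dat = true
      · have hyu' : rem T y.D y.x - T.q' (rem T y.D y.x) y.j = u := by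
          rw [← hyu]; simp [ta, hd]
        rw [if_pos hd, if_pos hd]
        rw [gd_of_lt (by simp only [mu]; omega)]
      · have hyu' : (k - rem T y.D y.x) + T.q (rem T y.D y.x) y.j = u := by
          rw [← hyu]; simp [ta, hd]
        rw [if_neg hd, if_neg hd]
        rw [gd_of_lt (by simp only [mu]; omega)]

end Pool.Agent.HBA
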