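import Mathlib
import Pool.Agent.Lib.HBA.WDefs

set_option autoImplicit false

/-!
# Module HBA.WFlip : output flips in the weak system

`pflip (wown k) b`, `b = (g', t')`, `1 ≤ t' < k`, flips the labels `⟨false, g', k - t', _, _⟩` (and the
labels with `k - l.D = t'`), so: `wz true g D x` is unchanged; for `1 ≤ D < k`, `wz false g D x` is
unchanged if `(g, k - D) ≠ b`, and is `fun v => _ + 1` if `(g, k - D) = b`. Hence `RW`, `QW`, `QW'` are
unchanged (`T.invR`, ..., `rem_pos`) and `GW true`.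
* `inv_all` : by strong induction on the weight, in the order `m`, `f`, `N` (as in WHom, but only
  equalities of values): all forms are unchanged.
* `WPhi_flip` : `∑_x N x * GW x`, `GW (flipped) = GW + (1 + ∑ R + ∑ Q Q')` (`T.key`), so the sum changes
  by `∑_x N x * (1 + ∑_i RW + ∑_j QW * QW')`; with `N (s i :: x) = N x * RW`,
  `N (p j :: x) + f * QW' = N x * QW * QW'` (char 2) and `sum_nodes` this is `F.Pi a`.
-/

namespace Pool.Agent.HBA

open Finset Pool.Agent.P47443c

variable {T : TF} {k : ℕ}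

namespace WFlipAux

theorem wz_true (b : Finset Ty × ℕ) (z : WL T.V → ZMod 2) (g : Finset Ty) (D : ℕ)
    (x : List St) : wz true g D x (pflip (wown k) b z) = wz true g D x z := by
  funext v
  change z ⟨true, g, D, x, v⟩ + (if wown k ⟨true, g, D, x, v⟩ = some (Sum.inr b) then 1 else 0)
    = z ⟨true, g, D, x, v⟩
  rw [if_neg, add_zero]
  intro h
  change some (Sum.inl (g, D)) = some (Sum.inr b) at h
  exact Sum.inl_ne_inr (Option.some.inj h)

theorem wown_false (b : Finset Ty × ℕ) (g : Finset Ty) (D : ℕ) (x : List St) (v : T.V) :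
    wown k (⟨false, g, D, x, v⟩ : WL T.V) = some (Sum.inr b) ↔ (g, k - D) = b := by
  change some (Sum.inr (g, k - D)) = some (Sum.inr b) ↔ _
  constructor
  · intro h
    exact Sum.inr.inj (Option.some.inj h)
  · rintro rfl
    rfl

theorem wz_false_eq (b : Finset Ty × ℕ) (z : WL T.V → ZMod 2) (g : Finset Ty) (D : ℕ)
    (x : List St) (h : (g, k - D) = b) :
    wz false g D x (pflip (wown k) b z) = fun v => wz false g D x z v + 1 := by
  funext v
  change z ⟨false, g, D, x, v⟩ + (if wown k ⟨false, g, D, x, v⟩ = some (Sum.inr b) then 1 else 0)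
    = z ⟨false, g, D, x, v⟩ + 1
  rw [if_pos ((wown_false b g D x v).2 h)]

theorem wz_false_ne (b : Finset Ty × ℕ) (z : WL T.V → ZMod 2) (g : Finset Ty) (D : ℕ)
    (x : List St) (h : (g, k - D) ≠ b) :
    wz false g D x (pflip (wown k) b z) = wz false g D x z := by
  funext v
  change z ⟨false, g, D, x, v⟩ + (if wown k ⟨false, g, D, x, v⟩ = some (Sum.inr b) then 1 else 0)
    = z ⟨false, g, D, x, v⟩
  rw [if_neg (fun h' => h ((wown_false b g D x v).1 h')), add_zero]

theorem GW_true (b : Finset Ty × ℕ) (z : WL T.V → ZMod 2) (g : Finset Ty) (D : ℕ)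
    (x : List St) : GW T true g D x (pflip (wown k) b z) = GW T true g D x z := by
  unfold GW
  rw [wz_true]

theorem RW_inv (b : Finset Ty × ℕ) (z : WL T.V → ZMod 2) (c : Bool) (g : Finset Ty) (D : ℕ)
    (x : List St) (i : ℕ) (hD : 1 ≤ D) (hx : nd T D x) (hi : i < T.nI (rem T D x)) :
    RW T c g D x i (pflip (wown k) b z) = RW T c g D x i z := by
  unfold RW
  cases c with
  | true => rw [wz_true]
  | false =>
    by_cases h : (g, k - D) = b
    · rw [wz_false_eq b z g D x h, T.invR _ i (rem_pos T D hD x hx) hi]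
    · rw [wz_false_ne b z g D x h]

theorem QW_inv (b : Finset Ty × ℕ) (z : WL T.V → ZMod 2) (c : Bool) (g : Finset Ty) (D : ℕ)
    (x : List St) (j : ℕ) (hD : 1 ≤ D) (hx : nd T D x) (hj : j < T.nJ (rem T D x)) :
    QW T c g D x j (pflip (wown k) b z) = QW T c g D x j z := by
  unfold QW
  cases c with
  | true => rw [wz_true]
  | false =>
    by_cases h : (g, k - D) = b
    · rw [wz_false_eq b z g D x h, T.invQ _ j (rem_pos T D hD x hx) hj]
    · rw [wz_false_ne b z g D x h]

theorem QW'_inv (b : Finset Ty × ℕ) (z : WL T.V → ZMod 2) (c : Bool) (g : Finset Ty) (D : ℕ)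
    (x : List St) (j : ℕ) (hD : 1 ≤ D) (hx : nd T D x) (hj : j < T.nJ (rem T D x)) :
    QW' T c g D x j (pflip (wown k) b z) = QW' T c g D x j z := by
  unfold QW'
  cases c with
  | true => rw [wz_true]
  | false =>
    by_cases h : (g, k - D) = b
    · rw [wz_false_eq b z g D x h, T.invQ' _ j (rem_pos T D hD x hx) hj]
    · rw [wz_false_ne b z g D x h]

theorem inv_all (F : WForms T k) (b : Finset Ty × ℕ) (z : WL T.V → ZMod 2) (w : ℕ) :
    (∀ g D x, 1 ≤ D → D < k → nd T D x → rem T D x = w →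
      F.m g D x (pflip (wown k) b z) = F.m g D x z) ∧
    (∀ g u, 1 ≤ u → u < k → u = w → F.f g u (pflip (wown k) b z) = F.f g u z) ∧
    (∀ g D x, 1 ≤ D → D < k → nd T D x → k - rem T D x = w →
      F.N g D x (pflip (wown k) b z) = F.N g D x z) := by
  induction w using Nat.strong_induction_on with
  | _ w ih =>
  have hm : ∀ g D x, 1 ≤ D → D < k → nd T D x → rem T D x = w →
      F.m g D x (pflip (wown k) b z) = F.m g D x z := by
    intro g D x hD hDk hx hw
    rw [F.m_eq g D x hD hDk hx, F.m_eq g D x hD hDk hx, GW_true]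
    congr 1
    · congr 1
      refine sum_congr rfl (fun i hi => ?_)
      rw [mem_range] at hi
      have h0 : nd T D (St.s i :: x) := ⟨hx, hi⟩
      have h1 := rem_s T D hD x i h0
      rw [RW_inv b z true g D x i hD hx hi,
        (ih (rem T D (St.s i :: x)) (by omega)).1 g D _ hD hDk h0 rfl]
    · refine sum_congr rfl (fun j hj => ?_)
      rw [mem_range] at hj
      have h0 : nd T D (St.p j :: x) := ⟨hx, hj⟩
      have h1 := rem_p T D hD x j h0
      have h2 := ta_pos T k ⟨true, D, x, j⟩ ⟨hD, hDk, hx, hj⟩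
      have h3 : ta T k ⟨true, D, x, j⟩ = rem T D x - T.q' (rem T D x) j := rfl
      rw [QW'_inv b z true g D x j hD hx hj, QW_inv b z true g D x j hD hx hj,
        (ih (rem T D (St.p j :: x)) (by omega)).1 g D _ hD hDk h0 rfl,
        (ih (ta T k ⟨true, D, x, j⟩) (by omega)).2.1 _ _ h2.1 h2.2 rfl]
  have hf : ∀ g u, 1 ≤ u → u < k → u = w → F.f g u (pflip (wown k) b z) = F.f g u z := by
    intro g u hu huk huw
    rw [F.f_eq g u hu huk, F.f_eq g u hu huk, hm g u [] hu huk trivial huw]
    congr 1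
    refine sum_congr rfl (fun y hy => ?_)
    rw [mem_filter, mem_Ys] at hy
    obtain ⟨⟨h1, h2, h3, h4⟩, hta⟩ := hy
    have h5 : nd T y.D (St.p y.j :: y.x) := ⟨h3, h4⟩
    have h6 := rem_p T y.D h1 y.x y.j h5
    have h7 := rem_le T y.D y.x h3
    unfold ta at hta
    by_cases hd : y.dat = true
    · rw [if_pos hd, if_pos hd]
      rw [if_pos hd] at hta
      rw [QW_inv b z true _ y.D y.x y.j h1 h3 h4,
        (ih (rem T y.D (St.p y.j :: y.x)) (by omega)).1 _ _ _ h1 h2 h5 rfl]
    · rw [if_neg hd, if_neg hd]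
      rw [if_neg hd] at hta
      rw [QW_inv b z false _ y.D y.x y.j h1 h3 h4,
        (ih (k - rem T y.D y.x) (by omega)).2.2 _ _ _ h1 h2 h3 rfl]
  refine ⟨hm, hf, ?_⟩
  intro g D x hD hDk hx hw
  cases x with
  | nil =>
    rw [F.N_nil g D hD hDk, F.N_nil g D hD hDk]
    exact hf g (k - D) (by omega) (by omega) hw
  | cons a x =>
    cases a with
    | s i =>
      have h1 := rem_s T D hD x i hx
      have h2 := rem_le T D x hx.1
      rw [F.N_s g D x i hD hDk hx, F.N_s g D x i hD hDk hx,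
        RW_inv b z false g D x i hD hx.1 hx.2,
        (ih (k - rem T D x) (by omega)).2.2 g D x hD hDk hx.1 rfl]
    | p j =>
      have h1 := rem_p T D hD x j hx
      have h2 := rem_le T D x hx.1
      have h3 := ta_pos T k ⟨false, D, x, j⟩ ⟨hD, hDk, hx.1, hx.2⟩
      have h4 : ta T k ⟨false, D, x, j⟩ = (k - rem T D x) + T.q (rem T D x) j := rfl
      rw [F.N_p g D x j hD hDk hx, F.N_p g D x j hD hDk hx,
        QW_inv b z false g D x j hD hx.1 hx.2, QW'_inv b z false g D x j hD hx.1 hx.2,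
        (ih (k - rem T D x) (by omega)).2.2 g D x hD hDk hx.1 rfl,
        (ih (ta T k ⟨false, D, x, j⟩) (by omega)).2.1 _ _ h3.1 h3.2 rfl]
    | c j => exact hx.elim
    | t j => exact hx.elim

theorem mem_WU {a : Finset Ty × ℕ} (ha : a ∈ WU T k) : 0 < a.2 ∧ a.2 < k := by
  unfold WU at ha
  rw [mem_product, Finset.mem_Ioo] at ha
  exact ha.2

theorem z2_add (x y : ZMod 2) (h : x = y) : x + y = 0 := by
  rw [h]
  exact z2_add_self y

/-- the telescoping sum -/
theorem tele (F : WForms T k) (g : Finset Ty) (D : ℕ) (hD : 1 ≤ D) (hDk : D < k)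
    (z : WL T.V → ZMod 2) :
    ∑ x ∈ nodes T D, F.N g D x z * (1 + ∑ i ∈ range (T.nI (rem T D x)), RW T false g D x i z +
      ∑ j ∈ range (T.nJ (rem T D x)), QW T false g D x j z * QW' T false g D x j z) =
    F.f g (k - D) z + ∑ x ∈ nodes T D, ∑ j ∈ range (T.nJ (rem T D x)),
      F.f (tog g ⟨false, D, x, j⟩) (ta T k ⟨false, D, x, j⟩) z * QW' T false g D x j z := by
  have h1 : ∀ x ∈ nodes T D, F.N g D x z * (1 + ∑ i ∈ range (T.nI (rem T D x)),
      RW T false g D x i z + ∑ j ∈ range (T.nJ (rem T D x)),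
        QW T false g D x j z * QW' T false g D x j z) =
      F.N g D x z + ((∑ i ∈ range (T.nI (rem T D x)), F.N g D (St.s i :: x) z +
        ∑ j ∈ range (T.nJ (rem T D x)), F.N g D (St.p j :: x) z) +
        ∑ j ∈ range (T.nJ (rem T D x)),
          F.f (tog g ⟨false, D, x, j⟩) (ta T k ⟨false, D, x, j⟩) z * QW' T false g D x j z) := by
    intro x hx
    rw [mem_nodes T D hD] at hx
    have h2 : ∑ i ∈ range (T.nI (rem T D x)), F.N g D (St.s i :: x) z =
        F.N g D x z * ∑ i ∈ range (T.nI (rem T D x)), RW T false g D x i z := by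
      rw [mul_sum]
      refine sum_congr rfl (fun i hi => ?_)
      rw [mem_range] at hi
      exact F.N_s g D x i hD hDk ⟨hx, hi⟩ z
    have h3 : ∑ j ∈ range (T.nJ (rem T D x)), F.N g D (St.p j :: x) z +
        ∑ j ∈ range (T.nJ (rem T D x)),
          F.f (tog g ⟨false, D, x, j⟩) (ta T k ⟨false, D, x, j⟩) z * QW' T false g D x j z =
        F.N g D x z * ∑ j ∈ range (T.nJ (rem T D x)),
          QW T false g D x j z * QW' T false g D x j z := by
      rw [mul_sum, ← sum_add_distrib]
      refine sum_congr rfl (fun j hj => ?_)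
      rw [mem_range] at hj
      rw [F.N_p g D x j hD hDk ⟨hx, hj⟩ z]
      have h4 := z2_add_self
        (F.f (tog g ⟨false, D, x, j⟩) (ta T k ⟨false, D, x, j⟩) z * QW' T false g D x j z)
      linear_combination h4
    rw [mul_add, mul_add, mul_one, ← h2, ← h3]
    ring
  rw [sum_congr rfl h1, sum_add_distrib, sum_add_distrib,
    sum_nodes T D hD (fun x => F.N g D x z), F.N_nil g D hD hDk z]
  have h5 := z2_add_self (∑ x ∈ nodes T D, (∑ i ∈ range (T.nI (rem T D x)), F.N g D (St.s i :: x) z +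
        ∑ j ∈ range (T.nJ (rem T D x)), F.N g D (St.p j :: x) z))
  linear_combination h5

end WFlipAux

open WFlipAux

theorem Wf_flip (F : WForms T k) (a b : Finset Ty × ℕ) (ha : a ∈ WU T k) (hb : b ∈ WU T k)
    (z : WL T.V → ZMod 2) : F.f a.1 a.2 (pflip (wown k) b z) = F.f a.1 a.2 z := by
  have h := mem_WU ha
  exact (inv_all F b z a.2).2.1 a.1 a.2 h.1 h.2 rfl

theorem WPhi_flip (F : WForms T k) (a b : Finset Ty × ℕ) (ha : a ∈ WU T k) (hb : b ∈ WU T k)
    (z : WL T.V → ZMod 2) :
    F.Phi a (pflip (wown k) b z) = F.Phi a z + if a = b then F.Pi a z else 0 := by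
  obtain ⟨h0, h1⟩ := mem_WU ha
  have hD : 1 ≤ k - a.2 := by omega
  have hDk : k - a.2 < k := by omega
  have hkk : k - (k - a.2) = a.2 := by omega
  have hN : ∀ x ∈ nodes T (k - a.2), F.N a.1 (k - a.2) x (pflip (wown k) b z) =
      F.N a.1 (k - a.2) x z := by
    intro x hx
    rw [mem_nodes T _ hD] at hx
    exact (inv_all F b z (k - rem T (k - a.2) x)).2.2 a.1 (k - a.2) x hD hDk hx rfl
  by_cases hab : a = b
  · rw [if_pos hab]
    have hG : ∀ x ∈ nodes T (k - a.2), GW T false a.1 (k - a.2) x (pflip (wown k) b z) =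
        GW T false a.1 (k - a.2) x z + (1 + ∑ i ∈ range (T.nI (rem T (k - a.2) x)),
          RW T false a.1 (k - a.2) x i z + ∑ j ∈ range (T.nJ (rem T (k - a.2) x)),
            QW T false a.1 (k - a.2) x j z * QW' T false a.1 (k - a.2) x j z) := by
      intro x hx
      rw [mem_nodes T _ hD] at hx
      unfold GW
      rw [wz_false_eq b z a.1 (k - a.2) x (by rw [hkk]; exact hab)]
      exact T.key _ (rem_pos T _ hD x hx) _
    have h2 := tele F a.1 (k - a.2) hD hDk z
    rw [hkk] at h2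
    unfold WForms.Phi WForms.Pi
    rw [← h2, ← sum_add_distrib]
    refine sum_congr rfl (fun x hx => ?_)
    rw [hN x hx, hG x hx, mul_add]
  · rw [if_neg hab, add_zero]
    unfold WForms.Phi
    refine sum_congr rfl (fun x hx => ?_)
    rw [hN x hx]
    congr 1
    unfold GW
    rw [wz_false_ne b z a.1 (k - a.2) x (by rw [hkk]; exact hab)]

theorem WPi_flip (F : WForms T k) (a b : Finset Ty × ℕ) (ha : a ∈ WU T k) (hb : b ∈ WU T k)
    (z : WL T.V → ZMod 2) : F.Pi a (pflip (wown k) b z) = F.Pi a z := by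
  obtain ⟨h0, h1⟩ := mem_WU ha
  have hD : 1 ≤ k - a.2 := by omega
  have hDk : k - a.2 < k := by omega
  unfold WForms.Pi
  rw [Wf_flip F a b ha hb z]
  congr 1
  refine sum_congr rfl (fun x hx => sum_congr rfl (fun j hj => ?_))
  rw [mem_nodes T _ hD] at hx
  rw [mem_range] at hj
  have h2 := ta_pos T k ⟨false, k - a.2, x, j⟩ ⟨hD, hDk, hx, hj⟩
  rw [QW'_inv b z false a.1 (k - a.2) x j hD hx hj,
    (inv_all F b z (ta T k ⟨false, k - a.2, x, j⟩)).2.1 _ _ h2.1 h2.2 rfl]

end Pool.Agent.HBA
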