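import Mathlib
import Pool.Agent.Lib.HBA.WDefs

set_option autoImplicit false

/-!
# Module HBA.WHomM : homogeneity of the mask forms `m` (weak system)

`m_eq` : `m g D x = GW + ∑_i m g D (s i :: x) * RW i + ∑_j rh g ⟨true, D, x, j⟩ * QW' j`.
* `GW`, `RW`, `QW`, `QW'` are homogeneous, supported on the labels `⟨b, g, D, x, v⟩` (`Hom.comp` with
  `T.homG` etc.): lemma `hom_GW`, ... (also used by the other modules);
* supports: labels `⟨true, g, D, x, _⟩` satisfy `PM g D x`; a label with `PM g D (s i :: x)` is not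
  `⟨true, g, D, x, _⟩` (its node has the suffix `s i :: x`), and satisfies `PM g D x`
  (`rem (s i :: x) < rem x`, suffix); a label with `PR g y`, `y = ⟨true, D, x, j⟩`, has `l.g ≠ g`
  (`y ∈ l.g ↔ y ∉ g`), and satisfies `PM g D x` because `ta y = rem x - q' < rem x`.
* degrees: `rem (s i :: x) + r = rem x`, `ta y + q' = rem x` (`rem_s`, `rem_p`; note that
  `nd T D (p j :: x)` for `j < nJ`).
-/

namespace Pool.Agent.HBA

open Finset Pool.Agent.P47443c

variable {T : TF} {k : ℕ}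

/-- Labels of the node `(b, g, D, x)`. -/
def LW (b : Bool) (g : Finset Ty) (D : ℕ) (x : List St) (l : WL T.V) : Prop :=
  l.dat = b ∧ l.g = g ∧ l.D = D ∧ l.x = x

theorem hom_GW (b : Bool) (g : Finset Ty) (D : ℕ) (x : List St) (hD : 1 ≤ D) (hx : nd T D x) :
    Hom (LW (T := T) b g D x) (rem T D x) (GW T b g D x) := by
  exact Hom.comp (T.homG _ (rem_pos T D hD x hx)) (fun v => (⟨b, g, D, x, v⟩ : WL T.V))
    (fun v v' h => by injection h) (fun _ _ => ⟨rfl, rfl, rfl, rfl⟩)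

theorem hom_RW (b : Bool) (g : Finset Ty) (D : ℕ) (x : List St) (i : ℕ) (hD : 1 ≤ D)
    (hx : nd T D x) (hi : i < T.nI (rem T D x)) :
    Hom (LW (T := T) b g D x) (T.r (rem T D x) i) (RW T b g D x i) := by
  exact Hom.comp (T.homR _ i (rem_pos T D hD x hx) hi) (fun v => (⟨b, g, D, x, v⟩ : WL T.V))
    (fun v v' h => by injection h) (fun _ _ => ⟨rfl, rfl, rfl, rfl⟩)

theorem hom_QW (b : Bool) (g : Finset Ty) (D : ℕ) (x : List St) (j : ℕ) (hD : 1 ≤ D)
    (hx : nd T D x) (hj : j < T.nJ (rem T D x)) :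
    Hom (LW (T := T) b g D x) (T.q (rem T D x) j) (QW T b g D x j) := by
  exact Hom.comp (T.homQ _ j (rem_pos T D hD x hx) hj) (fun v => (⟨b, g, D, x, v⟩ : WL T.V))
    (fun v v' h => by injection h) (fun _ _ => ⟨rfl, rfl, rfl, rfl⟩)

theorem hom_QW' (b : Bool) (g : Finset Ty) (D : ℕ) (x : List St) (j : ℕ) (hD : 1 ≤ D)
    (hx : nd T D x) (hj : j < T.nJ (rem T D x)) :
    Hom (LW (T := T) b g D x) (T.q' (rem T D x) j) (QW' T b g D x j) := by
  exact Hom.comp (T.homQ' _ j (rem_pos T D hD x hx) hj) (fun v => (⟨b, g, D, x, v⟩ : WL T.V))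
    (fun v v' h => by injection h) (fun _ _ => ⟨rfl, rfl, rfl, rfl⟩)

theorem hom_m (F : WForms T k) (w : ℕ)
    (hm : ∀ g D x, 1 ≤ D → D < k → nd T D x → rem T D x < w →
      Hom (PM T k g D x) (rem T D x) (F.m g D x))
    (hr : ∀ g y, okT T k y → ta T k y < w → Hom (PR T k g y) (ta T k y) (F.rh g y)) :
    ∀ g D x, 1 ≤ D → D < k → nd T D x → rem T D x = w → Hom (PM T k g D x) w (F.m g D x) := by
  intro g D x hD hDk hx hw
  have hR1 : 1 ≤ rem T D x := rem_pos T D hD x hx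
  have h1 : Hom (PM T k g D x) w (GW T true g D x) := by
    rw [← hw]
    refine (hom_GW true g D x hD hx).mono ?_
    rintro l ⟨h1, h2, h3, h4⟩
    exact ⟨fun y _ => by rw [h2], fun _ => ⟨h1, h3, by rw [h4]⟩⟩
  have h2 : ∀ i ∈ range (T.nI (rem T D x)),
      Hom (PM T k g D x) w (fun z => F.m g D (St.s i :: x) z * RW T true g D x i z) := by
    intro i hi
    have hi' : i < T.nI (rem T D x) := Finset.mem_range.1 hi
    have hn : nd T D (St.s i :: x) := ⟨hx, hi'⟩
    obtain ⟨e1, e2, e3⟩ := rem_s T D hD x i hn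
    have hlt : rem T D (St.s i :: x) < w := by omega
    have h3 := (hm g D (St.s i :: x) hD hDk hn hlt).mul (hom_RW true g D x i hD hx hi') (by
      rintro l ⟨_, q2⟩ ⟨q3, q4, q5, q6⟩
      have h5 := (q2 q4).2.2.length_le
      rw [q6, List.length_cons] at h5
      omega)
    rw [e1, hw] at h3
    refine h3.mono ?_
    rintro l (⟨q1, q2⟩ | ⟨q3, q4, q5, q6⟩)
    · refine ⟨fun y hy => q1 y (by omega), fun hg => ?_⟩
      obtain ⟨a1, a2, a3⟩ := q2 hg
      exact ⟨a1, a2, (List.suffix_cons (St.s i) x).trans a3⟩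
    · exact ⟨fun y _ => by rw [q4], fun _ => ⟨q3, q5, by rw [q6]⟩⟩
  have h3 : ∀ j ∈ range (T.nJ (rem T D x)),
      Hom (PM T k g D x) w (fun z => F.rh g ⟨true, D, x, j⟩ z * QW' T true g D x j z) := by
    intro j hj
    have hj' : j < T.nJ (rem T D x) := Finset.mem_range.1 hj
    have hq1 := T.q_lt _ j hR1 hj'
    have hq2 := T.q'_pos _ j hR1 hj'
    have hta : ta T k ⟨true, D, x, j⟩ = rem T D x - T.q' (rem T D x) j := by
      unfold ta
      exact if_pos rfl
    have hlt : ta T k ⟨true, D, x, j⟩ < w := by omega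
    have hsum : ta T k ⟨true, D, x, j⟩ + T.q' (rem T D x) j = w := by omega
    have h4 := (hr g ⟨true, D, x, j⟩ ⟨hD, hDk, hx, hj'⟩ hlt).mul
      (hom_QW' true g D x j hD hx hj') (by
      rintro l ⟨_, q2⟩ ⟨q3, q4, q5, q6⟩
      rw [q4] at q2
      tauto)
    rw [hsum] at h4
    refine h4.mono ?_
    rintro l (⟨q1, q2⟩ | ⟨q3, q4, q5, q6⟩)
    · refine ⟨fun y hy => q1 y (by omega), fun hg => ?_⟩
      rw [hg] at q2
      exfalso
      tauto
    · exact ⟨fun y _ => by rw [q4], fun _ => ⟨q3, q5, by rw [q6]⟩⟩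
  refine ((h1.add (Hom.sum _ h2)).add (Hom.sum _ h3)).congr ?_
  intro z
  rw [F.m_eq g D x hD hDk hx z]
  rfl

end Pool.Agent.HBA
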