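import Mathlib
import Pool.Agent.Lib.HBA.WHomM

set_option autoImplicit false

/-!
# Module HBA.WHomF : homogeneity of `rh` and `f` (weak system)

Let `tm g y` be the summand of the type `y` in `f_eq` written at `g' = tog g y` (i.e. with
`g' = tog g y`). Support of the summand at `g'` : data type: `m g' D (p j :: x) * QW` : labels with
`PM g' D (p j :: x)` or `LW true g' D x` (disjoint: `p j :: x <:+ l.x` excludes `l.x = x`); reader type:
`N g' D x * QW` : `PN g' D x` or `LW false g' D x` (disjoint). In both cases the label satisfies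
`∀ y'', ta y ≤ ta y'' → (y'' ∈ l.g ↔ y'' ∈ g')` since `rem (p j :: x) < ta y`, `k - rem x < ta y`.
Degree `ta y` (`rem_p`).
* `hom_f` : own part `m g u []` (`rem T u [] = u`) has `PM g u []`, which implies `PF g u`; the
  summand of `y` (`ta y = u`, at `g' = tog g y`) : agreement with `g` at `ta > u` (`mem_tog`, `y'' ≠ y`)
  and `y ∈ l.g ↔ y ∉ g`, so `l.g ≠ g`.
* `hom_rh` : `rh g y = f (tog g y) u + summand of y at g`, and the summand of `y` in
  `f (tog g y) u` is at `tog (tog g y) y = g` : it cancels (`Finset.sum_erase`/`add_sum_erase`,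
  `z2_add_self`). What remains: `m (tog g y) u []` and the summands of `y' ≠ y`, `ta y' = u`, at
  `tog (tog g y) y'` ; both satisfy `PR g y`.
-/

namespace Pool.Agent.HBA

open Finset Pool.Agent.P47443c

variable {T : TF} {k : ℕ}

namespace WHomFAux

/-- The summand of the type `y` at `g'`. -/
def TM (F : WForms T k) (g' : Finset Ty) (y : Ty) (z : WL T.V → ZMod 2) : ZMod 2 :=
  if y.dat then F.m g' y.D (St.p y.j :: y.x) z * QW T true g' y.D y.x y.j z
  else F.N g' y.D y.x z * QW T false g' y.D y.x y.j z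

theorem hom_TM (F : WForms T k) (u : ℕ)
    (hm : ∀ g D x, 1 ≤ D → D < k → nd T D x → rem T D x ≤ u →
      Hom (PM T k g D x) (rem T D x) (F.m g D x))
    (hN : ∀ g D x, 1 ≤ D → D < k → nd T D x → k - rem T D x < u →
      Hom (PN T k g D x) (k - rem T D x) (F.N g D x))
    (g' : Finset Ty) (y : Ty) (hy : okT T k y) (hu : ta T k y = u) :
    Hom (fun l : WL T.V => ∀ y'', u ≤ ta T k y'' → (y'' ∈ l.g ↔ y'' ∈ g')) u (TM F g' y) := by
  obtain ⟨b, D, x, j⟩ := y
  obtain ⟨h1, h2, h3, h4⟩ := hy
  change 1 ≤ D at h1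
  change D < k at h2
  change nd T D x at h3
  change j < T.nJ (rem T D x) at h4
  have h5 : nd T D (St.p j :: x) := ⟨h3, h4⟩
  obtain ⟨h6, h7, h8, h9⟩ := rem_p T D h1 x j h5
  cases b with
  | true =>
    have hu' : rem T D x - T.q' (rem T D x) j = u := hu
    have e1 : rem T D (St.p j :: x) + T.q (rem T D x) j = u := by omega
    have hA := hm g' D (St.p j :: x) h1 h2 h5 (by omega)
    have hB := hom_QW (T := T) true g' D x j h1 h3 h4
    have hC := hA.mul hB (by
      rintro l ⟨_, hl⟩ ⟨_, hg, _, hx⟩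
      have := (hl hg).2.2.length_le
      rw [hx, List.length_cons] at this
      omega)
    rw [e1] at hC
    refine (hC.mono ?_).congr (fun z => if_pos rfl)
    rintro l (hl | hl)
    · intro y'' hy''
      exact hl.1 y'' (by omega)
    · intro y'' _
      rw [hl.2.1]
  | false =>
    have hu' : (k - rem T D x) + T.q (rem T D x) j = u := hu
    have hA := hN g' D x h1 h2 h3 (by omega)
    have hB := hom_QW (T := T) false g' D x j h1 h3 h4
    have hC := hA.mul hB (by
      rintro l ⟨_, hl⟩ ⟨hd, hg, _, hx⟩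
      rcases hl hg with h | h
      · rw [hd] at h
        exact absurd h (by decide)
      · exact h.2.2.2 hx)
    rw [hu'] at hC
    refine (hC.mono ?_).congr (fun z => if_neg (by simp))
    rintro l (hl | hl)
    · intro y'' hy''
      exact hl.1 y'' (by omega)
    · intro y'' _
      rw [hl.2.1]

theorem mem_tog_ne {g : Finset Ty} {y y' : Ty} (h : y' ≠ y) : y' ∈ tog g y ↔ y' ∈ g := by
  rw [mem_tog]
  exact ⟨fun h' => h'.2 h, fun h' => ⟨fun _ => h, fun _ => h'⟩⟩

theorem mem_tog_self {g : Finset Ty} {y : Ty} : y ∈ tog g y ↔ y ∉ g := by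
  rw [mem_tog]
  exact ⟨fun h' h => h'.1 h rfl, fun h' => ⟨fun h => absurd h h', fun h => absurd rfl h⟩⟩

end WHomFAux

open WHomFAux

theorem hom_rh (F : WForms T k) (u : ℕ) (hu : 1 ≤ u) (huk : u < k)
    (hm : ∀ g D x, 1 ≤ D → D < k → nd T D x → rem T D x ≤ u →
      Hom (PM T k g D x) (rem T D x) (F.m g D x))
    (hN : ∀ g D x, 1 ≤ D → D < k → nd T D x → k - rem T D x < u →
      Hom (PN T k g D x) (k - rem T D x) (F.N g D x)) :
    ∀ g y, okT T k y → ta T k y = u → Hom (PR T k g y) u (F.rh g y) := by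
  intro g y hy hyu
  classical
  have hmem : y ∈ (Ys T k).filter (fun y => ta T k y = u) :=
    mem_filter.2 ⟨(mem_Ys T k y).2 hy, hyu⟩
  have h1 : Hom (PR T k g y) u (F.m (tog g y) u []) := by
    have h := hm (tog g y) u [] hu huk trivial le_rfl
    refine h.mono (fun l hl => ⟨fun y' hy' => ?_, ?_⟩)
    · rw [hl.1 y' (by change u ≤ _; omega)]
      refine mem_tog_ne ?_
      rintro rfl
      omega
    · rw [hl.1 y (by change u ≤ _; omega)]
      exact mem_tog_self
  have h2 : Hom (PR T k g y) u (fun z => ∑ y' ∈ ((Ys T k).filter (fun y => ta T k y = u)).erase y,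
      TM F (tog (tog g y) y') y' z) := by
    refine Hom.sum _ (fun y' hy' => ?_)
    rw [mem_erase, mem_filter, mem_Ys] at hy'
    obtain ⟨hne, hok, hta⟩ := hy'
    refine (hom_TM F u hm hN (tog (tog g y) y') y' hok hta).mono (fun l hl => ⟨fun y'' hy'' => ?_, ?_⟩)
    · rw [hl y'' (by omega), mem_tog_ne (by rintro rfl; omega), mem_tog_ne (by rintro rfl; omega)]
    · rw [hl y (by omega), mem_tog_ne (Ne.symm hne)]
      exact mem_tog_self
  refine (h1.add h2).congr (fun z => ?_)
  change F.f (tog g y) (ta T k y) z + TM F g y z = _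
  have h3 : F.f (tog g y) (ta T k y) z = F.m (tog g y) u [] z +
      ∑ y' ∈ (Ys T k).filter (fun y => ta T k y = u), TM F (tog (tog g y) y') y' z := by
    rw [hyu]
    exact F.f_eq (tog g y) u hu huk z
  rw [h3, ← Finset.add_sum_erase _ _ hmem, tog_tog]
  have h4 := z2_add_self (TM F g y z)
  linear_combination h4

theorem hom_f (F : WForms T k) (u : ℕ) (hu : 1 ≤ u) (huk : u < k)
    (hm : ∀ g D x, 1 ≤ D → D < k → nd T D x → rem T D x ≤ u →
      Hom (PM T k g D x) (rem T D x) (F.m g D x))
    (hN : ∀ g D x, 1 ≤ D → D < k → nd T D x → k - rem T D x < u →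
      Hom (PN T k g D x) (k - rem T D x) (F.N g D x)) :
    ∀ g, Hom (PF T k g u) u (F.f g u) := by
  intro g
  have h1 : Hom (PF T k g u) u (F.m g u []) := by
    have h := hm g u [] hu huk trivial le_rfl
    refine h.mono (fun l hl => ⟨fun y' hy' => hl.1 y' (by change u ≤ _; omega),
      fun h => (hl.2 h).1⟩)
  have h2 : Hom (PF T k g u) u (fun z => ∑ y ∈ (Ys T k).filter (fun y => ta T k y = u),
      TM F (tog g y) y z) := by
    refine Hom.sum _ (fun y hy => ?_)
    rw [mem_filter, mem_Ys] at hy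
    obtain ⟨hok, hta⟩ := hy
    refine (hom_TM F u hm hN (tog g y) y hok hta).mono (fun l hl => ⟨fun y' hy' => ?_, fun h => ?_⟩)
    · rw [hl y' (by omega), mem_tog_ne (by rintro rfl; omega)]
    · exfalso
      have h3 := hl y (by omega)
      rw [h, mem_tog_self] at h3
      by_cases h4 : y ∈ g
      · exact h3.1 h4 h4
      · exact h4 (h3.2 h4)
  exact (h1.add h2).congr (fun z => F.f_eq g u hu huk z)

end Pool.Agent.HBA
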