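import Mathlib
import Pool.Agent.Lib.HBA.WHomM

set_option autoImplicit false

/-!
# Module HBA.WHomN : homogeneity of the reader forms `N` (weak system)

Cases of the node. `[]` : `N_nil`, `PF g (k - D)` implies `PN g D []`. `s i :: x` : `N x * RW i`,
`PN g D x` and `LW false g D x` are disjoint, `rem_s`. `p j :: x` : `rh g y * QW' j` with
`y = ⟨false, D, x, j⟩` (`N_p` and the definition of `rh`), `ta y + q' = k - rem (p j :: x)`, `PR g y`
gives `l.g ≠ g`.
-/

namespace Pool.Agent.HBA

open Finset Pool.Agent.P47443c

variable {T : TF} {k : ℕ}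

theorem hom_N (F : WForms T k) (w : ℕ)
    (hf : ∀ g u, 1 ≤ u → u < k → u ≤ w → Hom (PF T k g u) u (F.f g u))
    (hr : ∀ g y, okT T k y → ta T k y < w → Hom (PR T k g y) (ta T k y) (F.rh g y))
    (hN : ∀ g D x, 1 ≤ D → D < k → nd T D x → k - rem T D x < w →
      Hom (PN T k g D x) (k - rem T D x) (F.N g D x)) :
    ∀ g D x, 1 ≤ D → D < k → nd T D x → k - rem T D x = w → Hom (PN T k g D x) w (F.N g D x) := by
  intro g D x hD hDk hx hw
  cases x with
  | nil =>
    have h0 : rem T D [] = D := rfl
    rw [h0] at hw
    have h1 := hf g (k - D) (by omega) (by omega) (by omega)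
    rw [← hw]
    refine (h1.mono ?_).congr (fun z => F.N_nil g D hD hDk z)
    rintro l ⟨h2, h3⟩
    exact ⟨fun y hy => h2 y hy, fun h => Or.inl (h3 h)⟩
  | cons a x =>
    cases a with
    | s i =>
      obtain ⟨h1, h2, h3⟩ := rem_s T D hD x i hx
      have h4 := rem_le T D x hx.1
      have h5 : k - rem T D x < w := by omega
      have h6 : k - rem T D x + T.r (rem T D x) i = w := by omega
      have h7 := (hN g D x hD hDk hx.1 h5).mul
        (hom_RW (T := T) false g D x i hD hx.1 hx.2) (by
          rintro l ⟨-, h8⟩ ⟨h9, h10, h11, h12⟩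
          rcases h8 h10 with h13 | ⟨-, -, -, h13⟩
          · rw [h9] at h13
            exact Bool.noConfusion h13
          · exact h13 h12)
      rw [h6] at h7
      refine (h7.mono ?_).congr (fun z => F.N_s g D x i hD hDk hx z)
      rintro l (⟨h8, h9⟩ | ⟨h9, h10, h11, h12⟩)
      · refine ⟨fun y hy => h8 y (by omega), fun h => ?_⟩
        rcases h9 h with h13 | ⟨h13, h14, h15, h16⟩
        · exact Or.inl h13
        · refine Or.inr ⟨h13, h14, h15.trans (List.suffix_cons _ _), fun h17 => ?_⟩
          have h18 := h15.length_le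
          rw [h17, List.length_cons] at h18
          omega
      · refine ⟨fun y _ => by rw [h10], fun _ => Or.inr ⟨h9, h11, ?_, ?_⟩⟩
        · rw [h12]
          exact List.suffix_cons _ _
        · rw [h12]
          intro h17
          have h18 := congrArg List.length h17
          rw [List.length_cons] at h18
          omega
    | p j =>
      obtain ⟨h1, h2, h3, h3'⟩ := rem_p T D hD x j hx
      have h4 := rem_le T D x hx.1
      have hy : ta T k ⟨false, D, x, j⟩ = (k - rem T D x) + T.q (rem T D x) j := rfl
      have h5 : ta T k ⟨false, D, x, j⟩ < w := by omega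
      have h6 : ta T k ⟨false, D, x, j⟩ + T.q' (rem T D x) j = w := by omega
      have hok : okT T k ⟨false, D, x, j⟩ := ⟨hD, hDk, hx.1, hx.2⟩
      have h7 := (hr g ⟨false, D, x, j⟩ hok h5).mul
        (hom_QW' (T := T) false g D x j hD hx.1 hx.2) (by
          rintro l ⟨-, h8⟩ ⟨h9, h10, h11, h12⟩
          rw [h10] at h8
          exact iff_not_self h8)
      rw [h6] at h7
      refine (h7.mono ?_).congr (fun z => F.N_p g D x j hD hDk hx z)
      rintro l (⟨h8, h9⟩ | ⟨h9, h10, h11, h12⟩)
      · refine ⟨fun y hy => h8 y (by omega), fun h => ?_⟩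
        rw [h] at h9
        exact (iff_not_self h9).elim
      · refine ⟨fun y _ => by rw [h10], fun _ => Or.inr ⟨h9, h11, ?_, ?_⟩⟩
        · rw [h12]
          exact List.suffix_cons _ _
        · rw [h12]
          intro h17
          have h18 := congrArg List.length h17
          rw [List.length_cons] at h18
          omega
    | c j => exact hx.elim
    | t j => exact hx.elim

end Pool.Agent.HBA
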