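import Mathlib
import Pool.Agent.Lib.HBA.WHomF
import Pool.Agent.Lib.HBA.WHomN

set_option autoImplicit false

/-!
# Module HBA.WHom : homogeneity of the weak system

`w_hom` : strong induction on the weight `w`, using `hom_m`, then `hom_rh`, `hom_f`, then `hom_N`
(interfaces). `hom_WPhi` : every summand `N g D x * GW false g D x` is homogeneous of degree
`(k - rem) + rem = k` (disjoint supports: `PN g D x` excludes `LW false g D x`).
-/

namespace Pool.Agent.HBA

open Finset Pool.Agent.P47443c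

variable {T : TF} {k : ℕ}

theorem w_hom (F : WForms T k) (w : ℕ) :
    (∀ g D x, 1 ≤ D → D < k → nd T D x → rem T D x = w → Hom (PM T k g D x) w (F.m g D x)) ∧
    (1 ≤ w → w < k → ∀ g, Hom (PF T k g w) w (F.f g w)) ∧
    (∀ g y, okT T k y → ta T k y = w → Hom (PR T k g y) w (F.rh g y)) ∧
    (∀ g D x, 1 ≤ D → D < k → nd T D x → k - rem T D x = w → Hom (PN T k g D x) w (F.N g D x)) := by
  induction w using Nat.strong_induction_on with
  | _ w ih =>
  have hmL : ∀ g D x, 1 ≤ D → D < k → nd T D x → rem T D x < w →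
      Hom (PM T k g D x) (rem T D x) (F.m g D x) :=
    fun g D x h1 h2 h3 h4 => (ih _ h4).1 g D x h1 h2 h3 rfl
  have hrL : ∀ g y, okT T k y → ta T k y < w → Hom (PR T k g y) (ta T k y) (F.rh g y) :=
    fun g y h1 h2 => (ih _ h2).2.2.1 g y h1 rfl
  have hNL : ∀ g D x, 1 ≤ D → D < k → nd T D x → k - rem T D x < w →
      Hom (PN T k g D x) (k - rem T D x) (F.N g D x) :=
    fun g D x h1 h2 h3 h4 => (ih _ h4).2.2.2 g D x h1 h2 h3 rfl
  have hm := hom_m F w hmL hrL
  have hmE : ∀ g D x, 1 ≤ D → D < k → nd T D x → rem T D x ≤ w →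
      Hom (PM T k g D x) (rem T D x) (F.m g D x) := by
    intro g D x h1 h2 h3 h4
    rcases Nat.lt_or_ge (rem T D x) w with h5 | h5
    · exact hmL g D x h1 h2 h3 h5
    · have h6 : rem T D x = w := le_antisymm h4 h5
      rw [h6]
      exact hm g D x h1 h2 h3 h6
  have hf : 1 ≤ w → w < k → ∀ g, Hom (PF T k g w) w (F.f g w) :=
    fun h1 h2 => hom_f F w h1 h2 hmE hNL
  have hr : ∀ g y, okT T k y → ta T k y = w → Hom (PR T k g y) w (F.rh g y) := by
    intro g y h1 h2
    have h3 := ta_pos T k y h1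
    exact hom_rh F w (by omega) (by omega) hmE hNL g y h1 h2
  have hfL : ∀ g u, 1 ≤ u → u < k → u ≤ w → Hom (PF T k g u) u (F.f g u) := by
    intro g u h1 h2 h3
    rcases Nat.lt_or_ge u w with h4 | h4
    · exact (ih u h4).2.1 h1 h2 g
    · have h5 : u = w := le_antisymm h3 h4
      rw [h5] at h1 h2 ⊢
      exact hf h1 h2 g
  exact ⟨hm, hf, hr, hom_N F w hfL hrL hNL⟩

theorem hom_WPhi (F : WForms T k) (a : Finset Ty × ℕ) (ha : a ∈ WU T k) :
    Hom (fun _ => True) k (F.Phi a) := by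
  have h1 := (Finset.mem_Ioo.1 (Finset.mem_product.1 ha).2)
  have hD : 1 ≤ k - a.2 := by omega
  have hDk : k - a.2 < k := by omega
  have h2 : Hom (fun _ : WL T.V => True) k (fun z => ∑ x ∈ nodes T (k - a.2),
      F.N a.1 (k - a.2) x z * GW T false a.1 (k - a.2) x z) := by
    refine Hom.sum _ (fun x hx => ?_)
    have hx' : nd T (k - a.2) x := (mem_nodes T _ hD x).1 hx
    have h3 := (w_hom F (k - rem T (k - a.2) x)).2.2.2 a.1 (k - a.2) x hD hDk hx' rfl
    have h4 := h3.mul (hom_GW (T := T) false a.1 (k - a.2) x hD hx') (by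
      rintro l ⟨-, h8⟩ ⟨h9, h10, h11, h12⟩
      rcases h8 h10 with h13 | ⟨-, -, -, h13⟩
      · rw [h9] at h13
        exact Bool.noConfusion h13
      · exact h13 h12)
    have h5 := rem_le T _ x hx'
    have h6 : k - rem T (k - a.2) x + rem T (k - a.2) x = k := by omega
    rw [h6] at h4
    exact h4.mono (fun _ _ => trivial)
  exact h2

theorem hom_Wf (F : WForms T k) (a : Finset Ty × ℕ) (ha : a ∈ WU T k) :
    Hom (fun _ => True) a.2 (F.f a.1 a.2) := by
  have h1 := (Finset.mem_Ioo.1 (Finset.mem_product.1 ha).2)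
  exact ((w_hom F a.2).2.1 (by omega) (by omega) a.1).mono (fun _ _ => trivial)

end Pool.Agent.HBA
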