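import Mathlib
import Pool.Agent.Lib.HBA.WEx
import Pool.Agent.Lib.HBA.WHom
import Pool.Agent.Lib.HBA.WFlip
import Pool.Agent.Lib.HBA.WDec

set_option autoImplicit false

/-!
# Module HBA.WMain : the weak system exists
-/

namespace Pool.Agent.HBA

open Finset Pool.Agent.P47443c

theorem exists_wsys (T : TF) (k : ℕ) (hk : 2 ≤ k) : Nonempty (WSys k) := by
  obtain ⟨F⟩ := exists_wforms T k hk
  exact ⟨{
    V := WL T.V
    I := Finset Ty × ℕ
    own := wown k
    U := WU T k
    Phi := F.Phi
    Pi := F.Pi
    f := fun a => F.f a.1 a.2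
    wt := fun a => a.2
    homPhi := fun a ha => hom_WPhi F a ha
    homf := fun a ha => hom_Wf F a ha
    flipPhi := fun a ha b hb z => WPhi_flip F a b ha hb z
    flipPi := fun a ha b hb z => WPi_flip F a b ha hb z
    flipf := fun a ha b hb z => Wf_flip F a b ha hb z
    dec := fun z d hd h => w_dec F z d hd h
    surj := fun w h1 h2 => ⟨(∅, w), by
      simp only [WU, Finset.mem_product, Finset.mem_powerset, Finset.empty_subset, true_and,
        Finset.mem_Ioo]
      exact ⟨h1, h2⟩, rfl⟩ }⟩

end Pool.Agent.HBA
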