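import Mathlib
import Pool.Agent.Lib.HBA.TFex
import Pool.Agent.Lib.HBA.ToTmpl
import Pool.Agent.Lib.HBA.AddW
import Pool.Agent.Lib.HBA.WMain
import Pool.Agent.Lib.HBA.RefEx
import Pool.Agent.Lib.HBA.Pre2
import Pool.Agent.Lib.HBD.Final

set_option autoImplicit false

/-!
# HBA.Main : homogeneous bent functions of every degree `k ≥ 2`
-/

namespace Pool.Agent.HBA

open Finset Pool.Agent.P47443c

theorem allLarge (k : ℕ) (hk : 2 ≤ k) : HBD.AllLarge k := by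
  obtain ⟨T⟩ := exists_TF
  obtain ⟨W⟩ := exists_wsys T k hk
  obtain ⟨S⟩ := exists_refsys T k hk
  obtain ⟨X, n, hX1, hX2⟩ := exists_pre2 hk T S W
  obtain ⟨a, ha, -⟩ := W.surj 1 le_rfl (by omega)
  have hU : 0 < W.U.card := Finset.card_pos.2 ⟨a, ha⟩
  obtain ⟨Y1, h1, h1'⟩ := add_w X W
  obtain ⟨Y2, h2, h2'⟩ := add_w Y1 W
  obtain ⟨T1, e1⟩ := tmpl_of_pre Y1 (Finset.card_pos.1 (by omega))
  obtain ⟨T2, e2⟩ := tmpl_of_pre Y2 (Finset.card_pos.1 (by omega))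
  have f1 : Fintype.card T1.P = W.U.card * (n + 1) + 1 := by rw [e1, h1, hX1]; ring
  have f2 : Fintype.card T2.P = W.U.card * (n + 1 + 1) + 1 := by rw [e2, h2, h1, hX1]; ring
  have g1 := HBD.sys_of_tmpl T1
  have g2 := HBD.sys_of_tmpl T2
  rw [f1] at g1
  rw [f2] at g2
  exact HBD.allLarge_of_two (HBD.coprime_aux W.U.card (n + 1)) (Nat.succ_pos _) (Nat.succ_pos _)
    g1 g2

/-- Homogeneous bent functions of every degree `k ≥ 2`, in all large even dimensions. -/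
theorem homBent_all (k : ℕ) (hk : 2 ≤ k) : ∃ N : ℕ, 2 ≤ N ∧ ∀ n : ℕ, N < n → Even n →
    HomBent n k := by
  obtain ⟨N, hN⟩ := allLarge k hk
  refine ⟨2 * N + 2, by omega, ?_⟩
  rintro n hn ⟨m, rfl⟩
  have := HBD.homBent_of_sys (hN m (by omega))
  rwa [two_mul] at this

end Pool.Agent.HBA
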